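import Pool.Agent.V8H70.TS.Basic

/-!
# The analytic step: a doubling map cannot be smoothed with neutral periodic orbits
-/

set_option autoImplicit false

open Set Filter Topology

namespace Pool.Agent.V8H70.TS

lemma sum_perm {N c d : ℕ} (hc : Nat.Coprime N c) (φ : ℕ → ℝ) :
    ∑ i ∈ Finset.range N, φ ((c * i + d) % N) = ∑ i ∈ Finset.range N, φ i := by
  rcases Nat.eq_zero_or_pos N with rfl | hN
  · simp
  have hinj : Set.InjOn (fun i => (c * i + d) % N) (Finset.range N : Set ℕ) := by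
    intro i hi j hj hij
    have hi' : i < N := by simpa using hi
    have hj' : j < N := by simpa using hj
    have h1 : c * i + d ≡ c * j + d [MOD N] := hij
    have h2 : c * i ≡ c * j [MOD N] := Nat.ModEq.add_right_cancel' d h1
    have h3 : i ≡ j [MOD N] := Nat.ModEq.cancel_left_of_coprime hc h2
    exact Nat.ModEq.eq_of_lt_of_lt h3 hi' hj'
  have himg : (Finset.range N).image (fun i => (c * i + d) % N) = Finset.range N := by
    apply Finset.eq_of_subset_of_card_le
    · intro j hj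
      obtain ⟨i, _, rfl⟩ := Finset.mem_image.1 hj
      exact Finset.mem_range.2 (Nat.mod_lt _ hN)
    · rw [Finset.card_image_of_injOn hinj]
  conv_rhs => rw [← himg]
  rw [Finset.sum_image hinj]

lemma log_amgm {x y : ℝ} (hx : 0 < x) (hy : 0 < y) :
    Real.log 2 + (Real.log x + Real.log y) / 2 ≤ Real.log (x + y) := by
  have h1 : 4 * (x * y) ≤ (x + y) ^ 2 := by nlinarith [sq_nonneg (x - y)]
  have h2 : Real.log (4 * (x * y)) ≤ Real.log ((x + y) ^ 2) :=
    Real.log_le_log (by positivity) h1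
  rw [Real.log_mul (by norm_num) (by positivity), Real.log_mul hx.ne' hy.ne', Real.log_pow,
    show (4:ℝ) = 2 ^ 2 by norm_num, Real.log_pow] at h2
  push_cast at h2
  linarith

lemma mvt {f : ℝ → ℝ} (hf : Differentiable ℝ f) {a b : ℝ} (hab : a < b) :
    ∃ c, a < c ∧ c < b ∧ f b - f a = deriv f c * (b - a) := by
  obtain ⟨c, hc, h⟩ := exists_deriv_eq_slope f hab hf.continuous.continuousOn
    hf.differentiableOn
  refine ⟨c, hc.1, hc.2, ?_⟩
  rw [h]; field_simp [(sub_pos.2 hab).ne']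

theorem S5 (f : Bool → ℝ → ℝ) (P Q : ℝ → ℝ)
    (hf : ∀ s, Differentiable ℝ (f s)) (hf' : ∀ s, Continuous (deriv (f s)))
    (hpos : ∀ s x, 0 < deriv (f s) x)
    (hPQ : ∀ t ∈ AA, 0 ≤ t → t ≤ 1 → P t ≤ Q t)
    (hQP : ∀ s ∈ AA, ∀ t ∈ AA, 0 ≤ s → s < t → t ≤ 1 → Q s < P t)
    (e0 : ∀ t ∈ AA, 0 ≤ t → t ≤ 1/2 → f false (P t) = P (2 * t))
    (e1 : ∀ t ∈ AA, 1/2 ≤ t → t ≤ 1 → f true (P t) = P (2 * t - 1))
    (hξ : ∀ b : ℕ, ∃ ξ : ℕ → ℝ,
      (∀ i : ℕ, i < 3 ^ b → P ((i:ℝ) / 3 ^ b) ≤ ξ i ∧ ξ i ≤ Q ((i:ℝ) / 3 ^ b)) ∧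
      ∑ i ∈ Finset.range (3 ^ b), Real.log (deriv (f (decide (3 ^ b < 2 * i))) (ξ i)) = 0) :
    False := by
  have h01 : (0:ℝ) ≤ 1 := zero_le_one
  have hlog : ∀ s, Continuous (fun x => Real.log (deriv (f s) x)) := fun s =>
    (hf' s).log (fun x => (hpos s x).ne')
  -- the compact interval
  set K : Set ℝ := Icc (P 0) (Q 1) with hK
  have hKc : IsCompact K := isCompact_Icc
  have hCs : ∀ s, ∃ C, ∀ x ∈ K, |Real.log (deriv (f s) x)| ≤ C := by
    intro s
    obtain ⟨C, hC⟩ := hKc.exists_bound_of_continuousOn (hlog s).continuousOn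
    exact ⟨C, fun x hx => by simpa using hC x hx⟩
  obtain ⟨C, hC0, hC⟩ : ∃ C, 0 ≤ C ∧ ∀ s, ∀ x ∈ K, |Real.log (deriv (f s) x)| ≤ C := by
    obtain ⟨C0, h0⟩ := hCs false
    obtain ⟨C1, h1⟩ := hCs true
    refine ⟨max 0 (max C0 C1), le_max_left _ _, fun s x hx => ?_⟩
    cases s
    · exact (h0 x hx).trans ((le_max_left _ _).trans (le_max_right _ _))
    · exact (h1 x hx).trans ((le_max_right _ _).trans (le_max_right _ _))
  set ε : ℝ := Real.log 2 / 2 with hε
  have hlog2 : 0 < Real.log 2 := Real.log_pos (by norm_num)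
  have hεpos : 0 < ε := by positivity
  have hδs : ∀ s, ∃ δ > 0, ∀ x ∈ K, ∀ y ∈ K, |x - y| < δ →
      |Real.log (deriv (f s) x) - Real.log (deriv (f s) y)| < ε := by
    intro s
    have h1 := hKc.uniformContinuousOn_of_continuous (hlog s).continuousOn
    rw [Metric.uniformContinuousOn_iff] at h1
    obtain ⟨δ, hδ, h2⟩ := h1 ε hεpos
    exact ⟨δ, hδ, fun x hx y hy hxy => h2 x hx y hy hxy⟩
  obtain ⟨δ, hδ, hδC⟩ : ∃ δ > 0, ∀ s, ∀ x ∈ K, ∀ y ∈ K, |x - y| < δ →
      |Real.log (deriv (f s) x) - Real.log (deriv (f s) y)| < ε := by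
    obtain ⟨d0, hd0, h0⟩ := hδs false
    obtain ⟨d1, hd1, h1⟩ := hδs true
    refine ⟨min d0 d1, lt_min hd0 hd1, fun s x hx y hy hxy => ?_⟩
    cases s
    · exact h0 x hx y hy (hxy.trans_le (min_le_left _ _))
    · exact h1 x hx y hy (hxy.trans_le (min_le_right _ _))
  set W : ℝ := P 1 - P 0 with hW
  -- choose the level
  obtain ⟨b, hb⟩ : ∃ b : ℕ, (2 * C * (W / δ) + 2 * C) / ε < 3 ^ b := by
    obtain ⟨b, hb⟩ := pow_unbounded_of_one_lt ((2 * C * (W / δ) + 2 * C) / ε)
      (show (1:ℝ) < 3 by norm_num)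
    exact ⟨b, hb⟩
  obtain ⟨ξ, hξ1, hξ2⟩ := hξ b
  -- the grid
  set N : ℕ := 3 ^ b with hN
  have hNr : ((N:ℕ):ℝ) = 3 ^ b := by rw [hN]; push_cast; ring
  have hNpos : 0 < N := by rw [hN]; positivity
  have hNposr : (0:ℝ) < N := by exact_mod_cast hNpos
  have hNodd : N % 2 = 1 := by
    rw [hN, Nat.pow_mod]; simp
  rw [← hNr] at hb
  simp only [← hNr] at hξ1
  have hgA : ∀ i : ℕ, (i:ℝ) / N ∈ AA := by
    intro i
    rw [hNr, div_eq_mul_inv, ← inv_pow]
    exact AA.mul_mem (nat_AA i) (Lam_AA (Lam_pow (Lam_inv Lam_three) b))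
  have hg0 : ∀ i : ℕ, (0:ℝ) ≤ (i:ℝ) / N := fun i => by positivity
  have hg1 : ∀ i : ℕ, i ≤ N → (i:ℝ) / N ≤ 1 := fun i hi => by
    rw [div_le_one hNposr]; exact_mod_cast hi
  have hglt : ∀ i j : ℕ, i < j → (i:ℝ) / N < (j:ℝ) / N := fun i j hij => by
    have : (i:ℝ) < j := by exact_mod_cast hij
    gcongr
  set p : ℕ → ℝ := fun i => P ((i:ℝ) / N) with hp
  set a : ℕ → ℝ := fun i => p (i + 1) - p i with ha
  have hQp : ∀ i < N, Q ((i:ℝ) / N) < p (i + 1) := by
    intro i hi
    exact hQP _ (hgA i) _ (hgA (i + 1)) (hg0 i) (hglt _ _ (Nat.lt_succ_self i)) (hg1 _ hi)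
  have hpQ : ∀ i ≤ N, p i ≤ Q ((i:ℝ) / N) := fun i hi => hPQ _ (hgA i) (hg0 i) (hg1 i hi)
  have hapos : ∀ i < N, 0 < a i := by
    intro i hi
    have h1 := hQp i hi
    have h2 := hpQ i hi.le
    simp only [ha]; linarith
  have hp0 : p 0 = P 0 := by simp [hp]
  have hpN : p N = P 1 := by simp only [hp]; rw [div_self hNposr.ne']
  have hpmono : ∀ i j, i ≤ j → j ≤ N → p i ≤ p j := by
    intro i j hij hj
    induction j, hij using Nat.le_induction with
    | base => exact le_rfl
    | succ j hij ih =>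
      have h1 := ih (by omega)
      have h2 := hapos j (by omega)
      simp only [ha] at h2
      linarith
  have hQ1 : P 1 ≤ Q 1 := hPQ 1 AA.one_mem h01 le_rfl
  have hpK : ∀ i ≤ N, p i ∈ K := by
    intro i hi
    constructor
    · rw [← hp0]; exact hpmono 0 i (Nat.zero_le _) hi
    · calc p i ≤ p N := hpmono i N hi le_rfl
        _ ≤ Q 1 := by rw [hpN]; exact hQ1
  have hcell : ∀ i < N, ∀ x, p i ≤ x → x ≤ p (i + 1) → x ∈ K := by
    intro i hi x h1 h2
    exact ⟨(hpK i hi.le).1.trans h1, h2.trans (hpK (i + 1) hi).2⟩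
  have hξcell : ∀ i < N, p i ≤ ξ i ∧ ξ i ≤ p (i + 1) := by
    intro i hi
    obtain ⟨h1, h2⟩ := hξ1 i hi
    exact ⟨h1, h2.trans (hQp i hi).le⟩
  have hsuma : ∑ i ∈ Finset.range N, a i = W := by
    simp only [ha]
    rw [Finset.sum_range_sub, hpN, hp0]
  -- action on the grid
  have hF0 : ∀ i : ℕ, 2 * i ≤ N → f false (p i) = p (2 * i) := by
    intro i hi
    simp only [hp]
    have : 2 * (i:ℝ) ≤ N := by exact_mod_cast hi
    rw [e0 _ (hgA i) (hg0 i) (by rw [div_le_div_iff₀ hNposr two_pos]; linarith)]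
    congr 1; push_cast; ring
  have hF1 : ∀ i j : ℕ, N + j = 2 * i → i ≤ N → f true (p i) = p j := by
    intro i j hij hi
    simp only [hp]
    have h1 : (N:ℝ) + j = 2 * i := by exact_mod_cast hij
    have h2 : (0:ℝ) ≤ j := j.cast_nonneg
    rw [e1 _ (hgA i) (by rw [div_le_div_iff₀ two_pos hNposr]; linarith) (hg1 i hi)]
    congr 1
    rw [eq_div_iff hNposr.ne', sub_mul, one_mul, mul_assoc, div_mul_cancel₀ _ hNposr.ne']
    linarith
  -- main inequality
  have main : ∀ i < N, Real.log (a ((2 * i + 0) % N) + a ((2 * i + 1) % N)) ≤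
      Real.log (a i) + Real.log (deriv (f (decide (N < 2 * i))) (ξ i)) + ε +
        2 * C * (a i / δ) + (if i = N / 2 then 2 * C else 0) := by
    intro i hi
    have hai := hapos i hi
    rw [add_zero]
    by_cases hmid : i = N / 2
    · -- the middle cell
      have h2i : 2 * i + 1 = N := by omega
      have hmod1 : (2 * i) % N = 2 * i := Nat.mod_eq_of_lt (by omega)
      have hmod2 : (2 * i + 1) % N = 0 := by rw [h2i, Nat.mod_self]
      have hdec : decide (N < 2 * i) = false := by simp; omega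
      rw [hmod1, hmod2, hdec, if_pos hmid]
      have hhalf : (1/2:ℝ) ∈ AA := half_AA
      have h2ir : 2 * (i:ℝ) + 1 = N := by exact_mod_cast h2i
      have hz1 : p i < P (1/2) := by
        have := hQP _ (hgA i) _ hhalf (hg0 i)
          (by rw [div_lt_div_iff₀ hNposr two_pos]; linarith) (by norm_num)
        exact lt_of_le_of_lt (hpQ i hi.le) this
      have hz2 : P (1/2) < p (i + 1) := by
        have h3 := hQP _ hhalf _ (hgA (i + 1)) (by norm_num)
          (by rw [div_lt_div_iff₀ two_pos hNposr]; push_cast; linarith) (hg1 _ hi)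
        exact lt_of_le_of_lt (hPQ _ hhalf (by norm_num) (by norm_num)) h3
      have hfz0 : f false (P (1/2)) = p N := by
        rw [e0 _ hhalf (by norm_num) le_rfl, hpN]; norm_num
      have hfz1 : f true (P (1/2)) = p 0 := by
        rw [e1 _ hhalf le_rfl (by norm_num), hp0]; norm_num
      obtain ⟨c, hc1, hc2, hc3⟩ := mvt (hf false) hz1
      obtain ⟨d, hd1, hd2, hd3⟩ := mvt (hf true) hz2
      rw [hfz0, hF0 i (by omega)] at hc3
      rw [hfz1, hF1 (i + 1) 1 (by omega) (by omega)] at hd3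
      have hcK : c ∈ K := hcell i hi c hc1.le (hc2.le.trans hz2.le)
      have hdK : d ∈ K := hcell i hi d (hz1.le.trans hd1.le) hd2.le
      have hcC : deriv (f false) c ≤ Real.exp C := by
        rw [← Real.log_le_iff_le_exp (hpos _ _)]
        exact (abs_le.1 (hC false c hcK)).2
      have hdC : deriv (f true) d ≤ Real.exp C := by
        rw [← Real.log_le_iff_le_exp (hpos _ _)]
        exact (abs_le.1 (hC true d hdK)).2
      have hsum : a (2 * i) + a 0 ≤ Real.exp C * a i := by
        have e3 : a (2 * i) = p N - p (2 * i) := by simp only [ha]; rw [h2i]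
        have e4 : a 0 = p 1 - p 0 := by simp only [ha, zero_add]
        rw [e3, e4, hc3, hd3]
        simp only [ha]
        have h5 := mul_le_mul_of_nonneg_right hcC (sub_pos.2 hz1).le
        have h6 := mul_le_mul_of_nonneg_right hdC (sub_pos.2 hz2).le
        nlinarith
      have h7 : Real.log (a (2 * i) + a 0) ≤ C + Real.log (a i) := by
        calc Real.log (a (2 * i) + a 0) ≤ Real.log (Real.exp C * a i) :=
              Real.log_le_log (add_pos (hapos _ (by omega)) (hapos 0 hNpos)) hsum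
          _ = C + Real.log (a i) := by
              rw [Real.log_mul (Real.exp_pos C).ne' hai.ne', Real.log_exp]
      have h8 := abs_le.1 (hC false (ξ i) (hcell i hi _ (hξcell i hi).1 (hξcell i hi).2))
      have h9 : 0 ≤ 2 * C * (a i / δ) := by positivity
      linarith [h8.1]
    · rw [if_neg hmid, add_zero]
      -- ordinary cells
      obtain ⟨j, hj1, hj2, hj3, hj4⟩ : ∃ j : ℕ, (2 * i) % N = j ∧ (2 * i + 1) % N = j + 1 ∧
          f (decide (N < 2 * i)) (p i) = p j ∧ f (decide (N < 2 * i)) (p (i + 1)) = p (j + 2) := by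
        by_cases h2i : N < 2 * i
        · refine ⟨2 * i - N, ?_, ?_, ?_, ?_⟩
          · rw [Nat.mod_eq_sub_mod h2i.le, Nat.mod_eq_of_lt (by omega)]
          · rw [Nat.mod_eq_sub_mod (by omega), Nat.mod_eq_of_lt (by omega)]; omega
          · rw [decide_eq_true h2i]; exact hF1 i _ (by omega) hi.le
          · rw [decide_eq_true h2i]; exact hF1 (i + 1) _ (by omega) hi
        · refine ⟨2 * i, ?_, ?_, ?_, ?_⟩
          · rw [Nat.mod_eq_of_lt (by omega)]
          · rw [Nat.mod_eq_of_lt (by omega)]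
          · rw [decide_eq_false h2i]; exact hF0 i (by omega)
          · rw [decide_eq_false h2i, hF0 (i + 1) (by omega)]; congr 1
      have hjN : j < N := by rw [← hj1]; exact Nat.mod_lt _ hNpos
      have hjN' : j + 1 < N := by rw [← hj2]; exact Nat.mod_lt _ hNpos
      rw [hj1, hj2]
      set s := decide (N < 2 * i) with hs
      have hlt : p i < p (i + 1) := by
        have := hapos i hi
        simp only [ha] at this
        linarith
      obtain ⟨c, hc1, hc2, hc3⟩ := mvt (hf s) hlt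
      rw [hj3, hj4] at hc3
      have hsum : a j + a (j + 1) = deriv (f s) c * a i := by
        simp only [ha]
        rw [← hc3]; ring
      rw [hsum, Real.log_mul (hpos _ _).ne' hai.ne']
      have hcK : c ∈ K := hcell i hi c hc1.le hc2.le
      have hξK : ξ i ∈ K := hcell i hi _ (hξcell i hi).1 (hξcell i hi).2
      by_cases hsmall : a i < δ
      · have h1 : |c - ξ i| < δ := by
          refine lt_of_le_of_lt ?_ hsmall
          have h2 := hξcell i hi
          simp only [ha]
          rw [abs_le]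
          constructor <;> linarith
        have h2 := (abs_lt.1 (hδC s c hcK (ξ i) hξK h1)).2
        have h9 : 0 ≤ 2 * C * (a i / δ) := by positivity
        linarith
      · push Not at hsmall
        have h1 : 1 ≤ a i / δ := by rwa [one_le_div hδ]
        have h2 : 2 * C ≤ 2 * C * (a i / δ) := by nlinarith
        have h3 := (abs_le.1 (hC s c hcK)).2
        have h4 := (abs_le.1 (hC s (ξ i) hξK)).1
        linarith
  have hcop : Nat.Coprime N 2 := by
    rw [hN]; exact Nat.Coprime.pow_left b (by norm_num)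
  have hlow : ∀ i < N, Real.log 2 + (Real.log (a ((2 * i + 0) % N)) +
      Real.log (a ((2 * i + 1) % N))) / 2 ≤
      Real.log (a ((2 * i + 0) % N) + a ((2 * i + 1) % N)) := by
    intro i hi
    exact log_amgm (hapos _ (Nat.mod_lt _ hNpos)) (hapos _ (Nat.mod_lt _ hNpos))
  have hsum1 : ∑ i ∈ Finset.range N, (Real.log 2 + (Real.log (a ((2 * i + 0) % N)) +
      Real.log (a ((2 * i + 1) % N))) / 2) ≤ ∑ i ∈ Finset.range N, (Real.log (a i) +
      Real.log (deriv (f (decide (N < 2 * i))) (ξ i)) + ε +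
        2 * C * (a i / δ) + (if i = N / 2 then 2 * C else 0)) := by
    apply Finset.sum_le_sum
    intro i hi
    have hi' := Finset.mem_range.1 hi
    exact (hlow i hi').trans (main i hi')
  simp only [Finset.sum_add_distrib, Finset.sum_const, Finset.card_range, nsmul_eq_mul,
    ← Finset.sum_div, ← Finset.mul_sum] at hsum1
  rw [sum_perm hcop (fun i => Real.log (a i)), sum_perm hcop (fun i => Real.log (a i)), hξ2,
    Finset.sum_ite_eq' (Finset.range N) (N / 2) (fun _ => 2 * C),
    if_pos (Finset.mem_range.2 (Nat.div_lt_self hNpos (by norm_num))), hsuma] at hsum1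
  rw [div_lt_iff₀ hεpos] at hb
  have : Real.log 2 = 2 * ε := by rw [hε]; ring
  rw [this] at hsum1
  linarith

end Pool.Agent.V8H70.TS
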