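import Pool.Agent.V8H70.TS.Defs

/-!
# Piecewise linear homeomorphisms with slopes `2^a 3^b` and breakpoints in `ℤ[1/6]`: basic notions
-/

set_option autoImplicit false

open Set Filter Topology

namespace Pool.Agent.V8H70.TS

lemma Lam_pos {l : ℝ} (h : l ∈ Lam) : 0 < l := by
  obtain ⟨a, b, rfl⟩ := h; positivity

lemma Lam_one : (1:ℝ) ∈ Lam := ⟨0, 0, by simp⟩
lemma Lam_two : (2:ℝ) ∈ Lam := ⟨1, 0, by simp⟩
lemma Lam_three : (3:ℝ) ∈ Lam := ⟨0, 1, by simp⟩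

lemma Lam_mul {l m : ℝ} (hl : l ∈ Lam) (hm : m ∈ Lam) : l * m ∈ Lam := by
  obtain ⟨a, b, rfl⟩ := hl
  obtain ⟨c, d, rfl⟩ := hm
  refine ⟨a + c, b + d, ?_⟩
  rw [zpow_add₀ two_ne_zero, zpow_add₀ three_ne_zero]; ring

lemma Lam_inv {l : ℝ} (hl : l ∈ Lam) : l⁻¹ ∈ Lam := by
  obtain ⟨a, b, rfl⟩ := hl
  exact ⟨-a, -b, by rw [mul_inv, zpow_neg, zpow_neg]⟩

lemma Lam_pow {l : ℝ} (hl : l ∈ Lam) (n : ℕ) : l ^ n ∈ Lam := by
  induction n with
  | zero => simpa using Lam_one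
  | succ n ih => rw [pow_succ]; exact Lam_mul ih hl

lemma Lam_six : (6:ℝ) ∈ Lam := by
  have := Lam_mul Lam_two Lam_three
  norm_num at this; exact this

lemma mem_AA {x : ℝ} : x ∈ AA ↔ ∃ (m : ℤ) (k : ℕ), x * 6 ^ k = m := Iff.rfl

lemma half_AA : (1/2:ℝ) ∈ AA := ⟨3, 1, by norm_num⟩
lemma third_AA : (1/3:ℝ) ∈ AA := ⟨2, 1, by norm_num⟩

lemma int_AA (n : ℤ) : (n:ℝ) ∈ AA := ⟨n, 0, by simp⟩
lemma nat_AA (n : ℕ) : (n:ℝ) ∈ AA := ⟨n, 0, by simp⟩

lemma Lam_AA {l : ℝ} (h : l ∈ Lam) : l ∈ AA := by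
  obtain ⟨a, b, rfl⟩ := h
  refine AA.mul_mem ?_ ?_
  · rcases Int.eq_nat_or_neg a with ⟨n, rfl | rfl⟩
    · rw [zpow_natCast]
      exact AA.pow_mem (by exact_mod_cast nat_AA 2) n
    · rw [zpow_neg, zpow_natCast, ← inv_pow]
      refine AA.pow_mem ?_ n
      have := half_AA
      norm_num at this ⊢; exact this
  · rcases Int.eq_nat_or_neg b with ⟨n, rfl | rfl⟩
    · rw [zpow_natCast]
      exact AA.pow_mem (by exact_mod_cast nat_AA 3) n
    · rw [zpow_neg, zpow_natCast, ← inv_pow]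
      refine AA.pow_mem ?_ n
      have := third_AA
      norm_num at this ⊢; exact this

lemma AA_mul_iff {l x : ℝ} (hl : l ∈ Lam) : l * x ∈ AA ↔ x ∈ AA := by
  constructor
  · intro h
    have := AA.mul_mem (Lam_AA (Lam_inv hl)) h
    rwa [← mul_assoc, inv_mul_cancel₀ (Lam_pos hl).ne', one_mul] at this
  · intro h
    exact AA.mul_mem (Lam_AA hl) h

lemma AA_add_iff {c x : ℝ} (hc : c ∈ AA) : x + c ∈ AA ↔ x ∈ AA := by
  constructor
  · intro h
    have := AA.sub_mem h hc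
    simpa using this
  · intro h
    exact AA.add_mem h hc

/-- There are small positive slopes in `Lam`. -/
lemma exists_small {e : ℝ} (he : 0 < e) : ∃ l ∈ Lam, l < e := by
  obtain ⟨n, hn⟩ := exists_pow_lt_of_lt_one he (show (1/2:ℝ) < 1 by norm_num)
  refine ⟨(1/2)^n, ?_, hn⟩
  have : (1/2:ℝ) ∈ Lam := by simpa using Lam_inv Lam_two
  exact Lam_pow this n

/-! ### Germs -/

/-- right germ of slope `l` -/
def RG (F : ℝ → ℝ) (x l : ℝ) : Prop := ∀ᶠ y in 𝓝[>] x, F y = F x + l * (y - x)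

/-- left germ of slope `l` -/
def LG (F : ℝ → ℝ) (x l : ℝ) : Prop := ∀ᶠ y in 𝓝[<] x, F y = F x + l * (y - x)

lemma RG_iff {F : ℝ → ℝ} {x l : ℝ} :
    RG F x l ↔ ∃ e > 0, ∀ y, x ≤ y → y < x + e → F y = F x + l * (y - x) := by
  unfold RG
  rw [eventually_nhdsWithin_iff, Metric.eventually_nhds_iff]
  constructor
  · rintro ⟨e, he, h⟩
    refine ⟨e, he, fun y h1 h2 => ?_⟩
    rcases h1.eq_or_lt with rfl | h1
    · simp
    · exact h (by rw [Real.dist_eq, abs_lt]; constructor <;> linarith) h1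
  · rintro ⟨e, he, h⟩
    refine ⟨e, he, fun y h1 h2 => ?_⟩
    rw [Real.dist_eq, abs_lt] at h1
    exact h y (le_of_lt h2) (by linarith)

lemma LG_iff {F : ℝ → ℝ} {x l : ℝ} :
    LG F x l ↔ ∃ e > 0, ∀ y, y ≤ x → x - e < y → F y = F x + l * (y - x) := by
  unfold LG
  rw [eventually_nhdsWithin_iff, Metric.eventually_nhds_iff]
  constructor
  · rintro ⟨e, he, h⟩
    refine ⟨e, he, fun y h1 h2 => ?_⟩
    rcases h1.eq_or_lt with rfl | h1
    · simp
    · exact h (by rw [Real.dist_eq, abs_lt]; constructor <;> linarith) h1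
  · rintro ⟨e, he, h⟩
    refine ⟨e, he, fun y h1 h2 => ?_⟩
    rw [Real.dist_eq, abs_lt] at h1
    exact h y (le_of_lt h2) (by linarith)

lemma tendsto_gt (F : ℝ ≃o ℝ) (x : ℝ) : Tendsto F (𝓝[>] x) (𝓝[>] (F x)) := by
  refine tendsto_nhdsWithin_iff.2 ⟨?_, ?_⟩
  · exact (F.continuous.tendsto x).mono_left nhdsWithin_le_nhds
  · filter_upwards [self_mem_nhdsWithin] with y hy
    exact F.strictMono hy

lemma tendsto_lt (F : ℝ ≃o ℝ) (x : ℝ) : Tendsto F (𝓝[<] x) (𝓝[<] (F x)) := by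
  refine tendsto_nhdsWithin_iff.2 ⟨?_, ?_⟩
  · exact (F.continuous.tendsto x).mono_left nhdsWithin_le_nhds
  · filter_upwards [self_mem_nhdsWithin] with y hy
    exact F.strictMono hy

lemma RG.comp {F G : ℝ ≃o ℝ} {x l m : ℝ} (hF : RG F (G x) l) (hG : RG G x m) :
    RG (F * G : ℝ ≃o ℝ) x (l * m) := by
  have h1 := (tendsto_gt G x).eventually hF
  filter_upwards [h1, hG] with y h2 h3
  simp only [RelIso.mul_apply]
  rw [h2, h3]; ring

lemma LG.comp {F G : ℝ ≃o ℝ} {x l m : ℝ} (hF : LG F (G x) l) (hG : LG G x m) :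
    LG (F * G : ℝ ≃o ℝ) x (l * m) := by
  have h1 := (tendsto_lt G x).eventually hF
  filter_upwards [h1, hG] with y h2 h3
  simp only [RelIso.mul_apply]
  rw [h2, h3]; ring

lemma RG.inv {F : ℝ ≃o ℝ} {x l : ℝ} (hl : 0 < l) (h : RG F x l) :
    RG (F⁻¹ : ℝ ≃o ℝ) (F x) l⁻¹ := by
  have h0 : (F⁻¹ : ℝ ≃o ℝ) (F x) = x := F.symm_apply_apply x
  have h1 : Tendsto (F⁻¹ : ℝ ≃o ℝ) (𝓝[>] (F x)) (𝓝[>] x) := by
    have := tendsto_gt (F⁻¹) (F x)
    rwa [h0] at this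
  filter_upwards [h1.eventually h] with y hy
  have h2 : F ((F⁻¹ : ℝ ≃o ℝ) y) = y := F.apply_symm_apply y
  rw [h2] at hy
  have h3 : y - F x = l * ((F⁻¹ : ℝ ≃o ℝ) y - x) := by linarith
  rw [h0, h3, ← mul_assoc, inv_mul_cancel₀ hl.ne']; ring

lemma LG.inv {F : ℝ ≃o ℝ} {x l : ℝ} (hl : 0 < l) (h : LG F x l) :
    LG (F⁻¹ : ℝ ≃o ℝ) (F x) l⁻¹ := by
  have h0 : (F⁻¹ : ℝ ≃o ℝ) (F x) = x := F.symm_apply_apply x
  have h1 : Tendsto (F⁻¹ : ℝ ≃o ℝ) (𝓝[<] (F x)) (𝓝[<] x) := by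
    have := tendsto_lt (F⁻¹) (F x)
    rwa [h0] at this
  filter_upwards [h1.eventually h] with y hy
  have h2 : F ((F⁻¹ : ℝ ≃o ℝ) y) = y := F.apply_symm_apply y
  rw [h2] at hy
  have h3 : y - F x = l * ((F⁻¹ : ℝ ≃o ℝ) y - x) := by linarith
  rw [h0, h3, ← mul_assoc, inv_mul_cancel₀ hl.ne']; ring

/-- locally piecewise linear: one sided affine germs with slopes in `Lam`, the same on both sides
outside `AA`, and `AA` is preserved -/
def LPL (F : ℝ → ℝ) : Prop :=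
  ∀ x, ∃ l ∈ Lam, ∃ m ∈ Lam, RG F x l ∧ LG F x m ∧ (x ∉ AA → l = m) ∧ (F x ∈ AA ↔ x ∈ AA)

/-- The group of all locally piecewise linear homeomorphisms of the line. -/
def PP : Subgroup (ℝ ≃o ℝ) where
  carrier := {F | LPL F}
  one_mem' := fun x => ⟨1, Lam_one, 1, Lam_one, by simp [RG], by simp [LG], fun _ => rfl, Iff.rfl⟩
  mul_mem' := by
    intro F G hF hG x
    obtain ⟨l, hl, m, hm, h1, h2, h3, h4⟩ := hG x
    obtain ⟨l', hl', m', hm', h1', h2', h3', h4'⟩ := hF (G x)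
    refine ⟨l' * l, Lam_mul hl' hl, m' * m, Lam_mul hm' hm, h1'.comp h1, h2'.comp h2, fun hx => ?_, ?_⟩
    · rw [h3 hx, h3' (fun h => hx (h4.1 h))]
    · rw [RelIso.mul_apply, h4', h4]
  inv_mem' := by
    intro F hF y
    obtain ⟨x, rfl⟩ := F.surjective y
    obtain ⟨l, hl, m, hm, h1, h2, h3, h4⟩ := hF x
    have h0 : (F⁻¹ : ℝ ≃o ℝ) (F x) = x := F.symm_apply_apply x
    refine ⟨l⁻¹, Lam_inv hl, m⁻¹, Lam_inv hm, h1.inv (Lam_pos hl), h2.inv (Lam_pos hm), fun hx => ?_, ?_⟩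
    · rw [h3 (fun h => hx (h4.2 h))]
    · rw [h0, h4]

lemma mem_PP {F : ℝ ≃o ℝ} : F ∈ PP ↔ LPL F := Iff.rfl

lemma PP.AA_iff {F : ℝ ≃o ℝ} (h : F ∈ PP) (x : ℝ) : F x ∈ AA ↔ x ∈ AA := by
  obtain ⟨l, hl, m, hm, h1, h2, h3, h4⟩ := h x
  exact h4

lemma PP.map_AA {F : ℝ ≃o ℝ} (h : F ∈ PP) {x : ℝ} (hx : x ∈ AA) : F x ∈ AA := (PP.AA_iff h x).2 hx

/-! ### Affine maps -/

/-- the affine map `x ↦ l x + c` -/
noncomputable def aff (l c : ℝ) (hl : 0 < l) : ℝ ≃o ℝ where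
  toFun x := l * x + c
  invFun x := (x - c) / l
  left_inv x := by field_simp; ring
  right_inv x := by field_simp; ring
  map_rel_iff' := by
    intro a b
    simp only [Equiv.coe_fn_mk, add_le_add_iff_right]
    exact mul_le_mul_iff_right₀ hl

@[simp] lemma aff_apply (l c : ℝ) (hl : 0 < l) (x : ℝ) : aff l c hl x = l * x + c := rfl

lemma aff_mem {l c : ℝ} (hl : l ∈ Lam) (hc : c ∈ AA) : aff l c (Lam_pos hl) ∈ PP := by
  intro x
  refine ⟨l, hl, l, hl, Eventually.of_forall fun y => ?_, Eventually.of_forall fun y => ?_,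
    fun _ => rfl, ?_⟩
  · simp only [aff_apply]; ring
  · simp only [aff_apply]; ring
  · rw [aff_apply, AA_add_iff hc, AA_mul_iff hl]

/-- translation by `c` -/
noncomputable def tr (c : ℝ) : ℝ ≃o ℝ := aff 1 c one_pos

@[simp] lemma tr_apply (c x : ℝ) : tr c x = x + c := by simp [tr]

lemma tr_mem {c : ℝ} (hc : c ∈ AA) : tr c ∈ PP := aff_mem Lam_one hc

/-! ### Gluing -/

section glue

variable (F H : ℝ ≃o ℝ) (p : ℝ) (h : F p = H p)

/-- `F` to the left of `p` and `H` to the right of `p` -/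
noncomputable def glue : ℝ ≃o ℝ :=
  StrictMono.orderIsoOfSurjective (fun x => if x ≤ p then F x else H x)
    (by
      intro x y hxy
      simp only
      split_ifs with h1 h2 h2
      · exact F.strictMono hxy
      · exact lt_of_le_of_lt (F.monotone h1) (h ▸ H.strictMono (not_le.1 h2))
      · exact absurd (hxy.le.trans h2) h1
      · exact H.strictMono hxy)
    (by
      intro y
      rcases le_total y (F p) with hy | hy
      · refine ⟨F.symm y, ?_⟩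
        have : F.symm y ≤ p := by rw [← F.le_iff_le, F.apply_symm_apply]; exact hy
        simp [this]
      · rcases hy.eq_or_lt with hy | hy
        · exact ⟨p, by simp [hy]⟩
        · refine ⟨H.symm y, ?_⟩
          have : p < H.symm y := by rw [← H.lt_iff_lt, H.apply_symm_apply, ← h]; exact hy
          simp [not_le.2 this])

lemma glue_le {x : ℝ} (hx : x ≤ p) : glue F H p h x = F x := by
  change (if x ≤ p then F x else H x) = F x
  rw [if_pos hx]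

lemma glue_ge {x : ℝ} (hx : p ≤ x) : glue F H p h x = H x := by
  change (if x ≤ p then F x else H x) = H x
  rcases hx.eq_or_lt with rfl | hx
  · rw [if_pos le_rfl, h]
  · rw [if_neg (not_le.2 hx)]

lemma RG.congr {F G : ℝ → ℝ} {x l e : ℝ} (h : RG F x l) (he : x < e)
    (hFG : ∀ y, x ≤ y → y < e → F y = G y) : RG G x l := by
  have h1 : ∀ᶠ y in 𝓝[>] x, y < e :=
    (tendsto_id.mono_left nhdsWithin_le_nhds).eventually (gt_mem_nhds he)
  filter_upwards [h, h1, self_mem_nhdsWithin] with y h2 h3 h4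
  rw [← hFG y (le_of_lt h4) h3, ← hFG x le_rfl he, h2]

lemma LG.congr {F G : ℝ → ℝ} {x l e : ℝ} (h : LG F x l) (he : e < x)
    (hFG : ∀ y, y ≤ x → e < y → F y = G y) : LG G x l := by
  have h1 : ∀ᶠ y in 𝓝[<] x, e < y :=
    (tendsto_id.mono_left nhdsWithin_le_nhds).eventually (lt_mem_nhds he)
  filter_upwards [h, h1, self_mem_nhdsWithin] with y h2 h3 h4
  rw [← hFG y (le_of_lt h4) h3, ← hFG x le_rfl he, h2]

lemma glue_mem (hF : F ∈ PP) (hH : H ∈ PP) (hp : p ∈ AA) : glue F H p h ∈ PP := by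
  intro x
  obtain ⟨l, hl, m, hm, h1, h2, h3, h4⟩ := hF x
  obtain ⟨l', hl', m', hm', h1', h2', h3', h4'⟩ := hH x
  rcases lt_trichotomy x p with hx | rfl | hx
  · refine ⟨l, hl, m, hm, h1.congr hx fun y _ h => (glue_le _ _ _ _ h.le).symm,
      h2.congr (sub_one_lt x) fun y h _ => (glue_le _ _ _ _ (h.trans hx.le)).symm, h3, ?_⟩
    rw [glue_le _ _ _ _ hx.le, h4]
  · refine ⟨l', hl', m, hm, h1'.congr (lt_add_one x) fun y h _ => (glue_ge _ _ _ _ h).symm,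
      h2.congr (sub_one_lt x) fun y h _ => (glue_le _ _ _ _ h).symm, fun h => absurd hp h, ?_⟩
    rw [glue_le _ _ _ _ le_rfl, h4]
  · refine ⟨l', hl', m', hm', h1'.congr (lt_add_one x)
        fun y h _ => (glue_ge _ _ _ _ (hx.le.trans h)).symm,
      h2'.congr hx fun y h h' => (glue_ge _ _ _ _ h'.le).symm, h3', ?_⟩
    rw [glue_ge _ _ _ _ hx.le, h4']

end glue

/-- Existence form of gluing. -/
lemma exists_glue {F H : ℝ ≃o ℝ} (hF : F ∈ PP) (hH : H ∈ PP) {p : ℝ} (hp : p ∈ AA)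
    (h : F p = H p) : ∃ K ∈ PP, (∀ x ≤ p, K x = F x) ∧ (∀ x ≥ p, K x = H x) :=
  ⟨glue F H p h, glue_mem F H p h hF hH hp, fun _ hx => glue_le _ _ _ _ hx,
    fun _ hx => glue_ge _ _ _ _ hx⟩

end Pool.Agent.V8H70.TS
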