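import Pool.Agent.V8H70.TS.Main

/-!
# From the line to the circle
-/

set_option autoImplicit false

open Set Filter Topology

namespace Pool.Agent.V8H70.TS

lemma coe_eq_iff (x y : ℝ) : (x : AddCircle (1:ℝ)) = (y : AddCircle (1:ℝ)) ↔ ∃ n : ℤ, x = y + n := by
  rw [← sub_eq_zero, ← AddCircle.coe_sub, AddCircle.coe_eq_zero_iff]
  constructor
  · rintro ⟨n, hn⟩
    refine ⟨n, ?_⟩
    rw [zsmul_eq_mul, mul_one] at hn
    linarith
  · rintro ⟨n, hn⟩
    refine ⟨n, ?_⟩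
    rw [zsmul_eq_mul, mul_one]
    linarith

lemma coe_add_int (x : ℝ) (n : ℤ) : ((x + n : ℝ) : AddCircle (1:ℝ)) = (x : AddCircle (1:ℝ)) :=
  (coe_eq_iff _ _).2 ⟨n, rfl⟩

lemma circle_ind {p : AddCircle (1:ℝ) → Prop} (h : ∀ x : ℝ, p (x : AddCircle (1:ℝ)))
    (z : AddCircle (1:ℝ)) : p z := QuotientAddGroup.induction_on z h

lemma circle_surj (z : AddCircle (1:ℝ)) : ∃ x : ℝ, (x : AddCircle (1:ℝ)) = z :=
  QuotientAddGroup.mk_surjective z

lemma homeo_ext {σ τ : AddCircle (1:ℝ) ≃ₜ AddCircle (1:ℝ)}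
    (h : ∀ x : ℝ, σ (x : AddCircle (1:ℝ)) = τ (x : AddCircle (1:ℝ))) : σ = τ :=
  Homeomorph.ext fun z => circle_ind (p := fun z => σ z = τ z) h z

section circ

variable (F : ℝ ≃o ℝ) (h : ∀ x, F (x + 1) = F x + 1)

include h in
lemma circ_per : Function.Periodic (fun x : ℝ => ((F x : ℝ) : AddCircle (1:ℝ))) 1 := by
  intro x
  change ((F (x + 1) : ℝ) : AddCircle (1:ℝ)) = ((F x : ℝ) : AddCircle (1:ℝ))
  rw [h, AddCircle.coe_add_period]

include h in
lemma symm_per (x : ℝ) : F.symm (x + 1) = F.symm x + 1 := by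
  apply F.injective
  rw [h, F.apply_symm_apply, F.apply_symm_apply]

lemma lift_continuous {G : ℝ → ℝ} (hG : Continuous G)
    (hp : Function.Periodic (fun x : ℝ => ((G x : ℝ) : AddCircle (1:ℝ))) 1) :
    Continuous (fun z : AddCircle (1:ℝ) => hp.lift z) := by
  rw [← QuotientAddGroup.isOpenQuotientMap_mk.continuous_comp_iff]
  exact (AddCircle.continuous_mk' (1:ℝ)).comp hG

/-- the homeomorphism of the circle induced by a periodic order isomorphism of the line -/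
noncomputable def circ : AddCircle (1:ℝ) ≃ₜ AddCircle (1:ℝ) where
  toFun z := (circ_per F h).lift z
  invFun z := (circ_per F.symm (symm_per F h)).lift z
  left_inv z := by
    obtain ⟨x, rfl⟩ := circle_surj z
    change ((F.symm (F x) : ℝ) : AddCircle (1:ℝ)) = _
    rw [F.symm_apply_apply]
  right_inv z := by
    obtain ⟨x, rfl⟩ := circle_surj z
    change ((F (F.symm x) : ℝ) : AddCircle (1:ℝ)) = _
    rw [F.apply_symm_apply]
  continuous_toFun := lift_continuous F.continuous _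
  continuous_invFun := lift_continuous F.symm.continuous _

lemma circ_coe (x : ℝ) : circ F h (x : AddCircle (1:ℝ)) = ((F x : ℝ) : AddCircle (1:ℝ)) := rfl

lemma circ_isLift : IsLift F (circ F h) := fun _ => rfl

end circ

lemma isLift_inj {F : ℝ → ℝ} {σ τ : AddCircle (1:ℝ) ≃ₜ AddCircle (1:ℝ)} (h1 : IsLift F σ)
    (h2 : IsLift F τ) : σ = τ := homeo_ext fun x => by rw [← h1 x, ← h2 x]

lemma isLift_mul {F G : ℝ → ℝ} {σ τ : AddCircle (1:ℝ) ≃ₜ AddCircle (1:ℝ)} (h1 : IsLift F σ)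
    (h2 : IsLift G τ) : IsLift (fun x => F (G x)) (σ * τ) := fun x => by
  rw [Homeomorph.mul_apply, ← h2 x, ← h1 (G x)]

/-- Continuous lifts are unique up to an integer. -/
lemma lift_unique {F G : ℝ → ℝ} {σ : AddCircle (1:ℝ) ≃ₜ AddCircle (1:ℝ)} (hF : Continuous F)
    (hG : Continuous G) (h1 : IsLift F σ) (h2 : IsLift G σ) : ∃ k : ℤ, ∀ x, F x = G x + k := by
  have h3 : ∀ x, ∃ n : ℤ, F x = G x + n := fun x =>
    (coe_eq_iff _ _).1 ((h1 x).trans (h2 x).symm)
  choose k hk using h3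
  have h4 : Continuous k := by
    rw [Int.isClosedEmbedding_coe_real.isEmbedding.continuous_iff]
    have : ((↑) : ℤ → ℝ) ∘ k = fun x => F x - G x := by
      funext x
      have := hk x
      simp only [Function.comp_apply]
      linarith
    rw [this]
    exact hF.sub hG
  refine ⟨k 0, fun x => ?_⟩
  rw [hk x, PreconnectedSpace.constant inferInstance h4 (x := x) (y := 0)]

/-! ### The Thompson-Stein group -/

lemma mem_AZ (x : ℝ) : (x : AddCircle (1:ℝ)) ∈ AZ ↔ x ∈ AA := by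
  constructor
  · rintro ⟨a, ha, hax⟩
    obtain ⟨n, hn⟩ := (coe_eq_iff _ _).1 hax
    have : x = a + ((-n : ℤ) : ℝ) := by push_cast; linarith
    rw [this]
    exact AA.add_mem ha (int_AA _)
  · intro h
    exact ⟨x, h, rfl⟩

lemma ev_right (b : AddCircle (1:ℝ)) (x : ℝ) :
    ∀ᶠ y in 𝓝[>] x, ∀ z ∈ Ioo x y, (z : AddCircle (1:ℝ)) ≠ b := by
  obtain ⟨b0, rfl⟩ := circle_surj b
  have h1 : x < b0 + ⌊x - b0⌋ + 1 := by linarith [Int.lt_floor_add_one (x - b0)]
  filter_upwards [mem_nhdsWithin_of_mem_nhds (Iio_mem_nhds h1)] with y hy z hz heq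
  obtain ⟨n, hn⟩ := (coe_eq_iff _ _).1 heq
  have h2 : ⌊x - b0⌋ < n := by
    rw [Int.floor_lt]; linarith [hz.1]
  have h3 : (⌊x - b0⌋ : ℝ) + 1 ≤ n := by exact_mod_cast h2
  have h4 : y < b0 + ⌊x - b0⌋ + 1 := hy
  linarith [hz.2]

lemma ev_left (b : AddCircle (1:ℝ)) (x : ℝ) :
    ∀ᶠ y in 𝓝[<] x, ∀ z ∈ Ioo y x, (z : AddCircle (1:ℝ)) ≠ b := by
  obtain ⟨b0, rfl⟩ := circle_surj b
  have h1 : b0 + ⌈x - b0⌉ - 1 < x := by linarith [Int.ceil_lt_add_one (x - b0)]
  filter_upwards [mem_nhdsWithin_of_mem_nhds (Ioi_mem_nhds h1)] with y hy z hz heq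
  obtain ⟨n, hn⟩ := (coe_eq_iff _ _).1 heq
  have h2 : n < ⌈x - b0⌉ := by
    rw [Int.lt_ceil]; linarith [hz.2]
  have h3 : (n : ℝ) + 1 ≤ ⌈x - b0⌉ := by exact_mod_cast h2
  have h4 : b0 + ⌈x - b0⌉ - 1 < y := hy
  linarith [hz.1]

lemma PP_of_IsPL {F : ℝ ≃o ℝ} (hPL : IsPL F) (hA : ∀ x, F x ∈ AA ↔ x ∈ AA) : F ∈ PP := by
  obtain ⟨B, hB, h⟩ := hPL
  intro x
  have hR : ∀ᶠ y in 𝓝[>] x, ∀ z ∈ Ioo x y, (z : AddCircle (1:ℝ)) ∉ B := by
    have h1 : ∀ᶠ y in 𝓝[>] x, ∀ b ∈ B, ∀ z ∈ Ioo x y, (z : AddCircle (1:ℝ)) ≠ b := by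
      rw [eventually_all_finset]
      intro b _
      exact ev_right b x
    filter_upwards [h1] with y hy z hz hzB
    exact hy _ hzB z hz rfl
  have hL : ∀ᶠ y in 𝓝[<] x, ∀ z ∈ Ioo y x, (z : AddCircle (1:ℝ)) ∉ B := by
    have h1 : ∀ᶠ y in 𝓝[<] x, ∀ b ∈ B, ∀ z ∈ Ioo y x, (z : AddCircle (1:ℝ)) ≠ b := by
      rw [eventually_all_finset]
      intro b _
      exact ev_left b x
    filter_upwards [h1] with y hy z hz hzB
    exact hy _ hzB z hz rfl
  obtain ⟨v, hv, hxv⟩ := (hR.and self_mem_nhdsWithin).exists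
  obtain ⟨u, hu, hux⟩ := (hL.and self_mem_nhdsWithin).exists
  have hxv' : x < v := hxv
  have hux' : u < x := hux
  by_cases hx : x ∈ AA
  · obtain ⟨l, hl, hl'⟩ := h x v hxv' hv
    obtain ⟨m, hm, hm'⟩ := h u x hux' hu
    refine ⟨l, hl, m, hm, ?_, ?_, fun hx' => absurd hx hx', hA x⟩
    · filter_upwards [Ioo_mem_nhdsGT hxv'] with y hy
      exact hl' y ⟨hy.1.le, hy.2.le⟩
    · filter_upwards [Ioo_mem_nhdsLT hux'] with y hy
      rw [hm' y ⟨hy.1.le, hy.2.le⟩, hm' x ⟨hux'.le, le_rfl⟩]; ring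
  · obtain ⟨l, hl, hl'⟩ := h u v (hux'.trans hxv') (by
      intro z hz
      rcases lt_trichotomy z x with h1 | h1 | h1
      · exact hu z ⟨hz.1, h1⟩
      · rw [h1]
        intro hzB
        exact hx ((mem_AZ x).1 (hB hzB))
      · exact hv z ⟨h1, hz.2⟩)
    refine ⟨l, hl, l, hl, ?_, ?_, fun _ => rfl, hA x⟩
    · filter_upwards [Ioo_mem_nhdsGT hxv'] with y hy
      rw [hl' y ⟨(hux'.trans hy.1).le, hy.2.le⟩, hl' x ⟨hux'.le, hxv'.le⟩]; ring
    · filter_upwards [Ioo_mem_nhdsLT hux'] with y hy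
      rw [hl' y ⟨hy.1.le, (hy.2.trans hxv').le⟩, hl' x ⟨hux'.le, hxv'.le⟩]; ring

lemma IsPL_of_GG (g : ↥GG) : IsPL (g : ℝ ≃o ℝ) := by
  classical
  obtain ⟨k, hk⟩ := (grid (GG_PP g) 0 1).exists
  have h6 : (0:ℝ) < 6 ^ k := by positivity
  have h6Z : (0:ℤ) < 6 ^ k := by positivity
  refine ⟨(Finset.range (6 ^ k)).image (fun j : ℕ => (((j:ℝ) / 6 ^ k : ℝ) : AddCircle (1:ℝ))),
    ?_, ?_⟩
  · intro b hb
    obtain ⟨j, -, rfl⟩ := Finset.mem_image.1 (Finset.mem_coe.1 hb)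
    rw [mem_AZ]
    exact ⟨j, k, by push_cast; field_simp⟩
  · intro u v huv h
    -- all grid points are break points
    have hgrid : ∀ j : ℤ, (((j:ℝ) / 6 ^ k : ℝ) : AddCircle (1:ℝ)) ∈
        (Finset.range (6 ^ k)).image (fun j : ℕ => (((j:ℝ) / 6 ^ k : ℝ) : AddCircle (1:ℝ))) := by
      intro j
      have h1 := Int.emod_nonneg j h6Z.ne'
      have h2 := Int.emod_lt_of_pos j h6Z
      have h3 := Int.mul_ediv_add_emod j (6 ^ k)
      refine Finset.mem_image.2 ⟨(j % 6 ^ k).toNat, ?_, ?_⟩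
      · rw [Finset.mem_range]
        have : ((j % 6 ^ k).toNat : ℤ) < ((6 ^ k : ℕ) : ℤ) := by
          rw [Int.toNat_of_nonneg h1]; push_cast; exact h2
        exact_mod_cast this
      · rw [coe_eq_iff]
        refine ⟨-(j / 6 ^ k), ?_⟩
        have h4 : (((j % 6 ^ k).toNat : ℕ) : ℝ) = ((j % 6 ^ k : ℤ) : ℝ) := by
          have : ((j % 6 ^ k).toNat : ℤ) = j % 6 ^ k := Int.toNat_of_nonneg h1
          exact_mod_cast this
        have h5 : (6:ℝ) ^ k * ((j / 6 ^ k : ℤ) : ℝ) + ((j % 6 ^ k : ℤ) : ℝ) = j := by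
          exact_mod_cast h3
        rw [h4]
        push_cast
        field_simp
        linarith
    set j : ℤ := ⌊u * 6 ^ k⌋ with hj
    have hj1 : (j:ℝ) / 6 ^ k ≤ u := by
      rw [div_le_iff₀ h6]; exact Int.floor_le _
    have hj2 : u < ((j:ℝ) + 1) / 6 ^ k := by
      rw [lt_div_iff₀ h6]; exact Int.lt_floor_add_one _
    have hj3 : v ≤ ((j:ℝ) + 1) / 6 ^ k := by
      by_contra hcon
      push Not at hcon
      have h1 := h (((j:ℝ) + 1) / 6 ^ k) ⟨hj2, hcon⟩
      have h2 := hgrid (j + 1)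
      push_cast at h1 h2
      exact h1 h2
    -- the reduced cell
    set n : ℤ := j / 6 ^ k with hn
    set j0 : ℤ := j % 6 ^ k with hj0
    have e1 : 0 ≤ j0 := Int.emod_nonneg j h6Z.ne'
    have e2 : j0 < 6 ^ k := Int.emod_lt_of_pos j h6Z
    have e3 : (6:ℝ) ^ k * n + j0 = j := by
      have := Int.mul_ediv_add_emod j (6 ^ k)
      exact_mod_cast this
    have e1r : (0:ℝ) ≤ j0 := by exact_mod_cast e1
    have e2r : (j0:ℝ) < 6 ^ k := by exact_mod_cast e2
    obtain ⟨l, hl, hl'⟩ := hk j0 ⟨(j0:ℝ) / 6 ^ k, ⟨le_rfl, by gcongr; linarith⟩, by positivity,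
      by rw [div_le_one h6]; exact e2r.le⟩
    have e4 : (j:ℝ) / 6 ^ k = j0 / 6 ^ k + n := by
      rw [← e3]; field_simp; ring
    have e5 : ((j:ℝ) + 1) / 6 ^ k = (j0 + 1) / 6 ^ k + n := by
      rw [← e3]; field_simp; ring
    have key : ∀ x, u ≤ x → x ≤ v → (g : ℝ ≃o ℝ) x =
        (g : ℝ ≃o ℝ) (j0 / 6 ^ k) + l * (x - n - j0 / 6 ^ k) + n := by
      intro x hx hx'
      have h1 := hl' (x - n) (by linarith) (by linarith)
      have h2 := GG_per_int g (x - n) n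
      rw [sub_add_cancel, h1] at h2
      exact h2
    refine ⟨l, hl, fun x hx => ?_⟩
    rw [key x hx.1 hx.2, key u le_rfl huv.le]; ring

/-- the homomorphism from the lifted group to the homeomorphisms of the circle -/
noncomputable def circHom : ↥GG →* (AddCircle (1:ℝ) ≃ₜ AddCircle (1:ℝ)) where
  toFun g := circ g (GG_per g)
  map_one' := homeo_ext fun _ => rfl
  map_mul' _ _ := homeo_ext fun _ => rfl

lemma circHom_coe (g : ↥GG) (x : ℝ) :
    circHom g (x : AddCircle (1:ℝ)) = (((g : ℝ ≃o ℝ) x : ℝ) : AddCircle (1:ℝ)) := rfl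

lemma circHom_tau : circHom tau = 1 := by
  apply homeo_ext
  intro x
  rw [circHom_coe, tau_apply, AddCircle.coe_add_period]; rfl

lemma isT23_iff (σ : AddCircle (1:ℝ) ≃ₜ AddCircle (1:ℝ)) : IsT23 σ ↔ ∃ g : ↥GG, circHom g = σ := by
  constructor
  · rintro ⟨⟨F, hper, hlift, hPL⟩, hAZ⟩
    have hA : ∀ x, F x ∈ AA ↔ x ∈ AA := by
      intro x
      rw [← mem_AZ, ← mem_AZ, hlift x]
      constructor
      · intro h
        rw [← hAZ] at h
        obtain ⟨z, hz, hz'⟩ := h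
        rwa [← σ.injective hz']
      · intro h
        rw [← hAZ]
        exact ⟨_, h, rfl⟩
    exact ⟨⟨F, PP_of_IsPL hPL hA, hper⟩, isLift_inj (circ_isLift F hper) hlift⟩
  · rintro ⟨g, rfl⟩
    refine ⟨⟨g, GG_per g, circ_isLift g (GG_per g), IsPL_of_GG g⟩, ?_⟩
    ext z
    obtain ⟨x, rfl⟩ := circle_surj z
    constructor
    · rintro ⟨w, hw, hwx⟩
      obtain ⟨y, hy, rfl⟩ := hw
      change circHom g (y : AddCircle (1:ℝ)) = _ at hwx
      rw [← hwx, circHom_coe, mem_AZ]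
      exact AA_apply g hy
    · intro hx
      rw [mem_AZ] at hx
      obtain ⟨y, rfl⟩ := (g : ℝ ≃o ℝ).surjective x
      exact ⟨(y : AddCircle (1:ℝ)), (mem_AZ y).2 ((PP.AA_iff (GG_PP g) y).1 hx), rfl⟩

/-! ### The main theorem on the circle -/

lemma HX_le_comm (x : ℝ) : HX x ≤ (⁅(⊤ : Subgroup ↥GG), (⊤ : Subgroup ↥GG)⁆ : Subgroup ↥GG) := by
  intro g hg
  obtain ⟨e, he, h⟩ := mem_HX_GI hg
  set e' := min e (1/4) with he'
  have h1 : e' ≤ e := min_le_left _ _
  have h2 : e' ≤ 1/4 := min_le_right _ _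
  have h3 : 0 < e' := lt_min he (by norm_num)
  have hg' := h e' h1
  obtain ⟨a, ha, ha1, ha2⟩ := exists_AA_between (show x < x + e' by linarith)
  obtain ⟨a', ha', ha1', ha2'⟩ := exists_AA_between ha1
  obtain ⟨b, hb, hb1, hb2⟩ := exists_AA_between (show x + 1 - e' < x + 1 by linarith)
  obtain ⟨b', hb', hb1', hb2'⟩ := exists_AA_between hb2
  have h4 := GI_le_comm ha hb ha' hb' ha2' (by linarith) hb1' (by linarith)
    (GI_mono ha2.le hb1.le hg')
  exact Subgroup.commutator_mono le_top le_top h4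

lemma per_int_mul {f : ℝ → ℝ} {d : ℤ} (h : ∀ x, f (x + 1) = f x + d) (x : ℝ) (n : ℤ) :
    f (x + n) = f x + d * n := by
  induction n using Int.induction_on with
  | zero => simp
  | succ n ih => push_cast at ih ⊢; rw [← add_assoc, h, ih]; ring
  | pred n ih =>
    have := h (x + ((-(n:ℤ) - 1 : ℤ) : ℝ))
    push_cast at this ih ⊢
    rw [show x + (-(n:ℝ) - 1) + 1 = x + -n by ring, ih] at this
    linarith

theorem circle_main (ρ : ↥GG →* (AddCircle (1:ℝ) ≃ₜ AddCircle (1:ℝ))) (htau : ρ tau = 1)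
    (hC : ∀ g, IsC1 (ρ g)) (g : ↥GG) : ρ g = 1 := by
  choose F hF hlift using hC
  have hcont : ∀ g, Continuous (F g) := fun g => (hF g).continuous
  have hdiff : ∀ g, Differentiable ℝ (F g) := fun g => (hF g).differentiable one_ne_zero
  have hdc : ∀ g, Continuous (deriv (F g)) := fun g => (hF g).continuous_deriv le_rfl
  have hmul : ∀ g h, ∃ k : ℤ, ∀ x, F (g * h) x = F g (F h x) + k := by
    intro g h
    have h1 := isLift_mul (hlift g) (hlift h)
    rw [← map_mul] at h1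
    exact lift_unique (hcont _) ((hcont g).comp (hcont h)) (hlift _) h1
  have hid : IsLift (fun x => x) 1 := fun _ => rfl
  have hone : ∃ k : ℤ, ∀ x, F 1 x = x + k := by
    have h1 := hlift 1
    rw [map_one] at h1
    exact lift_unique (hcont 1) continuous_id h1 hid
  have htau' : ∃ k : ℤ, ∀ x, F tau x = x + k := by
    have h1 := hlift tau
    rw [htau] at h1
    exact lift_unique (hcont tau) continuous_id h1 hid
  have hdeg : ∀ g, ∃ d : ℤ, ∀ x, F g (x + 1) = F g x + d := by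
    intro g
    refine lift_unique ((hcont g).comp (continuous_add_const 1)) (hcont g) (fun x => ?_) (hlift g)
    rw [hlift g (x + 1), AddCircle.coe_add_period]
  choose d hd using hdeg
  have hdmul : ∀ g h, d (g * h) = d g * d h := by
    intro g h
    obtain ⟨k, hk⟩ := hmul g h
    have h1 := hd (g * h) 0
    rw [hk, hk, hd h, per_int_mul (hd g)] at h1
    have h2 : ((d (g * h) : ℤ) : ℝ) = ((d g * d h : ℤ) : ℝ) := by push_cast; linarith
    exact_mod_cast h2
  have hd1 : d 1 = 1 := by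
    obtain ⟨k, hk⟩ := hone
    have h1 := hd 1 0
    rw [hk, hk] at h1
    have h2 : ((d 1 : ℤ) : ℝ) = ((1 : ℤ) : ℝ) := by push_cast; linarith
    exact_mod_cast h2
  have hdtau : d tau = 1 := by
    obtain ⟨k, hk⟩ := htau'
    have h1 := hd tau 0
    rw [hk, hk] at h1
    have h2 : ((d tau : ℤ) : ℝ) = ((1 : ℤ) : ℝ) := by push_cast; linarith
    exact_mod_cast h2
  have hdinv : ∀ g, d g * d g⁻¹ = 1 := by
    intro g; rw [← hdmul, mul_inv_cancel, hd1]
  let N : Subgroup ↥GG :=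
    { carrier := {g | d g = 1}
      one_mem' := hd1
      mul_mem' := by
        intro a b ha hb
        change d (a * b) = 1
        change d a = 1 at ha
        change d b = 1 at hb
        rw [hdmul, ha, hb, mul_one]
      inv_mem' := by
        intro a ha
        change d a⁻¹ = 1
        change d a = 1 at ha
        have := hdinv a
        rwa [ha, one_mul] at this }
  have hcN : (⁅(⊤ : Subgroup ↥GG), (⊤ : Subgroup ↥GG)⁆ : Subgroup ↥GG) ≤ N := by
    rw [Subgroup.commutator_le]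
    intro a _ b _
    rw [commutatorElement_def]
    change d (a * b * a⁻¹ * b⁻¹) = 1
    rw [hdmul, hdmul, hdmul]
    calc d a * d b * d a⁻¹ * d b⁻¹ = (d a * d a⁻¹) * (d b * d b⁻¹) := by ring
      _ = 1 := by rw [hdinv, hdinv, mul_one]
  have hNtop : N = ⊤ := by
    refine gen AA.zero_mem half_AA ?_ ((HX_le_comm 0).trans hcN) ((HX_le_comm (1/2)).trans hcN)
      hdtau
    intro n hn
    have h1 : (n:ℝ) * 2 = 1 := by linarith
    have h2 : n * 2 = 1 := by exact_mod_cast h1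
    omega
  have hdone : ∀ g, d g = 1 := by
    intro g
    have : g ∈ N := by rw [hNtop]; exact Subgroup.mem_top g
    exact this
  have hper : ∀ g x, F g (x + 1) = F g x + 1 := by
    intro g x
    rw [hd g, hdone g]; push_cast; ring
  -- the lifts are homeomorphisms
  have hinv1 : ∀ g, ∃ k : ℤ, ∀ x, F g (F g⁻¹ x) = x + k := by
    intro g
    obtain ⟨k, hk⟩ := hmul g g⁻¹
    obtain ⟨m, hm⟩ := hone
    refine ⟨m - k, fun x => ?_⟩
    have := hk x
    rw [mul_inv_cancel, hm] at this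
    push_cast; linarith
  have hinv2 : ∀ g, ∃ k : ℤ, ∀ x, F g⁻¹ (F g x) = x + k := by
    intro g
    obtain ⟨k, hk⟩ := hinv1 g⁻¹
    refine ⟨k, fun x => ?_⟩
    have := hk x
    rwa [inv_inv] at this
  have hsurj : ∀ g, Function.Surjective (F g) := by
    intro g y
    obtain ⟨k, hk⟩ := hinv1 g
    exact ⟨F g⁻¹ (y - k), by rw [hk]; ring⟩
  have hinj : ∀ g, Function.Injective (F g) := by
    intro g x y hxy
    obtain ⟨k, hk⟩ := hinv2 g
    have h1 := hk x
    have h2 := hk y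
    rw [hxy] at h1
    linarith
  have hmono : ∀ g, StrictMono (F g) := by
    intro g
    rcases (hcont g).strictMono_of_inj (hinj g) with h | h
    · exact h
    · have h1 := h (show (0:ℝ) < 0 + 1 by norm_num)
      rw [hper] at h1
      linarith
  let L : ↥GG → (ℝ ≃o ℝ) := fun g => StrictMono.orderIsoOfSurjective (F g) (hmono g) (hsurj g)
  have hLx : ∀ g, (L g : ℝ → ℝ) = F g := fun _ => rfl
  have hL : PRep L := ⟨fun g x => hper g x, fun g h => hmul g h, htau'⟩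
  have hne : ∀ g x, deriv (F g) x ≠ 0 := by
    intro g x hx
    obtain ⟨k, hk⟩ := hinv2 g
    have h1 : deriv (fun y => F g⁻¹ (F g y)) x = deriv (F g⁻¹) (F g x) * deriv (F g) x :=
      deriv_comp (h₂ := F g⁻¹) (h := F g) x (hdiff g⁻¹ _) (hdiff g _)
    have h2 : (fun y => F g⁻¹ (F g y)) = fun y => y + (k:ℝ) := funext hk
    rw [h2, hx, mul_zero, deriv_add_const, deriv_id''] at h1
    exact one_ne_zero h1
  have hpos : ∀ g x, 0 < deriv (L g) x := by
    intro g x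
    have h1 : 0 ≤ deriv (F g) x := (hmono g).monotone.deriv_nonneg
    exact lt_of_le_of_ne h1 (hne g x).symm
  obtain ⟨k, hk⟩ := main_dyn hL (fun g => hdiff g) (fun g => hdc g) hpos g
  apply homeo_ext
  intro x
  rw [← hlift g x]
  have h1 : F g x = x + k := hk x
  rw [h1, coe_add_int]; rfl

end Pool.Agent.V8H70.TS
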