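import Pool.Agent.V8H70.TS.Per2
import Pool.Agent.V8H70.TS.Analysis

/-!
# No `C^1` model with a monotone equivariant family
-/

set_option autoImplicit false

open Set Filter Topology

namespace Pool.Agent.V8H70.TS

lemma deriv_eq_one {f : ℝ → ℝ} {p : ℝ} (hf : DifferentiableAt ℝ f p) (hp : f p = p)
    (h : ∀ e > 0, ∃ x, x ≠ p ∧ |x - p| < e ∧ f x = x) : deriv f p = 1 := by
  have h1 := hf.hasDerivAt
  rw [hasDerivAt_iff_tendsto_slope] at h1
  by_contra hne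
  have h2 : ∀ᶠ y in 𝓝[≠] p, slope f p y ≠ 1 := h1.eventually_ne hne
  rw [eventually_nhdsWithin_iff, Metric.eventually_nhds_iff] at h2
  obtain ⟨e, he, h3⟩ := h2
  obtain ⟨x, hx, hxe, hfx⟩ := h e he
  refine h3 (y := x) hxe hx ?_
  rw [slope_def_field, hfx, hp, div_self (sub_ne_zero.2 hx)]

lemma HX0_zero {g : ↥GG} (hg : g ∈ HX 0) : (g : ℝ ≃o ℝ) 0 = 0 := by
  rw [mem_HX] at hg
  exact hg.self_of_nhds

lemma HX0_one {g : ↥GG} (hg : g ∈ HX 0) : (g : ℝ ≃o ℝ) 1 = 1 := by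
  have := GG_per g 0
  rwa [zero_add, HX0_zero hg, zero_add] at this

lemma HX0_trans {x y : ℝ} (hx : x ∈ AA) (hy : y ∈ AA) (h1 : 0 < x) (h2 : x < 1) (h3 : 0 < y)
    (h4 : y < 1) : ∃ g ∈ HX 0, (g : ℝ ≃o ℝ) x = y := by
  obtain ⟨a, ha, ha1, ha2⟩ := exists_AA_between (lt_min h1 h3)
  obtain ⟨b, hb, hb1, hb2⟩ := exists_AA_between (max_lt h2 h4)
  rw [lt_min_iff] at ha2
  rw [max_lt_iff] at hb1
  obtain ⟨F, hF, hF'⟩ := trans1 ha hb hx hy (by linarith) ha2.1 hb1.1 ha2.2 hb1.2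
  exact ⟨F, GI_le_HX (by linarith) ha1 hF, hF'⟩

lemma HX0_trans2 {x y z w : ℝ} (hx : x ∈ AA) (hy : y ∈ AA) (hz : z ∈ AA) (hw : w ∈ AA)
    (h1 : 0 < x) (h2 : x < y) (h3 : y < 1) (h4 : 0 < z) (h5 : z < w) (h6 : w < 1) :
    ∃ g ∈ HX 0, (g : ℝ ≃o ℝ) x = z ∧ (g : ℝ ≃o ℝ) y = w := by
  obtain ⟨a, ha, ha1, ha2⟩ := exists_AA_between (lt_min h1 h4)
  obtain ⟨b, hb, hb1, hb2⟩ := exists_AA_between (max_lt h3 h6)
  rw [lt_min_iff] at ha2
  rw [max_lt_iff] at hb1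
  obtain ⟨F, hF, hF'⟩ := trans2 ha hb hx hy hz hw (by linarith) ha2.1 h2 hb1.1 ha2.2 h5 hb1.2
  exact ⟨F, GI_le_HX (by linarith) ha1 hF, hF'⟩

section core

variable (M : ↥GG → (ℝ ≃o ℝ)) (P : ℝ → ℝ)

/-- points of `AA` between `0` and `y` -/
def Lo (y : ℝ) : Set ℝ := {z | z ∈ AA ∧ 0 < z ∧ z < y}
/-- points of `AA` between `y` and `1` -/
def Up (y : ℝ) : Set ℝ := {z | z ∈ AA ∧ y < z ∧ z < 1}

/-- left limit -/
noncomputable def Pm (y : ℝ) : ℝ := sSup (P '' Lo y)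
/-- right limit -/
noncomputable def Qp (y : ℝ) : ℝ := sInf (P '' Up y)

variable (hP : ∀ x ∈ AA, ∀ y ∈ AA, 0 < x → x < y → y < 1 → P x < P y)

include hP

lemma Lo_ne {y : ℝ} (h : 0 < y) : (P '' Lo y).Nonempty := by
  obtain ⟨z, hz, h1, h2⟩ := exists_AA_between h
  exact ⟨P z, z, ⟨hz, h1, h2⟩, rfl⟩

lemma Up_ne {y : ℝ} (h : y < 1) : (P '' Up y).Nonempty := by
  obtain ⟨z, hz, h1, h2⟩ := exists_AA_between h
  exact ⟨P z, z, ⟨hz, h1, h2⟩, rfl⟩

lemma Lo_bdd {y : ℝ} (hy : y ∈ AA) (h : y < 1) : P y ∈ upperBounds (P '' Lo y) := by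
  rintro _ ⟨z, ⟨hz, h1, h2⟩, rfl⟩
  exact (hP z hz y hy h1 h2 h).le

lemma Up_bdd {y : ℝ} (hy : y ∈ AA) (h : 0 < y) : P y ∈ lowerBounds (P '' Up y) := by
  rintro _ ⟨z, ⟨hz, h1, h2⟩, rfl⟩
  exact (hP y hy z hz h h1 h2).le

lemma Pm_le {y : ℝ} (hy : y ∈ AA) (h0 : 0 < y) (h1 : y < 1) : Pm P y ≤ P y :=
  csSup_le (Lo_ne P hP h0) (Lo_bdd P hP hy h1)

lemma le_Qp {y : ℝ} (hy : y ∈ AA) (h0 : 0 < y) (h1 : y < 1) : P y ≤ Qp P y :=
  le_csInf (Up_ne P hP h1) (Up_bdd P hP hy h0)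

lemma le_Pm {z y : ℝ} (hy : y ∈ AA) (h1 : y < 1) (hz : z ∈ AA) (hz0 : 0 < z) (hzy : z < y) :
    P z ≤ Pm P y := le_csSup ⟨_, Lo_bdd P hP hy h1⟩ ⟨z, ⟨hz, hz0, hzy⟩, rfl⟩

lemma Qp_le {z y : ℝ} (hy : y ∈ AA) (h0 : 0 < y) (hz : z ∈ AA) (hz1 : z < 1) (hzy : y < z) :
    Qp P y ≤ P z := csInf_le ⟨_, Up_bdd P hP hy h0⟩ ⟨z, ⟨hz, hzy, hz1⟩, rfl⟩

lemma Qp_lt_Pm {y z : ℝ} (hy : y ∈ AA) (hz : z ∈ AA) (h0 : 0 < y) (h1 : y < z) (h2 : z < 1) :
    Qp P y < Pm P z := by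
  obtain ⟨u, hu, hu1, hu2⟩ := exists_AA_between h1
  obtain ⟨v, hv, hv1, hv2⟩ := exists_AA_between hu2
  calc Qp P y ≤ P u := Qp_le P hP hy h0 hu (by linarith) hu1
    _ < P v := hP u hu v hv (by linarith) hv1 (by linarith)
    _ ≤ Pm P z := le_Pm P hP hz h2 hv (by linarith) hv2

variable (heq : ∀ g ∈ HX 0, ∀ y ∈ AA, 0 < y → y < 1 → M g (P y) = P ((g : ℝ ≃o ℝ) y))

include heq

lemma M_Pm {g : ↥GG} (hg : g ∈ HX 0) {y : ℝ} (hy : y ∈ AA) (h0 : 0 < y) (h1 : y < 1) :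
    M g (Pm P y) = Pm P ((g : ℝ ≃o ℝ) y) := by
  unfold Pm
  rw [(M g).map_csSup' (Lo_ne P hP h0) ⟨_, Lo_bdd P hP hy h1⟩]
  congr 1
  have hg0 := HX0_zero hg
  have hg1 := HX0_one hg
  ext t
  constructor
  · rintro ⟨_, ⟨z, ⟨hz, hz0, hzy⟩, rfl⟩, rfl⟩
    refine ⟨(g : ℝ ≃o ℝ) z, ⟨AA_apply g hz, ?_, (g : ℝ ≃o ℝ).strictMono hzy⟩, ?_⟩
    · rw [← hg0]; exact (g : ℝ ≃o ℝ).strictMono hz0
    · exact (heq g hg z hz hz0 (by linarith)).symm
  · rintro ⟨z, ⟨hz, hz0, hzy⟩, rfl⟩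
    obtain ⟨x, rfl⟩ := (g : ℝ ≃o ℝ).surjective z
    have hxA : x ∈ AA := (PP.AA_iff (GG_PP g) x).1 hz
    have hx0 : 0 < x := by rw [← hg0] at hz0; exact (g : ℝ ≃o ℝ).lt_iff_lt.1 hz0
    have hxy : x < y := (g : ℝ ≃o ℝ).lt_iff_lt.1 hzy
    exact ⟨P x, ⟨x, ⟨hxA, hx0, hxy⟩, rfl⟩, heq g hg x hxA hx0 (by linarith)⟩

lemma M_Qp {g : ↥GG} (hg : g ∈ HX 0) {y : ℝ} (hy : y ∈ AA) (h0 : 0 < y) (h1 : y < 1) :
    M g (Qp P y) = Qp P ((g : ℝ ≃o ℝ) y) := by
  unfold Qp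
  rw [(M g).map_csInf' (Up_ne P hP h1) ⟨_, Up_bdd P hP hy h0⟩]
  congr 1
  have hg0 := HX0_zero hg
  have hg1 := HX0_one hg
  ext t
  constructor
  · rintro ⟨_, ⟨z, ⟨hz, hzy, hz1⟩, rfl⟩, rfl⟩
    refine ⟨(g : ℝ ≃o ℝ) z, ⟨AA_apply g hz, (g : ℝ ≃o ℝ).strictMono hzy, ?_⟩, ?_⟩
    · rw [← hg1]; exact (g : ℝ ≃o ℝ).strictMono hz1
    · exact (heq g hg z hz (by linarith) hz1).symm
  · rintro ⟨z, ⟨hz, hzy, hz1⟩, rfl⟩
    obtain ⟨x, rfl⟩ := (g : ℝ ≃o ℝ).surjective z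
    have hxA : x ∈ AA := (PP.AA_iff (GG_PP g) x).1 hz
    have hx1 : x < 1 := by rw [← hg1] at hz1; exact (g : ℝ ≃o ℝ).lt_iff_lt.1 hz1
    have hxy : y < x := (g : ℝ ≃o ℝ).lt_iff_lt.1 hzy
    exact ⟨P x, ⟨x, ⟨hxA, hxy, hx1⟩, rfl⟩, heq g hg x hxA (by linarith) hx1⟩

variable (hmul : ∀ g ∈ HX 0, ∀ h ∈ HX 0, ∀ x, M (g * h) x = M g (M h x))
  (hd : ∀ g, Differentiable ℝ (M g)) (hc : ∀ g, Continuous (deriv (M g)))
  (hpos : ∀ g x, 0 < deriv (M g) x)

include hmul hd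

/-- In the gapless case fixed elements have derivative one. -/
lemma deriv_one {w : ↥GG} (hw : w ∈ HX 0) {y : ℝ} (hy : y ∈ AA) (h0 : 0 < y) (h1 : y < 1)
    (hgap : Pm P y = Qp P y) (hwy : (w : ℝ ≃o ℝ) y = y) : deriv (M w) (P y) = 1 := by
  obtain ⟨w1, hw1, w2, hw2, hww, e1, e2⟩ := cut hw hy h0 h1 hwy
  have hPm : Pm P y = P y := le_antisymm (Pm_le P hP hy h0 h1)
    (by rw [hgap]; exact le_Qp P hP hy h0 h1)
  have hQp : Qp P y = P y := by rw [← hgap]; exact hPm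
  have hfix1 : M w1 (P y) = P y := by rw [heq w1 hw1 y hy h0 h1, e1 y h0.le le_rfl]
  have hfix2 : M w2 (P y) = P y := by rw [heq w2 hw2 y hy h0 h1, e2 y le_rfl h1.le]
  have d1 : deriv (M w1) (P y) = 1 := by
    refine deriv_eq_one (hd w1 _) hfix1 fun e he => ?_
    obtain ⟨_, ⟨z, ⟨hz, hz0, hzy⟩, rfl⟩, hz2⟩ :=
      exists_lt_of_lt_csSup (Lo_ne P hP h0) (show P y - e < sSup (P '' Lo y) by
        change _ < Pm P y; rw [hPm]; linarith)
    have h3 := hP z hz y hy hz0 hzy h1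
    refine ⟨P z, h3.ne, ?_, ?_⟩
    · rw [abs_lt]; constructor <;> linarith
    · rw [heq w1 hw1 z hz hz0 (by linarith), e1 z hz0.le hzy.le]
  have d2 : deriv (M w2) (P y) = 1 := by
    refine deriv_eq_one (hd w2 _) hfix2 fun e he => ?_
    obtain ⟨_, ⟨z, ⟨hz, hzy, hz1⟩, rfl⟩, hz2⟩ :=
      exists_lt_of_csInf_lt (Up_ne P hP h1) (show sInf (P '' Up y) < P y + e by
        change Qp P y < _; rw [hQp]; linarith)
    have h3 := hP y hy z hz h0 hzy hz1
    refine ⟨P z, h3.ne', ?_, ?_⟩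
    · rw [abs_lt]; constructor <;> linarith
    · rw [heq w2 hw2 z hz (by linarith) hz1, e2 z hzy.le hz1.le]
  have hcomp : (M w : ℝ → ℝ) = (M w1) ∘ (M w2) := by
    funext x
    rw [hww, hmul w1 hw1 w2 hw2]; rfl
  rw [hcomp, deriv_comp _ (hd w1 _) (hd w2 _), hfix2, d1, d2, one_mul]

include hc hpos

theorem core : False := by
  obtain ⟨gL, hgL, eL⟩ := exists_gL
  obtain ⟨gR, hgR, eR⟩ := exists_gR
  set G : Bool → ↥GG := fun s => if s then gR else gL with hG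
  have hGf : G false = gL := rfl
  have hGt : G true = gR := rfl
  have hGH : ∀ s, G s ∈ HX 0 := by
    intro s; cases s
    · exact hgL
    · exact hgR
  set Y : ℝ → ℝ := fun t => (1 + t) / 3 with hY
  have hYA : ∀ t ∈ AA, Y t ∈ AA := by
    intro t ht
    have := AA.mul_mem (AA.add_mem AA.one_mem ht) third_AA
    simpa [hY, div_eq_mul_inv] using this
  have hY0 : ∀ t, 0 ≤ t → 0 < Y t := fun t ht => by simp only [hY]; linarith
  have hY1 : ∀ t, t ≤ 1 → Y t < 1 := fun t ht => by simp only [hY]; linarith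
  refine S5 (fun s => M (G s)) (fun t => Pm P (Y t)) (fun t => Qp P (Y t)) (fun s => hd _)
    (fun s => hc _) (fun s x => hpos _ _) ?_ ?_ ?_ ?_ ?_
  · intro t ht h0 h1
    exact (Pm_le P hP (hYA t ht) (hY0 t h0) (hY1 t h1)).trans
      (le_Qp P hP (hYA t ht) (hY0 t h0) (hY1 t h1))
  · intro s hs t ht h0 h1 h2
    exact Qp_lt_Pm P hP (hYA s hs) (hYA t ht) (hY0 s h0) (by simp only [hY]; linarith) (hY1 t h2)
  · intro t ht h0 h1
    change M gL (Pm P (Y t)) = Pm P (Y (2 * t))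
    rw [M_Pm M P hP heq hgL (hYA t ht) (hY0 t h0) (hY1 t (by linarith)),
      eL (Y t) (by simp only [hY]; linarith) (by simp only [hY]; linarith)]
    congr 1
    simp only [hY]; ring
  · intro t ht h0 h1
    change M gR (Pm P (Y t)) = Pm P (Y (2 * t - 1))
    rw [M_Pm M P hP heq hgR (hYA t ht) (hY0 t (by linarith)) (hY1 t h1),
      eR (Y t) (by simp only [hY]; linarith) (by simp only [hY]; linarith)]
    congr 1
    simp only [hY]; ring
  · intro b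
    -- the grid
    set N : ℕ := 3 ^ b with hN
    have hNr : ((N:ℕ):ℝ) = 3 ^ b := by rw [hN]; push_cast; ring
    have hNpos : 0 < N := by rw [hN]; positivity
    have hNposr : (0:ℝ) < N := by exact_mod_cast hNpos
    have hNodd : N % 2 = 1 := by
      rw [hN, Nat.pow_mod]; simp
    have hcop : Nat.Coprime N 2 := by
      rw [hN]; exact Nat.Coprime.pow_left b (by norm_num)
    rw [← hNr]
    have hgA : ∀ i : ℕ, (i:ℝ) / N ∈ AA := by
      intro i
      rw [hNr, div_eq_mul_inv, ← inv_pow]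
      exact AA.mul_mem (nat_AA i) (Lam_AA (Lam_pow (Lam_inv Lam_three) b))
    set y : ℕ → ℝ := fun i => Y ((i:ℝ) / N) with hy
    have hyA : ∀ i, y i ∈ AA := fun i => hYA _ (hgA i)
    have hy0 : ∀ i, 0 < y i := fun i => hY0 _ (by positivity)
    have hy1 : ∀ i, i < N → y i < 1 := fun i hi => hY1 _ (by
      rw [div_le_one hNposr]; exact_mod_cast hi.le)
    have hGy : ∀ i, i < N → (G (decide (N < 2 * i)) : ℝ ≃o ℝ) (y i) = y ((2 * i + 0) % N) := by
      intro i hi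
      have hir : (i:ℝ) < N := by exact_mod_cast hi
      by_cases h2i : N < 2 * i
      · rw [decide_eq_true h2i, hGt, add_zero, Nat.mod_eq_sub_mod h2i.le,
          Nat.mod_eq_of_lt (by omega)]
        have h2r : (N:ℝ) < 2 * i := by exact_mod_cast h2i
        have h3 : (1/2:ℝ) < i / N := by rw [div_lt_div_iff₀ two_pos hNposr]; linarith
        have h4 : (i:ℝ) / N < 1 := by rw [div_lt_one hNposr]; exact hir
        simp only [hy, hY]
        rw [eR _ (by linarith) (by linarith)]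
        push_cast [Nat.cast_sub h2i.le]
        field_simp; ring
      · rw [decide_eq_false h2i, hGf, add_zero, Nat.mod_eq_of_lt (by omega)]
        have h2r : 2 * (i:ℝ) ≤ N := by exact_mod_cast (not_lt.1 h2i)
        have h3 : (i:ℝ) / N ≤ 1/2 := by rw [div_le_div_iff₀ hNposr two_pos]; linarith
        have h4 : (0:ℝ) ≤ (i:ℝ) / N := by positivity
        simp only [hy, hY]
        rw [eL _ (by linarith) (by linarith)]
        push_cast
        field_simp; ring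
    by_cases hcase : ∃ y0 ∈ AA, 0 < y0 ∧ y0 < 1 ∧ Pm P y0 = Qp P y0
    · -- no gaps
      obtain ⟨y0, hy0A, hy00, hy01, hy0e⟩ := hcase
      have hnogap : ∀ z ∈ AA, 0 < z → z < 1 → Pm P z = Qp P z := by
        intro z hz h0 h1
        obtain ⟨g, hg, hgz⟩ := HX0_trans hy0A hz hy00 hy01 h0 h1
        have h2 := M_Pm M P hP heq hg hy0A hy00 hy01
        have h3 := M_Qp M P hP heq hg hy0A hy00 hy01
        rw [hgz] at h2 h3
        rw [← h2, ← h3, hy0e]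
      refine ⟨fun i => P (y i), fun i hi => ⟨Pm_le P hP (hyA i) (hy0 i) (hy1 i hi),
        le_Qp P hP (hyA i) (hy0 i) (hy1 i hi)⟩, ?_⟩
      set ψ : ℕ → ℝ := fun i => Real.log (deriv (M (G (decide (N < 2 * i)))) (P (y i))) with hψ
      change ∑ i ∈ Finset.range N, ψ i = 0
      have horb : ∀ i, i < N → ∀ k : ℕ, ∃ w ∈ HX 0, (w : ℝ ≃o ℝ) (y i) = y ((2 ^ k * i + 0) % N) ∧
          Real.log (deriv (M w) (P (y i))) = ∑ j ∈ Finset.range k, ψ ((2 ^ j * i + 0) % N) := by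
        intro i hi k
        induction k with
        | zero =>
          refine ⟨1, (HX 0).one_mem, ?_, ?_⟩
          · rw [pow_zero, one_mul, add_zero, Nat.mod_eq_of_lt hi]; rfl
          · have h1 : (M 1 : ℝ → ℝ) = id := by
              funext x
              have := hmul 1 (HX 0).one_mem 1 (HX 0).one_mem x
              rw [mul_one] at this
              exact ((M 1).injective this).symm
            rw [h1]; simp
        | succ k ih =>
          obtain ⟨w, hw, hw1, hw2⟩ := ih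
          set m := (2 ^ k * i + 0) % N with hm
          have hmN : m < N := Nat.mod_lt _ hNpos
          have hGm := hGH (decide (N < 2 * m))
          refine ⟨G (decide (N < 2 * m)) * w, (HX 0).mul_mem hGm hw, ?_, ?_⟩
          · rw [GG_mul_apply, hw1, hGy m hmN]
            congr 1
            rw [hm, add_zero, add_zero, add_zero, Nat.mul_mod_mod]
            congr 1; ring
          · have hcomp : (M (G (decide (N < 2 * m)) * w) : ℝ → ℝ) =
                (M (G (decide (N < 2 * m)))) ∘ (M w) := by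
              funext x
              rw [hmul _ hGm _ hw]; rfl
            rw [hcomp, deriv_comp _ (hd _ _) (hd _ _), heq w hw _ (hyA i) (hy0 i) (hy1 i hi), hw1,
              Real.log_mul (hpos _ _).ne' (hpos _ _).ne', hw2, Finset.sum_range_succ, add_comm]
      set n := Nat.totient N with hn
      have hnpos : 0 < n := Nat.totient_pos.2 hNpos
      have hmodn : ∀ i, i < N → (2 ^ n * i + 0) % N = i := by
        intro i hi
        have h1 : 2 ^ n ≡ 1 [MOD N] := Nat.ModEq.pow_totient hcop.symm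
        have h2 : 2 ^ n * i ≡ 1 * i [MOD N] := h1.mul_right i
        rw [one_mul] at h2
        rw [add_zero]
        have h3 : (2 ^ n * i) % N = i % N := h2
        rw [h3, Nat.mod_eq_of_lt hi]
      have hzero : ∀ i ∈ Finset.range N, ∑ j ∈ Finset.range n, ψ ((2 ^ j * i + 0) % N) = 0 := by
        intro i hi
        have hi' := Finset.mem_range.1 hi
        obtain ⟨w, hw, hw1, hw2⟩ := horb i hi' n
        rw [hmodn i hi'] at hw1
        rw [← hw2, deriv_one M P hP heq hmul hd hw (hyA i) (hy0 i) (hy1 i hi')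
          (hnogap _ (hyA i) (hy0 i) (hy1 i hi')) hw1, Real.log_one]
      have hsum := Finset.sum_eq_zero hzero
      rw [Finset.sum_comm] at hsum
      have h4 : ∀ j ∈ Finset.range n, ∑ i ∈ Finset.range N, ψ ((2 ^ j * i + 0) % N) =
          ∑ i ∈ Finset.range N, ψ i := by
        intro j _
        exact sum_perm (Nat.Coprime.pow_right j hcop) ψ
      rw [Finset.sum_congr rfl h4, Finset.sum_const, Finset.card_range, nsmul_eq_mul] at hsum
      rcases mul_eq_zero.1 hsum with h5 | h5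
      · exact absurd h5 (by exact_mod_cast hnpos.ne')
      · exact h5
    · -- gaps
      push Not at hcase
      have hgap : ∀ i, i < N → Pm P (y i) < Qp P (y i) := fun i hi =>
        lt_of_le_of_ne ((Pm_le P hP (hyA i) (hy0 i) (hy1 i hi)).trans
          (le_Qp P hP (hyA i) (hy0 i) (hy1 i hi))) (hcase _ (hyA i) (hy0 i) (hy1 i hi))
      have hex : ∀ i, ∃ c, i < N → Pm P (y i) < c ∧ c < Qp P (y i) ∧
          Qp P (y ((2 * i + 0) % N)) - Pm P (y ((2 * i + 0) % N)) =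
            deriv (M (G (decide (N < 2 * i)))) c * (Qp P (y i) - Pm P (y i)) := by
        intro i
        by_cases hi : i < N
        · obtain ⟨c, h1, h2, h3⟩ := mvt (hd (G (decide (N < 2 * i)))) (hgap i hi)
          refine ⟨c, fun _ => ⟨h1, h2, ?_⟩⟩
          rw [← h3, M_Pm M P hP heq (hGH _) (hyA i) (hy0 i) (hy1 i hi),
            M_Qp M P hP heq (hGH _) (hyA i) (hy0 i) (hy1 i hi), hGy i hi]
        · exact ⟨0, fun h => absurd h hi⟩
      choose ξ hξ using hex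
      refine ⟨ξ, fun i hi => ⟨(hξ i hi).1.le, (hξ i hi).2.1.le⟩, ?_⟩
      set ℓ : ℕ → ℝ := fun i => Qp P (y i) - Pm P (y i) with hℓ
      have hℓpos : ∀ i, i < N → 0 < ℓ i := fun i hi => sub_pos.2 (hgap i hi)
      have hlog : ∀ i ∈ Finset.range N,
          Real.log (deriv (M (G (decide (N < 2 * i)))) (ξ i)) =
            Real.log (ℓ ((2 * i + 0) % N)) - Real.log (ℓ i) := by
        intro i hi
        have hi' := Finset.mem_range.1 hi
        have h1 := (hξ i hi').2.2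
        change ℓ ((2 * i + 0) % N) = _ * ℓ i at h1
        rw [h1, Real.log_mul (hpos _ _).ne' (hℓpos i hi').ne']; ring
      change ∑ i ∈ Finset.range N, Real.log (deriv (M (G (decide (N < 2 * i)))) (ξ i)) = 0
      rw [Finset.sum_congr rfl hlog, Finset.sum_sub_distrib,
        sum_perm hcop (fun i => Real.log (ℓ i)), sub_self]

end core

end Pool.Agent.V8H70.TS
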