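import Mathlib

/-!
# The Thompson-Stein group `T(2,3)` and `C^1` diffeomorphisms of the circle: definitions

The circle is `AddCircle (1:ℝ) = ℝ/ℤ`.
-/

set_option autoImplicit false

open Set

namespace Pool.Agent.V8H70.TS

/-- the slopes `2^a 3^b` with `a, b` integers -/
def Lam : Set ℝ := {l | ∃ a b : ℤ, l = (2:ℝ) ^ a * (3:ℝ) ^ b}

/-- The ring `ℤ[1/6]`, as a subring of the real numbers. -/
def AA : Subring ℝ where
  carrier := {x | ∃ (m : ℤ) (k : ℕ), x * 6 ^ k = m}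
  zero_mem' := ⟨0, 0, by simp⟩
  one_mem' := ⟨1, 0, by simp⟩
  add_mem' := by
    rintro x y ⟨m, k, h⟩ ⟨n, l, h'⟩
    refine ⟨m * 6 ^ l + n * 6 ^ k, k + l, ?_⟩
    push_cast
    rw [← h, ← h', pow_add]; ring
  mul_mem' := by
    rintro x y ⟨m, k, h⟩ ⟨n, l, h'⟩
    refine ⟨m * n, k + l, ?_⟩
    push_cast
    rw [← h, ← h', pow_add]; ring
  neg_mem' := by
    rintro x ⟨m, k, h⟩
    refine ⟨-m, k, ?_⟩
    push_cast
    rw [← h]; ring

/-- `F : ℝ → ℝ` is a lift of the homeomorphism `σ` of the circle -/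
def IsLift (F : ℝ → ℝ) (σ : AddCircle (1:ℝ) ≃ₜ AddCircle (1:ℝ)) : Prop :=
  ∀ x : ℝ, ((F x : ℝ) : AddCircle (1:ℝ)) = σ (x : AddCircle (1:ℝ))

/-- The image of `ℤ[1/6]` in the circle. -/
def AZ : Set (AddCircle (1:ℝ)) := (fun a : ℝ => (a : AddCircle (1:ℝ))) '' (AA : Set ℝ)

/-- `F` is piecewise linear: there is a finite set `B` of points of the circle, all in the image
of `ℤ[1/6]`, such that on every interval `[u,v]` of the line whose interior has no point over `B`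
the map `F` is affine with slope of the form `2^a 3^b`. -/
def IsPL (F : ℝ → ℝ) : Prop :=
  ∃ B : Finset (AddCircle (1:ℝ)), (B : Set (AddCircle (1:ℝ))) ⊆ AZ ∧
    ∀ u v : ℝ, u < v → (∀ x ∈ Ioo u v, (x : AddCircle (1:ℝ)) ∉ B) →
      ∃ l ∈ Lam, ∀ x ∈ Icc u v, F x = F u + l * (x - u)

/-- `σ` belongs to the Thompson-Stein group `T(2,3)`: it has a lift to the line which is an
increasing bijection commuting with the translation by one and which is piecewise linear with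
finitely many break points (modulo one), all in `ℤ[1/6]`, and slopes `2^a 3^b`; moreover `σ` maps
the image of `ℤ[1/6]` in the circle onto itself. -/
def IsT23 (σ : AddCircle (1:ℝ) ≃ₜ AddCircle (1:ℝ)) : Prop :=
  (∃ F : ℝ ≃o ℝ, (∀ x, F (x + 1) = F x + 1) ∧ IsLift F σ ∧ IsPL F) ∧ σ '' AZ = AZ

/-- The homeomorphism `σ` of the circle has a lift of class `C^1`. -/
def IsC1 (σ : AddCircle (1:ℝ) ≃ₜ AddCircle (1:ℝ)) : Prop :=
  ∃ F : ℝ → ℝ, ContDiff ℝ 1 F ∧ IsLift F σ

end Pool.Agent.V8H70.TS
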