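import Mathlib

/-!
# Order automorphisms of discrete subsets of the line, and two disjoint invariant sets
-/

set_option autoImplicit false

open Set Filter Topology

namespace Pool.Agent.V8H70.TS

lemma int_aut (f : ℤ ≃o ℤ) (n : ℤ) : f n = n + f 0 := by
  have h : ∀ m : ℤ, f (m + 1) = f m + 1 := by
    intro m
    have := f.map_succ m
    rwa [Order.succ_eq_add_one, Order.succ_eq_add_one] at this
  induction n using Int.induction_on with
  | zero => simp
  | succ n ih => rw [h, ih]; ring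
  | pred n ih =>
    have := h (-(n:ℤ) - 1)
    rw [sub_add_cancel, ih] at this
    linarith

lemma exists_iso_int {D : Set ℝ} (hfin : ∀ a b : ℝ, (D ∩ Icc a b).Finite) (hne : D.Nonempty)
    (hper : ∀ x ∈ D, ∀ n : ℤ, x + n ∈ D) : Nonempty (D ≃o ℤ) := by
  let _ : LocallyFiniteOrder D := LocallyFiniteOrder.ofFiniteIcc (by
    intro a b
    have h1 : (Icc a b : Set D) = Subtype.val ⁻¹' (D ∩ Icc (a:ℝ) b) := by
      ext x
      simp only [mem_Icc, mem_preimage, mem_inter_iff, Subtype.coe_prop, true_and,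
        Subtype.coe_le_coe]
    rw [h1]
    exact (hfin a b).preimage Subtype.val_injective.injOn)
  let _ : SuccOrder D := LinearLocallyFiniteOrder.succOrder D
  let _ : PredOrder D := LinearLocallyFiniteOrder.predOrder D
  have _ : NoMaxOrder D := ⟨fun a => ⟨⟨a + 1, by simpa using hper a a.2 1⟩, by
    rw [← Subtype.coe_lt_coe]; simp⟩⟩
  have _ : NoMinOrder D := ⟨fun a => ⟨⟨a - 1, by
    have := hper a a.2 (-1)
    push_cast at this
    rwa [← sub_eq_add_neg] at this⟩, by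
    rw [← Subtype.coe_lt_coe]; simp⟩⟩
  have _ : Nonempty D := hne.to_subtype
  exact ⟨orderIsoIntOfLinearSuccPredArch⟩

lemma discrete_commute {D : Set ℝ} (hfin : ∀ a b : ℝ, (D ∩ Icc a b).Finite) (hne : D.Nonempty)
    (hper : ∀ x ∈ D, ∀ n : ℤ, x + n ∈ D) (f g : ℝ ≃o ℝ) (hf : ∀ x, f x ∈ D ↔ x ∈ D)
    (hg : ∀ x, g x ∈ D ↔ x ∈ D) : ∀ p ∈ D, f (g p) = g (f p) := by
  obtain ⟨φ⟩ := exists_iso_int hfin hne hper
  have key : ∀ h : ℝ ≃o ℝ, (∀ x, h x ∈ D ↔ x ∈ D) → ∃ c : ℤ, ∀ (x : ℝ) (hx : x ∈ D) (hx' : h x ∈ D),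
      φ ⟨h x, hx'⟩ = φ ⟨x, hx⟩ + c := by
    intro h hh
    let hD : D ≃o D :=
      { toFun := fun x => ⟨h x, (hh x).2 x.2⟩
        invFun := fun x => ⟨h.symm x, (hh _).1 (by rw [h.apply_symm_apply]; exact x.2)⟩
        left_inv := fun x => Subtype.ext (h.symm_apply_apply x)
        right_inv := fun x => Subtype.ext (h.apply_symm_apply x)
        map_rel_iff' := by
          intro a b
          exact h.le_iff_le }
    let F : ℤ ≃o ℤ := φ.symm.trans (hD.trans φ)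
    refine ⟨F 0, fun x hx hx' => ?_⟩
    have h1 := int_aut F (φ ⟨x, hx⟩)
    have h2 : F (φ ⟨x, hx⟩) = φ ⟨h x, hx'⟩ := by
      change φ (hD (φ.symm (φ ⟨x, hx⟩))) = _
      rw [φ.symm_apply_apply]
      rfl
    rw [← h2, h1]
  obtain ⟨c, hc⟩ := key f hf
  obtain ⟨d, hd⟩ := key g hg
  intro p hp
  have hgp := (hg p).2 hp
  have hfp := (hf p).2 hp
  have hfgp := (hf (g p)).2 hgp
  have hgfp := (hg (f p)).2 hfp
  have h1 : φ ⟨f (g p), hfgp⟩ = φ ⟨g (f p), hgfp⟩ := by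
    rw [hc _ hgp hfgp, hd _ hp hgp, hd _ hfp hgfp, hc _ hp hfp]; ring
  exact congrArg Subtype.val (φ.injective h1)

/-- periodic sets meet every interval of length one -/
lemma per_meets {A : Set ℝ} (hne : A.Nonempty) (hper : ∀ x ∈ A, ∀ n : ℤ, x + n ∈ A) (a : ℝ) :
    ∃ x ∈ A, a ≤ x ∧ x < a + 1 := by
  obtain ⟨y, hy⟩ := hne
  refine ⟨y + (-⌊y - a⌋ : ℤ), hper y hy _, ?_, ?_⟩
  · push_cast; linarith [Int.floor_le (y - a)]
  · push_cast; linarith [Int.lt_floor_add_one (y - a)]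

theorem lemmaD {A1 A2 : Set ℝ} (c1 : IsClosed A1) (c2 : IsClosed A2) (n1 : A1.Nonempty)
    (n2 : A2.Nonempty) (p1 : ∀ x ∈ A1, ∀ n : ℤ, x + n ∈ A1) (p2 : ∀ x ∈ A2, ∀ n : ℤ, x + n ∈ A2)
    (hdisj : ∀ x ∈ A1, x ∉ A2) :
    ∃ p, ∀ f g : ℝ ≃o ℝ, (∀ x, f x ∈ A1 ↔ x ∈ A1) → (∀ x, f x ∈ A2 ↔ x ∈ A2) →
      (∀ x, g x ∈ A1 ↔ x ∈ A1) → (∀ x, g x ∈ A2 ↔ x ∈ A2) → f (g p) = g (f p) := by
  set D : Set ℝ := {b | b ∈ A2 ∧ ∃ a ∈ A1, a < b ∧ ∀ x, a < x → x < b → x ∉ A1 ∧ x ∉ A2} with hD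
  have hne : D.Nonempty := by
    obtain ⟨a0, ha0⟩ := n1
    have h1 : (A2 ∩ Ici a0).Nonempty := by
      obtain ⟨x, hx, h1, -⟩ := per_meets n2 p2 a0
      exact ⟨x, hx, h1⟩
    have h2 : BddBelow (A2 ∩ Ici a0) := ⟨a0, fun x hx => hx.2⟩
    have h3 := (c2.inter isClosed_Ici).csInf_mem h1 h2
    set b := sInf (A2 ∩ Ici a0) with hb
    have h4 : ∀ x ∈ A2, a0 ≤ x → b ≤ x := fun x hx hx' => csInf_le h2 ⟨hx, hx'⟩
    have h5 : (A1 ∩ Iic b).Nonempty := ⟨a0, ha0, h3.2⟩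
    have h6 : BddAbove (A1 ∩ Iic b) := ⟨b, fun x hx => hx.2⟩
    have h7 := (c1.inter isClosed_Iic).csSup_mem h5 h6
    set a := sSup (A1 ∩ Iic b) with ha
    have h8 : ∀ x ∈ A1, x ≤ b → x ≤ a := fun x hx hx' => le_csSup h6 ⟨hx, hx'⟩
    have h9 : a0 ≤ a := h8 a0 ha0 h3.2
    have hab : a < b := by
      refine lt_of_le_of_ne h7.2 fun h => hdisj a h7.1 ?_
      rw [h]; exact h3.1
    refine ⟨b, h3.1, a, h7.1, hab, fun x hx hx' => ⟨fun h => ?_, fun h => ?_⟩⟩
    · exact absurd (h8 x h hx'.le) (not_le.2 hx)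
    · exact absurd (h4 x h (h9.trans hx.le)) (not_le.2 hx')
  have hper : ∀ x ∈ D, ∀ n : ℤ, x + n ∈ D := by
    rintro b ⟨hb, a, ha, hab, h⟩ n
    refine ⟨p2 b hb n, a + n, p1 a ha n, by linarith, fun x hx hx' => ?_⟩
    have h1 := h (x - n) (by linarith) (by linarith)
    refine ⟨fun h2 => h1.1 ?_, fun h2 => h1.2 ?_⟩
    · have := p1 x h2 (-n)
      push_cast at this
      rwa [← sub_eq_add_neg] at this
    · have := p2 x h2 (-n)
      push_cast at this
      rwa [← sub_eq_add_neg] at this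
  have hinv : ∀ f : ℝ ≃o ℝ, (∀ x, f x ∈ A1 ↔ x ∈ A1) → (∀ x, f x ∈ A2 ↔ x ∈ A2) →
      ∀ x, x ∈ D → f x ∈ D := by
    rintro f h1 h2 b ⟨hb, a, ha, hab, h⟩
    refine ⟨(h2 b).2 hb, f a, (h1 a).2 ha, f.strictMono hab, fun x hx hx' => ?_⟩
    obtain ⟨y, rfl⟩ := f.surjective x
    rw [h1, h2]
    exact h y (f.lt_iff_lt.1 hx) (f.lt_iff_lt.1 hx')
  have hinv' : ∀ f : ℝ ≃o ℝ, (∀ x, f x ∈ A1 ↔ x ∈ A1) → (∀ x, f x ∈ A2 ↔ x ∈ A2) →
      ∀ x, f x ∈ D ↔ x ∈ D := by
    intro f h1 h2 x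
    refine ⟨fun h => ?_, hinv f h1 h2 x⟩
    have := hinv f.symm (fun x => by rw [← h1, f.apply_symm_apply])
      (fun x => by rw [← h2, f.apply_symm_apply]) (f x) h
    rwa [f.symm_apply_apply] at this
  have hfin : ∀ a b : ℝ, (D ∩ Icc a b).Finite := by
    intro a b
    rw [inter_comm]
    refine IsCompact.induction_on (p := fun S => (S ∩ D).Finite) (isCompact_Icc (a := a) (b := b))
      ?_ ?_ ?_ ?_
    · simp
    · intro s t hst ht
      exact ht.subset (inter_subset_inter_left _ hst)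
    · intro s t hs ht
      rw [union_inter_distrib_right]
      exact hs.union ht
    · intro x _
      by_cases hx : x ∈ A2
      · have hx1 : x ∉ A1 := fun h => hdisj x h hx
        obtain ⟨e, he, h⟩ := Metric.isOpen_iff.1 c1.isOpen_compl x hx1
        refine ⟨Metric.ball x e, mem_nhdsWithin_of_mem_nhds (Metric.ball_mem_nhds x he), ?_⟩
        apply Set.Subsingleton.finite
        -- at most one point
        have key : ∀ b ∈ Metric.ball x e ∩ D, ∀ b' ∈ Metric.ball x e ∩ D, ¬ b < b' := by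
          rintro b ⟨hb, hbD⟩ b' ⟨hb', hb'D⟩ hlt
          obtain ⟨-, a', ha', hab', hfree⟩ := hb'D
          have h1 : b ≤ a' := by
            by_contra hcon
            push Not at hcon
            exact (hfree b hcon hlt).2 hbD.1
          have h2 : a' ∈ Metric.ball x e := by
            rw [Metric.mem_ball, Real.dist_eq, abs_lt] at hb hb' ⊢
            constructor <;> linarith
          exact h h2 ha'
        intro b hb b' hb'
        rcases lt_trichotomy b b' with h1 | h1 | h1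
        · exact absurd h1 (key b hb b' hb')
        · exact h1
        · exact absurd h1 (key b' hb' b hb)
      · obtain ⟨e, he, h⟩ := Metric.isOpen_iff.1 c2.isOpen_compl x hx
        refine ⟨Metric.ball x e, mem_nhdsWithin_of_mem_nhds (Metric.ball_mem_nhds x he), ?_⟩
        have : Metric.ball x e ∩ D = ∅ := by
          ext y
          simp only [mem_inter_iff, mem_empty_iff_false, iff_false, not_and]
          intro hy hyD
          exact h hy hyD.1
        rw [this]; exact finite_empty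
  obtain ⟨p, hp⟩ := hne
  refine ⟨p, fun f g h1 h2 h3 h4 => ?_⟩
  exact discrete_commute hfin ⟨p, hp⟩ hper f g (hinv' f h1 h2) (hinv' g h3 h4) p hp

end Pool.Agent.V8H70.TS
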