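import Pool.Agent.V8H70.TS.Per2
import Pool.Agent.V8H70.TS.LemD

/-!
# Dynamics of actions on the circle, lifted to the line
-/

set_option autoImplicit false

open Set Filter Topology

namespace Pool.Agent.V8H70.TS

/-- lifts to the line of an action on the circle (homomorphism up to integer translations) -/
structure PRep (L : ↥GG → (ℝ ≃o ℝ)) : Prop where
  per : ∀ g x, L g (x + 1) = L g x + 1
  mul : ∀ g h, ∃ k : ℤ, ∀ x, L (g * h) x = L g (L h x) + k
  tau : ∃ k : ℤ, ∀ x, L tau x = x + k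

/-- preimage of the fixed point set on the circle -/
def ZZ (L : ↥GG → (ℝ ≃o ℝ)) (g : ↥GG) : Set ℝ := {x | ∃ k : ℤ, L g x = x + k}

variable {L : ↥GG → (ℝ ≃o ℝ)}

lemma PRep.per_int (hL : PRep L) (g : ↥GG) (x : ℝ) (n : ℤ) : L g (x + n) = L g x + n :=
  TS.per_int (hL.per g) x n

lemma PRep.one (hL : PRep L) : ∃ k : ℤ, ∀ x, L 1 x = x + k := by
  obtain ⟨k, hk⟩ := hL.mul 1 1
  refine ⟨-k, fun x => ?_⟩
  obtain ⟨y, rfl⟩ := (L 1).surjective x
  have := hk y
  rw [mul_one] at this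
  push_cast; linarith

lemma PRep.inv (hL : PRep L) (g : ↥GG) : ∃ k : ℤ, ∀ x, L g⁻¹ (L g x) = x + k := by
  obtain ⟨k, hk⟩ := hL.mul g⁻¹ g
  obtain ⟨m, hm⟩ := hL.one
  refine ⟨m - k, fun x => ?_⟩
  have := hk x
  rw [inv_mul_cancel, hm] at this
  push_cast; linarith

/-- the stabilizer of the image of `p` on the circle -/
def stab (hL : PRep L) (p : ℝ) : Subgroup ↥GG where
  carrier := {g | p ∈ ZZ L g}
  one_mem' := by
    obtain ⟨k, hk⟩ := hL.one
    exact ⟨k, hk p⟩
  mul_mem' := by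
    rintro g h ⟨m, hm⟩ ⟨n, hn⟩
    obtain ⟨k, hk⟩ := hL.mul g h
    refine ⟨m + n + k, ?_⟩
    rw [hk, hn, hL.per_int, hm]; push_cast; ring
  inv_mem' := by
    rintro g ⟨m, hm⟩
    obtain ⟨k, hk⟩ := hL.inv g
    refine ⟨k - m, ?_⟩
    have := hk p
    rw [hm, hL.per_int] at this
    push_cast; linarith

lemma mem_stab (hL : PRep L) {p : ℝ} {g : ↥GG} : g ∈ stab hL p ↔ p ∈ ZZ L g := Iff.rfl

lemma ZZ_closed (L : ↥GG → (ℝ ≃o ℝ)) (g : ↥GG) : IsClosed (ZZ L g) := by
  have h1 : ZZ L g = (fun x => L g x - x) ⁻¹' (range ((↑) : ℤ → ℝ)) := by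
    ext x
    simp only [ZZ, mem_ofPred_eq, mem_preimage, mem_range]
    constructor
    · rintro ⟨k, hk⟩; exact ⟨k, by rw [hk]; ring⟩
    · rintro ⟨k, hk⟩; exact ⟨k, by rw [hk]; ring⟩
  rw [h1]
  exact Int.isClosedEmbedding_coe_real.isClosed_range.preimage
    ((L g).continuous.sub continuous_id)

lemma ZZ_per (hL : PRep L) (g : ↥GG) {x : ℝ} (hx : x ∈ ZZ L g) (n : ℤ) : x + n ∈ ZZ L g := by
  obtain ⟨k, hk⟩ := hx
  exact ⟨k, by rw [hL.per_int, hk]; ring⟩

lemma ZZ_per_iff (hL : PRep L) (g : ↥GG) {x : ℝ} (n : ℤ) : x + n ∈ ZZ L g ↔ x ∈ ZZ L g := by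
  refine ⟨fun h => ?_, fun h => ZZ_per hL g h n⟩
  have := ZZ_per hL g h (-n)
  push_cast at this
  rwa [add_neg_cancel_right] at this

lemma ZZ_conj (hL : PRep L) (g h : ↥GG) (x : ℝ) : L g x ∈ ZZ L (g * h * g⁻¹) ↔ x ∈ ZZ L h := by
  obtain ⟨k, hk⟩ := hL.mul (g * h * g⁻¹) g
  obtain ⟨m, hm⟩ := hL.mul g h
  have h1 : L (g * h * g⁻¹) (L g x) = L g (L h x) + (m - k) := by
    have h2 := hk x
    rw [inv_mul_cancel_right, hm] at h2
    linarith
  constructor
  · rintro ⟨n, hn⟩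
    refine ⟨n - m + k, (L g).injective ?_⟩
    rw [hL.per_int]
    push_cast; linarith
  · rintro ⟨n, hn⟩
    refine ⟨n + m - k, ?_⟩
    rw [h1, hn, hL.per_int]; push_cast; ring

/-- common fixed points -/
def FF (L : ↥GG → (ℝ ≃o ℝ)) (S : Subgroup ↥GG) : Set ℝ := {p | ∀ g ∈ S, p ∈ ZZ L g}

lemma FF_closed (S : Subgroup ↥GG) : IsClosed (FF L S) := by
  have : FF L S = ⋂ g ∈ S, ZZ L g := by
    ext x; simp [FF]
  rw [this]
  exact isClosed_biInter fun g _ => ZZ_closed L g

lemma FF_per (hL : PRep L) {S : Subgroup ↥GG} {x : ℝ} (hx : x ∈ FF L S) (n : ℤ) :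
    x + n ∈ FF L S := fun g hg => ZZ_per hL g (hx g hg) n

lemma FF_per_iff (hL : PRep L) {S : Subgroup ↥GG} {x : ℝ} (n : ℤ) :
    x + n ∈ FF L S ↔ x ∈ FF L S := by
  refine ⟨fun h => ?_, fun h => FF_per hL h n⟩
  have := FF_per hL h (-n)
  push_cast at this
  rwa [add_neg_cancel_right] at this

lemma FF_anti {S T : Subgroup ↥GG} (h : S ≤ T) : FF L T ⊆ FF L S := fun _ hx g hg => hx g (h hg)

lemma FF_le_stab (hL : PRep L) {S : Subgroup ↥GG} {p : ℝ} : p ∈ FF L S ↔ S ≤ stab hL p :=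
  Iff.rfl

lemma FF_conj (hL : PRep L) {S T : Subgroup ↥GG} {g : ↥GG} (h : ∀ t ∈ T, g⁻¹ * t * g ∈ S) {p : ℝ}
    (hp : p ∈ FF L S) : L g p ∈ FF L T := by
  intro t ht
  have h1 := (ZZ_conj hL g (g⁻¹ * t * g) p).2 (hp _ (h t ht))
  rwa [show g * (g⁻¹ * t * g) * g⁻¹ = t by group] at h1

/-! ### Fixed points of quotients of commuting conjugate elements -/

/-- an order isomorphism commuting with the translation by one as a unit of degree one lifts -/
noncomputable def toU (f : ℝ ≃o ℝ) (hf : ∀ x, f (x + 1) = f x + 1) : CircleDeg1Liftˣ where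
  val := ⟨⟨f, f.monotone⟩, hf⟩
  inv := ⟨⟨f.symm, f.symm.monotone⟩, fun x => by
    change f.symm (x + 1) = f.symm x + 1
    apply f.injective
    rw [hf, f.apply_symm_apply, f.apply_symm_apply]⟩
  val_inv := by
    apply CircleDeg1Lift.ext
    intro x
    exact f.apply_symm_apply x
  inv_val := by
    apply CircleDeg1Lift.ext
    intro x
    exact f.symm_apply_apply x

lemma toU_apply (f : ℝ ≃o ℝ) (hf : ∀ x, f (x + 1) = f x + 1) (x : ℝ) :
    (toU f hf : CircleDeg1Lift) x = f x := rfl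

open CircleDeg1Lift in
lemma tn_add (H : CircleDeg1Lift) (m : ℤ) :
    translationNumber ((translate (Multiplicative.ofAdd (m:ℝ)) : CircleDeg1Lift) * H) =
      m + translationNumber H := by
  rw [translationNumber_mul_of_commute, translationNumber_translate]
  rw [Commute, SemiconjBy]
  apply CircleDeg1Lift.ext
  intro x
  rw [CircleDeg1Lift.mul_apply, CircleDeg1Lift.mul_apply, translate_apply, translate_apply,
    map_int_add]

open CircleDeg1Lift in
/-- If `u` commutes with a conjugate `v` then `u v⁻¹` acts with fixed points. -/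
lemma RN (hL : PRep L) {u v b : ↥GG} (hv : v = b * u * b⁻¹) (huv : u * v = v * u) :
    (ZZ L (u * v⁻¹)).Nonempty := by
  set F := toU (L u) (hL.per u) with hF
  set G := toU (L v) (hL.per v) with hG
  set B := toU (L b) (hL.per b) with hB
  have hFx : ∀ x, (F : CircleDeg1Lift) x = L u x := fun _ => rfl
  have hGx : ∀ x, (G : CircleDeg1Lift) x = L v x := fun _ => rfl
  have hBx : ∀ x, (B : CircleDeg1Lift) x = L b x := fun _ => rfl
  -- conjugation
  have h1 : v * b = b * u := by rw [hv]; group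
  obtain ⟨k1, hk1⟩ := hL.mul v b
  obtain ⟨k2, hk2⟩ := hL.mul b u
  have h2 : (G : CircleDeg1Lift) = (translate (Multiplicative.ofAdd ((k2 - k1 : ℤ):ℝ)) :
      CircleDeg1Lift) * ((B : CircleDeg1Lift) * F * (B⁻¹ : CircleDeg1Liftˣ)) := by
    have h3 : (G : CircleDeg1Lift) * B = (translate (Multiplicative.ofAdd ((k2 - k1 : ℤ):ℝ)) :
      CircleDeg1Lift) * ((B : CircleDeg1Lift) * F) := by
      apply CircleDeg1Lift.ext
      intro x
      rw [CircleDeg1Lift.mul_apply, CircleDeg1Lift.mul_apply, CircleDeg1Lift.mul_apply,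
        translate_apply, hGx, hBx, hBx, hFx]
      have h4 := hk1 x
      have h5 := hk2 x
      rw [h1] at h4
      push_cast; linarith
    rw [← mul_assoc, ← h3, mul_assoc, Units.mul_inv, mul_one]
  have hτ1 : translationNumber (G : CircleDeg1Lift) =
      (k2 - k1 : ℤ) + translationNumber (F : CircleDeg1Lift) := by
    rw [h2, tn_add, translationNumber_conj_eq]
  -- commutation up to an integer
  obtain ⟨k3, hk3⟩ := hL.mul u v
  obtain ⟨k4, hk4⟩ := hL.mul v u
  have h6 : (F : CircleDeg1Lift) = (translate (Multiplicative.ofAdd ((k4 - k3 : ℤ):ℝ)) :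
      CircleDeg1Lift) * ((G : CircleDeg1Lift) * F * (G⁻¹ : CircleDeg1Liftˣ)) := by
    have h3 : (F : CircleDeg1Lift) * G = (translate (Multiplicative.ofAdd ((k4 - k3 : ℤ):ℝ)) :
      CircleDeg1Lift) * ((G : CircleDeg1Lift) * F) := by
      apply CircleDeg1Lift.ext
      intro x
      rw [CircleDeg1Lift.mul_apply, CircleDeg1Lift.mul_apply, CircleDeg1Lift.mul_apply,
        translate_apply, hGx, hFx, hFx, hGx]
      have h4 := hk3 x
      have h5 := hk4 x
      rw [huv] at h4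
      push_cast; linarith
    rw [← mul_assoc, ← h3, mul_assoc, Units.mul_inv, mul_one]
  have hm : (k4 - k3 : ℤ) = 0 := by
    have h7 : translationNumber (F : CircleDeg1Lift) =
        (k4 - k3 : ℤ) + translationNumber (F : CircleDeg1Lift) := by
      conv_lhs => rw [h6, tn_add, translationNumber_conj_eq]
    have h8 : ((k4 - k3 : ℤ) : ℝ) = 0 := by linarith
    exact_mod_cast h8
  have hcomm : Commute F G := by
    have h9 : (F : CircleDeg1Lift) * G = (G : CircleDeg1Lift) * F := by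
      apply CircleDeg1Lift.ext
      intro x
      rw [CircleDeg1Lift.mul_apply, CircleDeg1Lift.mul_apply, hGx, hFx, hFx, hGx]
      have h4 := hk3 x
      have h5 := hk4 x
      rw [huv] at h4
      have h10 : (k4:ℝ) = k3 := by
        have : k4 = k3 := by linarith
        exact_mod_cast this
      linarith
    exact Units.ext h9
  have hτ2 : translationNumber ((F : CircleDeg1Lift) * (G⁻¹ : CircleDeg1Liftˣ)) =
      ((k1 - k2 : ℤ) : ℝ) := by
    have h11 : Commute (F : CircleDeg1Lift) ((G⁻¹ : CircleDeg1Liftˣ) : CircleDeg1Lift) := by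
      have := hcomm.inv_right
      have h12 := congrArg Units.val this.eq
      exact h12
    rw [translationNumber_mul_of_commute h11, translationNumber_units_inv, hτ1]
    push_cast; ring
  have hcont : Continuous ((F : CircleDeg1Lift) * (G⁻¹ : CircleDeg1Liftˣ) : CircleDeg1Lift) := by
    have : (((F : CircleDeg1Lift) * (G⁻¹ : CircleDeg1Liftˣ) : CircleDeg1Lift) : ℝ → ℝ) =
        fun x => L u ((L v).symm x) := rfl
    rw [this]
    exact (L u).continuous.comp (L v).symm.continuous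
  obtain ⟨x, hx⟩ := (translationNumber_eq_int_iff _ hcont).1 hτ2
  have hx' : L u ((L v).symm x) = x + ((k1 - k2 : ℤ) : ℝ) := hx
  obtain ⟨y, rfl⟩ := (L v).surjective x
  rw [(L v).symm_apply_apply] at hx'
  -- `L u y = L v y + k`
  refine ⟨L v y, ?_⟩
  obtain ⟨k5, hk5⟩ := hL.mul u v⁻¹
  obtain ⟨k6, hk6⟩ := hL.inv v
  refine ⟨k1 - k2 + k6 + k5, ?_⟩
  rw [hk5, hk6, hL.per_int, hx']
  push_cast; ring

end Pool.Agent.V8H70.TS
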