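import Pool.Agent.V8H70.TS.Dyn

/-!
# Fixed points of the small subgroups
-/

set_option autoImplicit false

open Set Filter Topology

namespace Pool.Agent.V8H70.TS

variable {L : ↥GG → (ℝ ≃o ℝ)}

lemma quarter_AA : (1/4:ℝ) ∈ AA := ⟨9, 2, by norm_num⟩
lemma eighth_AA : (1/8:ℝ) ∈ AA := ⟨27, 3, by norm_num⟩
lemma threeeighth_AA : (3/8:ℝ) ∈ AA := ⟨81, 3, by norm_num⟩
lemma fiveeighth_AA : (5/8:ℝ) ∈ AA := ⟨135, 3, by norm_num⟩
lemma threequarter_AA : (3/4:ℝ) ∈ AA := ⟨27, 2, by norm_num⟩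

/-- A closed nonempty periodic set invariant under the lifts of the elements of `S`. -/
structure Inv (L : ↥GG → (ℝ ≃o ℝ)) (S : Subgroup ↥GG) (A : Set ℝ) : Prop where
  cl : IsClosed A
  ne : A.Nonempty
  per : ∀ x ∈ A, ∀ n : ℤ, x + n ∈ A
  inv : ∀ s ∈ S, ∀ x, L s x ∈ A ↔ x ∈ A

lemma Inv_ZZ (hL : PRep L) {S : Subgroup ↥GG} {g : ↥GG} (hne : (ZZ L g).Nonempty)
    (hcomm : ∀ s ∈ S, s * g = g * s) : Inv L S (ZZ L g) where
  cl := ZZ_closed L g
  ne := hne
  per := fun _ hx n => ZZ_per hL g hx n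
  inv := by
    intro s hs x
    have h1 := ZZ_conj hL s g x
    rwa [hcomm s hs, mul_inv_cancel_right] at h1

/-- a common fixed point of commutators from a pointwise commutation -/
lemma comm_le_stab (hL : PRep L) {S : Subgroup ↥GG} {p : ℝ}
    (h : ∀ s ∈ S, ∀ t ∈ S, s * t * s⁻¹ * t⁻¹ ∈ stab hL p) :
    (⁅S, S⁆ : Subgroup ↥GG) ≤ stab hL p := by
  rw [Subgroup.commutator_le]
  intro s hs t ht
  rw [commutatorElement_def]
  exact h s hs t ht

lemma stab_of_commute (hL : PRep L) {s t : ↥GG} {p : ℝ} (h : L s (L t p) = L t (L s p)) :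
    s * t * s⁻¹ * t⁻¹ ∈ stab hL (L t (L s p)) := by
  -- `[s,t]` maps `ts p` to `st p`
  obtain ⟨k1, hk1⟩ := hL.mul s t
  obtain ⟨k2, hk2⟩ := hL.mul t s
  obtain ⟨k3, hk3⟩ := hL.mul (s * t * s⁻¹ * t⁻¹) (t * s)
  have h1 := hk3 p
  rw [show s * t * s⁻¹ * t⁻¹ * (t * s) = s * t by group, hk1, hk2, hL.per_int] at h1
  refine ⟨k1 - k2 - k3, ?_⟩
  rw [h] at h1
  push_cast; linarith

theorem S1 (hL : PRep L) : ∃ u ∈ AA, ∃ v ∈ AA, u < v ∧ v ≤ u + 1 ∧ ∃ p,
    (⁅GI u v, GI u v⁆ : Subgroup ↥GG) ≤ stab hL p := by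
  obtain ⟨b, hb, hb1, hb2⟩ := trans2 (a := 0) (b := 1/2) (x := 1/8) (y := 1/4) (z := 1/4)
    (w := 3/8) AA.zero_mem half_AA eighth_AA quarter_AA quarter_AA threeeighth_AA
    (by norm_num) (by norm_num) (by norm_num) (by norm_num) (by norm_num) (by norm_num)
    (by norm_num)
  set U := GI (1/8) (1/4) with hU
  set V := GI (5/8) (3/4) with hV
  have hUle : U ≤ GI 0 (1/2) := GI_mono (by norm_num) (by norm_num)
  have hVcomm : ∀ s ∈ V, ∀ g ∈ GI 0 (1/2), s * g = g * s := fun s hs g hg =>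
    (GI_commute (by norm_num) (by norm_num) hg hs).symm
  set c : ↥GG → ↥GG := fun x => x * (b * x * b⁻¹)⁻¹ with hc
  have hv : ∀ x ∈ U, b * x * b⁻¹ ∈ GI (1/4) (3/8) := by
    intro x hx
    have := conj_GI hx b
    rwa [hb1, hb2] at this
  have hv' : ∀ x ∈ U, b * x * b⁻¹ ∈ GI 0 (1/2) := fun x hx =>
    GI_mono (by norm_num) (by norm_num) (hv x hx)
  have hcomm1 : ∀ x ∈ U, ∀ y ∈ U, y * (b * x * b⁻¹) = (b * x * b⁻¹) * y := fun x hx y hy =>
    GI_commute le_rfl (by norm_num) hy (hv x hx)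
  have hcne : ∀ x ∈ U, (ZZ L (c x)).Nonempty := fun x hx => RN hL rfl (hcomm1 x hx x hx)
  have hcI : ∀ x ∈ U, c x ∈ GI 0 (1/2) := fun x hx =>
    (GI 0 (1/2)).mul_mem (hUle hx) ((GI 0 (1/2)).inv_mem (hv' x hx))
  have hinv1 : ∀ x ∈ U, Inv L V (ZZ L (c x)) := fun x hx =>
    Inv_ZZ hL (hcne x hx) fun s hs => hVcomm s hs _ (hcI x hx)
  have hinv2 : ∀ x ∈ U, ∀ y ∈ U, Inv L V (ZZ L (y * (c x)⁻¹ * y⁻¹)) := by
    intro x hx y hy
    refine Inv_ZZ hL ?_ fun s hs => hVcomm s hs _ ?_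
    · obtain ⟨p, hp⟩ := hcne x hx
      refine ⟨L y p, (ZZ_conj hL y _ p).2 ?_⟩
      exact (stab hL p).inv_mem hp
    · exact (GI 0 (1/2)).mul_mem ((GI 0 (1/2)).mul_mem (hUle hy)
        ((GI 0 (1/2)).inv_mem (hcI x hx))) ((GI 0 (1/2)).inv_mem (hUle hy))
  have hprod : ∀ x ∈ U, ∀ y ∈ U, x * y * x⁻¹ * y⁻¹ = c x * (y * (c x)⁻¹ * y⁻¹) := by
    intro x hx y hy
    have h1 := hcomm1 x hx y hy
    simp only [hc]
    set v := b * x * b⁻¹
    have h2 : y * v = v * y := h1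
    calc x * y * x⁻¹ * y⁻¹ = x * v⁻¹ * (v * y) * x⁻¹ * y⁻¹ := by group
      _ = x * v⁻¹ * (y * v) * x⁻¹ * y⁻¹ := by rw [h2]
      _ = x * v⁻¹ * (y * (x * v⁻¹)⁻¹ * y⁻¹) := by group
  by_cases hcase : ∃ A1 A2 : Set ℝ, Inv L V A1 ∧ Inv L V A2 ∧ ∀ x ∈ A1, x ∉ A2
  · obtain ⟨A1, A2, h1, h2, h3⟩ := hcase
    obtain ⟨p, hp⟩ := lemmaD h1.cl h2.cl h1.ne h2.ne h1.per h2.per h3
    refine ⟨5/8, fiveeighth_AA, 3/4, threequarter_AA, by norm_num, by norm_num, p, ?_⟩
    have hpc : ∀ s ∈ V, ∀ t ∈ V, L s (L t p) = L t (L s p) := fun s hs t ht =>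
      hp (L s) (L t) (h1.inv s hs) (h2.inv s hs) (h1.inv t ht) (h2.inv t ht)
    apply comm_le_stab
    intro s hs t ht
    -- use the pair `s⁻¹`, `t⁻¹`
    have hs' := V.inv_mem hs
    have ht' := V.inv_mem ht
    have h4 := hpc s⁻¹ hs' t⁻¹ ht'
    obtain ⟨k1, hk1⟩ := hL.mul s⁻¹ t⁻¹
    obtain ⟨k2, hk2⟩ := hL.mul t⁻¹ s⁻¹
    have h5 : L (s⁻¹ * t⁻¹) p = L (t⁻¹ * s⁻¹) p + (k1 - k2) := by
      rw [hk1, hk2, h4]; ring
    obtain ⟨k3, hk3⟩ := hL.mul (s * t) (t⁻¹ * s⁻¹)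
    obtain ⟨k4, hk4⟩ := hL.mul (s * t) (s⁻¹ * t⁻¹)
    obtain ⟨k5, hk5⟩ := hL.one
    refine ⟨k5 - k3 + (k1 - k2) + k4, ?_⟩
    have h6 := hk3 p
    rw [show s * t * (t⁻¹ * s⁻¹) = 1 by group, hk5] at h6
    have h7 := hk4 p
    rw [← mul_assoc] at h7
    rw [h7, h5, show (k1:ℝ) - k2 = ((k1 - k2 : ℤ) : ℝ) by push_cast; ring, hL.per_int]
    push_cast; linarith
  · -- any two invariant sets meet
    push Not at hcase
    let ι := {A : Set ℝ // Inv L V A}
    have hne : Nonempty ι := ⟨⟨ZZ L (c 1), hinv1 1 U.one_mem⟩⟩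
    have hall : (⋂ A : ι, (A : Set ℝ) ∩ Icc 0 1).Nonempty := by
      apply IsCompact.nonempty_iInter_of_directed_nonempty_isCompact_isClosed
      · rintro ⟨A, hA⟩ ⟨B, hB⟩
        obtain ⟨x, hx, hx'⟩ := hcase A B hA hB
        refine ⟨⟨A ∩ B, ⟨hA.cl.inter hB.cl, ⟨x, hx, hx'⟩,
          fun y hy n => ⟨hA.per y hy.1 n, hB.per y hy.2 n⟩, fun s hs y => ?_⟩⟩, ?_, ?_⟩
        · rw [mem_inter_iff, mem_inter_iff, hA.inv s hs, hB.inv s hs]
        · rintro y ⟨hy, hy'⟩; exact ⟨hy.1, hy'⟩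
        · rintro y ⟨hy, hy'⟩; exact ⟨hy.2, hy'⟩
      · rintro ⟨A, hA⟩
        obtain ⟨x, hx, h0, h1⟩ := per_meets hA.ne hA.per 0
        exact ⟨x, hx, h0, by linarith⟩
      · rintro ⟨A, hA⟩
        exact isCompact_Icc.inter_left hA.cl
      · rintro ⟨A, hA⟩
        exact hA.cl.inter isClosed_Icc
    obtain ⟨p, hp⟩ := hall
    have hp' : ∀ A, Inv L V A → p ∈ A := fun A hA => (mem_iInter.1 hp ⟨A, hA⟩).1
    refine ⟨1/8, eighth_AA, 1/4, quarter_AA, by norm_num, by norm_num, p, ?_⟩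
    apply comm_le_stab
    intro x hx y hy
    rw [hprod x hx y hy]
    exact (stab hL p).mul_mem (hp' _ (hinv1 x hx)) (hp' _ (hinv2 x hx y hy))

/-- Any proper arc can be moved into any other arc; the small subgroups. -/
lemma exists_move {u v a b : ℝ} (hu : u ∈ AA) (hv : v ∈ AA) (huv : u < v) (huv' : v ≤ u + 1)
    (hab : a ≤ b) (hab' : b < a + 1) :
    ∃ F : ↥GG, ∀ g ∈ GI a b, F * g * F⁻¹ ∈ (⁅GI u v, GI u v⁆ : Subgroup ↥GG) := by
  obtain ⟨a', ha', h1, h2⟩ := exists_AA_between (show b - 1 < a by linarith)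
  obtain ⟨b', hb', h3, h4⟩ := exists_AA_between (show b < a' + 1 by linarith)
  obtain ⟨u', hu', h5, h6⟩ := exists_AA_between huv
  obtain ⟨v', hv', h7, h8⟩ := exists_AA_between h6
  obtain ⟨F, hF1, hF2⟩ := transG ha' hb' hu' hv' (by linarith) h4 h7 (by linarith)
  refine ⟨F, fun g hg => ?_⟩
  have h9 := conj_GI (GI_mono h2.le h3.le hg) F
  rw [hF1, hF2] at h9
  exact GI_le_comm hu' hv' hu hv h5 h7 h8 huv' h9

lemma S1' (hL : PRep L) {a b : ℝ} (hab : a ≤ b) (hab' : b < a + 1) : (FF L (GI a b)).Nonempty := by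
  obtain ⟨u, hu, v, hv, huv, huv', p, hp⟩ := S1 hL
  obtain ⟨F, hF⟩ := exists_move hu hv huv huv' hab hab'
  obtain ⟨q, rfl⟩ := (L F).surjective p
  exact ⟨q, fun g hg => (ZZ_conj hL F g q).1 (hp (hF g hg))⟩

theorem S2 (hL : PRep L) (x : ℝ) : (FF L (HX x)).Nonempty := by
  set e : ℕ → ℝ := fun n => 1 / ((n:ℝ) + 3) with he
  have hepos : ∀ n, 0 < e n := fun n => by simp only [he]; positivity
  have hele : ∀ n, e n ≤ 1/3 := fun n => by
    simp only [he]
    apply one_div_le_one_div_of_le (by norm_num)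
    have : (0:ℝ) ≤ n := n.cast_nonneg
    linarith
  have hanti : ∀ n m : ℕ, n ≤ m → e m ≤ e n := fun n m h => by
    simp only [he]
    apply one_div_le_one_div_of_le (by positivity)
    have : (n:ℝ) ≤ m := by exact_mod_cast h
    linarith
  have hall : (⋂ n : ℕ, FF L (GI (x + e n) (x + 1 - e n)) ∩ Icc 0 1).Nonempty := by
    apply IsCompact.nonempty_iInter_of_directed_nonempty_isCompact_isClosed
    · intro n m
      refine ⟨max n m, ?_, ?_⟩
      · apply inter_subset_inter_left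
        apply FF_anti
        apply GI_mono <;> linarith [hanti n (max n m) (le_max_left _ _)]
      · apply inter_subset_inter_left
        apply FF_anti
        apply GI_mono <;> linarith [hanti m (max n m) (le_max_right _ _)]
    · intro n
      have h1 := hele n
      have h2 := hepos n
      obtain ⟨y, hy, h0, h3⟩ := per_meets (S1' hL (a := x + e n) (b := x + 1 - e n)
        (by linarith) (by linarith)) (fun y hy n => FF_per hL hy n) 0
      exact ⟨y, hy, h0, by linarith⟩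
    · intro n
      exact isCompact_Icc.inter_left (FF_closed _)
    · intro n
      exact (FF_closed _).inter isClosed_Icc
  obtain ⟨p, hp⟩ := hall
  refine ⟨p, fun g hg => ?_⟩
  obtain ⟨d, hd, hgd⟩ := mem_HX_GI hg
  obtain ⟨n, hn⟩ : ∃ n : ℕ, e n ≤ d := by
    obtain ⟨n, hn⟩ := exists_nat_gt (1 / d)
    refine ⟨n, ?_⟩
    simp only [he]
    rw [div_le_iff₀ (by positivity)]
    rw [div_lt_iff₀ hd] at hn
    nlinarith
  exact (mem_iInter.1 hp n).1 g (hgd _ hn)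

lemma FF_HX_conj (hL : PRep L) (g : ↥GG) (x p : ℝ) :
    L g p ∈ FF L (HX ((g : ℝ ≃o ℝ) x)) ↔ p ∈ FF L (HX x) := by
  constructor
  · intro h t ht
    rw [← ZZ_conj hL g]
    exact h _ (conj_HX ht g)
  · intro h
    refine FF_conj hL (S := HX x) (T := HX ((g : ℝ ≃o ℝ) x)) (fun t ht => ?_) h
    have := conj_HX ht g⁻¹
    rwa [GG_inv_apply rfl, inv_inv] at this

/-! ### Normalized lifts -/

/-- the lift normalized at `p` -/
noncomputable def MM (L : ↥GG → (ℝ ≃o ℝ)) (p : ℝ) (g : ↥GG) : ℝ ≃o ℝ := tr (-(L g p - p)) * L g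

lemma MM_apply (p : ℝ) (g : ↥GG) (x : ℝ) : MM L p g x = L g x - (L g p - p) := by
  rw [MM, RelIso.mul_apply, tr_apply]; ring

lemma MM_self (p : ℝ) (g : ↥GG) : MM L p g p = p := by rw [MM_apply]; ring

lemma MM_mul (hL : PRep L) {p : ℝ} {g h : ↥GG} (hg : g ∈ stab hL p) (hh : h ∈ stab hL p)
    (x : ℝ) : MM L p (g * h) x = MM L p g (MM L p h x) := by
  obtain ⟨m, hm⟩ := hg
  obtain ⟨n, hn⟩ := hh
  obtain ⟨k, hk⟩ := hL.mul g h
  simp only [MM_apply]
  rw [hm, hn, hk, hk, hn, hL.per_int, hm, show L h x - (p + n - p) = L h x + ((-n : ℤ) : ℝ) by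
    push_cast; ring, hL.per_int]
  push_cast; ring

lemma MM_per (hL : PRep L) (p : ℝ) (g : ↥GG) (x : ℝ) : MM L p g (x + 1) = MM L p g x + 1 := by
  rw [MM_apply, MM_apply, hL.per]; ring

/-- The normalized lift fixes all the points of the fixed point set of its subgroup. -/
lemma MM_fix (hL : PRep L) {p q : ℝ} {g : ↥GG} (hg : g ∈ stab hL p) (hg' : g ∈ stab hL q) :
    MM L p g q = q := by
  obtain ⟨m, hm⟩ := hg
  obtain ⟨n, hn⟩ := hg'
  rw [MM_apply, hm, hn]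
  obtain ⟨k, hk, hk'⟩ := perf_cell p q
  have h1 := (L g).monotone hk
  have h2 := (L g).strictMono hk'
  rw [hL.per_int, hm, hn] at h1
  rw [hL.per, hL.per_int, hm, hn] at h2
  have h3 : (n:ℝ) < m + 1 := by linarith
  have h4 : (m:ℝ) < n + 1 := by linarith
  have h5 : n < m + 1 := by exact_mod_cast h3
  have h6 : m < n + 1 := by exact_mod_cast h4
  have h7 : n = m := by omega
  rw [h7]; ring

/-- A global fixed point implies triviality. -/
theorem S3 (hL : PRep L) {p : ℝ} (hp : ∀ g, g ∈ stab hL p) (g : ↥GG) :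
    ∃ k : ℤ, ∀ x, L g x = x + k := by
  have hM : ∀ g h x, MM L p (g * h) x = MM L p g (MM L p h x) := fun g h x =>
    MM_mul hL (hp g) (hp h) x
  have htau : ∀ x, MM L p tau x = x := by
    obtain ⟨k, hk⟩ := hL.tau
    intro x
    rw [MM_apply, hk, hk]; ring
  have hrot : ∀ x, MM L p rot x = x := by
    intro x
    have h1 : MM L p rot (MM L p rot x) = x := by rw [← hM, rot_sq, htau]
    rcases lt_trichotomy (MM L p rot x) x with h | h | h
    · have := (MM L p rot).strictMono h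
      rw [h1] at this
      exact absurd (this.trans h) (lt_irrefl _)
    · exact h
    · have := (MM L p rot).strictMono h
      rw [h1] at this
      exact absurd (h.trans this) (lt_irrefl _)
  have hone : ∀ x, MM L p 1 x = x := by
    intro x
    have h1 := hM 1 1 x
    rw [mul_one] at h1
    exact ((MM L p 1).injective h1).symm
  have hinvM : ∀ g x, MM L p g⁻¹ (MM L p g x) = x := by
    intro g x; rw [← hM, inv_mul_cancel, hone]
  -- the kernel
  let N : Subgroup ↥GG :=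
    { carrier := {g | ∀ x, MM L p g x = x}
      one_mem' := hone
      mul_mem' := by
        intro a b ha hb x
        rw [hM, hb, ha]
      inv_mem' := by
        intro a ha x
        have := hinvM a x
        rwa [ha] at this }
  have hNn : ∀ g h, g * h * g⁻¹ ∈ N → h ∈ N := by
    intro g h hh x
    have h1 := hh (MM L p g x)
    rw [← hM, inv_mul_cancel_right, hM] at h1
    exact (MM L p g).injective h1
  have hcommN : (⁅GI 0 (1/2), GI 0 (1/2)⁆ : Subgroup ↥GG) ≤ N := by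
    rw [Subgroup.commutator_le]
    intro a ha b hb
    rw [commutatorElement_def]
    have h1 : rot * a * rot⁻¹ ∈ GI (1/2) 1 := by
      have := conj_GI ha rot
      rw [rot_apply, rot_apply] at this
      norm_num at this
      exact this
    have h2 : b * (rot * a * rot⁻¹) = (rot * a * rot⁻¹) * b :=
      GI_commute le_rfl (by norm_num) hb h1
    have h3 : ∀ x, MM L p (rot * a * rot⁻¹) x = MM L p a x := by
      intro x
      rw [hM, hM, hrot]
      congr 1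
      have := hinvM rot x
      rwa [hrot] at this
    have h4 : ∀ x, MM L p a (MM L p b x) = MM L p b (MM L p a x) := by
      intro x
      rw [← h3, ← h3, ← hM, ← hM, h2]
    intro x
    rw [hM, hM, hM]
    have h5 : MM L p a (MM L p b (MM L p a⁻¹ (MM L p b⁻¹ x))) =
        MM L p b (MM L p a (MM L p a⁻¹ (MM L p b⁻¹ x))) := h4 _
    rw [h5]
    have h6 : ∀ g x, MM L p g (MM L p g⁻¹ x) = x := by
      intro g x; rw [← hM, mul_inv_cancel, hone]
    rw [h6, h6]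
  have hGIN : ∀ a b : ℝ, a ≤ b → b < a + 1 → GI a b ≤ N := by
    intro a b hab hab' g hg
    obtain ⟨F, hF⟩ := exists_move AA.zero_mem half_AA (by norm_num) (by norm_num) hab hab'
    exact hNn F g (hcommN (hF g hg))
  have hHX : ∀ x, HX x ≤ N := by
    intro x g hg
    obtain ⟨e, he, h⟩ := mem_HX_GI hg
    have h1 : min e (1/3) ≤ e := min_le_left _ _
    have h2 : min e (1/3) ≤ 1/3 := min_le_right _ _
    have h3 : 0 < min e (1/3) := lt_min he (by norm_num)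
    exact hGIN _ _ (by linarith) (by linarith) (h _ h1)
  have htop : N = ⊤ := by
    refine gen AA.zero_mem half_AA ?_ (hHX 0) (hHX (1/2)) htau
    intro n hn
    have h1 : (n:ℝ) * 2 = 1 := by linarith
    have h2 : n * 2 = 1 := by exact_mod_cast h1
    omega
  have hg : g ∈ N := by rw [htop]; exact Subgroup.mem_top g
  obtain ⟨m, hm⟩ := hp g
  refine ⟨m, fun x => ?_⟩
  have := hg x
  rw [MM_apply, hm] at this
  linarith

end Pool.Agent.V8H70.TS
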