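import Pool.Agent.V8H70.TS.Basic

/-!
# Interpolation in the group of locally piecewise linear homeomorphisms
-/

set_option autoImplicit false

open Set Filter Topology

namespace Pool.Agent.V8H70.TS

lemma inv_apply_eq {F : ℝ ≃o ℝ} {x y : ℝ} (h : F x = y) : (F⁻¹ : ℝ ≃o ℝ) y = x := by
  rw [← h]; exact F.symm_apply_apply x

lemma apply_inv_self' (F : ℝ ≃o ℝ) (x : ℝ) : F ((F⁻¹ : ℝ ≃o ℝ) x) = x := F.apply_symm_apply x
lemma inv_apply_self' (F : ℝ ≃o ℝ) (x : ℝ) : (F⁻¹ : ℝ ≃o ℝ) (F x) = x := F.symm_apply_apply x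

lemma U_aux1 (c K : ℝ) (hK : 0 < K) : (1 : ℝ ≃o ℝ) c = aff K (c - K * c) hK c := by
  rw [aff_apply]; change c = _; ring

lemma U_aux2 (c K : ℝ) (hK : 0 < K) :
    glue 1 (aff K (c - K * c) hK) c (U_aux1 c K hK) (c + 1) = tr (K - 1) (c + 1) := by
  rw [glue_ge _ _ _ _ (by linarith), aff_apply, tr_apply]; ring

/-- The homeomorphism which stretches `[c, c+1]` by `K` and is a translation elsewhere. -/
noncomputable def U (c K : ℝ) (hK : 0 < K) : ℝ ≃o ℝ :=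
  glue (glue 1 (aff K (c - K * c) hK) c (U_aux1 c K hK)) (tr (K - 1)) (c + 1) (U_aux2 c K hK)

lemma U_le {c K x : ℝ} (hK : 0 < K) (hx : x ≤ c) : U c K hK x = x := by
  unfold U
  rw [glue_le _ _ _ _ (by linarith), glue_le _ _ _ _ hx]; rfl

lemma U_mid {c K x : ℝ} (hK : 0 < K) (hx : c ≤ x) (hx' : x ≤ c + 1) :
    U c K hK x = c + K * (x - c) := by
  unfold U
  rw [glue_le _ _ _ _ hx', glue_ge _ _ _ _ hx, aff_apply]; ring

lemma U_ge {c K x : ℝ} (hK : 0 < K) (hx : c + 1 ≤ x) : U c K hK x = x + (K - 1) := by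
  unfold U
  rw [glue_ge _ _ _ _ hx, tr_apply]

lemma U_mem {c K : ℝ} (hc : c ∈ AA) (hK : K ∈ Lam) : U c K (Lam_pos hK) ∈ PP := by
  unfold U
  refine glue_mem _ _ _ _ (glue_mem _ _ _ _ PP.one_mem ?_ hc) ?_ ?_
  · exact aff_mem hK (AA.sub_mem hc (AA.mul_mem (Lam_AA hK) hc))
  · exact tr_mem (AA.sub_mem (Lam_AA hK) AA.one_mem)
  · exact AA.add_mem hc AA.one_mem

/-- all positive natural numbers are in one orbit -/
lemma interp_nat (n : ℕ) : ∃ F ∈ PP, F 0 = 0 ∧ F ((n:ℝ) + 1) = 1 := by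
  induction n with
  | zero => exact ⟨1, PP.one_mem, rfl, by simp⟩
  | succ n ih =>
    obtain ⟨F, hF, h0, h1⟩ := ih
    refine ⟨F * (U 0 2 (Lam_pos Lam_two))⁻¹, PP.mul_mem hF (PP.inv_mem (U_mem AA.zero_mem Lam_two)),
      ?_, ?_⟩
    · rw [RelIso.mul_apply, inv_apply_eq (x := 0), h0]
      exact U_le _ le_rfl
    · rw [RelIso.mul_apply, inv_apply_eq (x := (n:ℝ) + 1), h1]
      rw [U_ge _ (by have : (0:ℝ) ≤ n := n.cast_nonneg; linarith)]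
      push_cast; ring

lemma interp_pos {d : ℝ} (hd : d ∈ AA) (h0 : 0 < d) : ∃ F ∈ PP, F 0 = 0 ∧ F d = 1 := by
  obtain ⟨m, k, hm⟩ := hd
  have h6 : (6:ℝ) ^ k ∈ Lam := Lam_pow Lam_six k
  have hmpos : 0 < m := by
    have : (0:ℝ) < m := by rw [← hm]; positivity
    exact_mod_cast this
  obtain ⟨n, hn⟩ : ∃ n : ℕ, m = n + 1 := ⟨(m - 1).toNat, by omega⟩
  obtain ⟨F, hF, h0', h1⟩ := interp_nat n
  refine ⟨F * aff (6 ^ k) 0 (Lam_pos h6), PP.mul_mem hF (aff_mem h6 AA.zero_mem), ?_, ?_⟩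
  · rw [RelIso.mul_apply, aff_apply]; simpa using h0'
  · rw [RelIso.mul_apply, aff_apply]
    have : (6:ℝ) ^ k * d + 0 = (n:ℝ) + 1 := by
      rw [add_zero, mul_comm, hm, hn]; push_cast; ring
    rw [this, h1]

/-- Interpolation: an ordered pair of points of `AA` can be mapped to any other ordered pair. -/
lemma interp {a b c d : ℝ} (ha : a ∈ AA) (hb : b ∈ AA) (hc : c ∈ AA) (hd : d ∈ AA)
    (hab : a < b) (hcd : c < d) : ∃ F ∈ PP, F a = c ∧ F b = d := by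
  obtain ⟨F, hF, hF0, hF1⟩ := interp_pos (AA.sub_mem hb ha) (sub_pos.2 hab)
  obtain ⟨H, hH, hH0, hH1⟩ := interp_pos (AA.sub_mem hd hc) (sub_pos.2 hcd)
  refine ⟨tr c * (H⁻¹ * (F * tr (-a))), PP.mul_mem (tr_mem hc) (PP.mul_mem (PP.inv_mem hH)
    (PP.mul_mem hF (tr_mem (AA.neg_mem ha)))), ?_, ?_⟩
  · simp only [RelIso.mul_apply, tr_apply]
    rw [show a + -a = 0 by ring, hF0, inv_apply_eq hH0]; ring
  · simp only [RelIso.mul_apply, tr_apply]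
    rw [show b + -a = b - a by ring, hF1, inv_apply_eq hH1]; ring

/-- Two elements of `PP` can be joined. -/
lemma join {f h : ℝ ≃o ℝ} (hf : f ∈ PP) (hh : h ∈ PP) {a b : ℝ} (ha : a ∈ AA) (hb : b ∈ AA)
    (hab : a < b) (hfh : f a < h b) :
    ∃ F ∈ PP, (∀ x ≤ a, F x = f x) ∧ (∀ x ≥ b, F x = h x) := by
  obtain ⟨F, hF, h1, h2⟩ := interp ha hb (PP.map_AA hf ha) (PP.map_AA hh hb) hab hfh
  obtain ⟨K, hK, h3, h4⟩ := exists_glue hf hF ha h1.symm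
  obtain ⟨K', hK', h5, h6⟩ := exists_glue hK hh hb (by rw [h4 b hab.le, h2])
  exact ⟨K', hK', fun x hx => by rw [h5 x (by linarith), h3 x hx], h6⟩

/-- density of `AA` -/
lemma exists_AA_between {a b : ℝ} (h : a < b) : ∃ c ∈ AA, a < c ∧ c < b := by
  obtain ⟨n, hn⟩ := exists_nat_gt (1 / (b - a))
  have hba : 0 < b - a := sub_pos.2 h
  have h6n : (n:ℝ) < 6 ^ n := by exact_mod_cast Nat.lt_pow_self (by norm_num)
  have h6 : (0:ℝ) < 6 ^ n := by positivity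
  have h1 : 1 < (b - a) * 6 ^ n := by
    rw [div_lt_iff₀ hba] at hn
    nlinarith
  refine ⟨(⌊a * 6 ^ n⌋ + 1) / 6 ^ n, ⟨⌊a * 6 ^ n⌋ + 1, n, ?_⟩, ?_, ?_⟩
  · field_simp; push_cast; ring
  · rw [lt_div_iff₀ h6]; exact Int.lt_floor_add_one _
  · rw [div_lt_iff₀ h6]
    have := Int.floor_le (a * 6 ^ n)
    nlinarith

/-! ### Supports -/

/-- elements of `PP` which are the identity outside `(a, b)` -/
def PI (a b : ℝ) : Subgroup ↥PP where
  carrier := {f | ∀ x, x ≤ a ∨ b ≤ x → (f : ℝ ≃o ℝ) x = x}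
  one_mem' := fun _ _ => rfl
  mul_mem' := by
    intro f g hf hg x hx
    rw [Subgroup.coe_mul, RelIso.mul_apply, hg x hx, hf x hx]
  inv_mem' := by
    intro f hf x hx
    rw [Subgroup.coe_inv]
    exact inv_apply_eq (hf x hx)

lemma mem_PI {a b : ℝ} {f : ↥PP} : f ∈ PI a b ↔ ∀ x, x ≤ a ∨ b ≤ x → (f : ℝ ≃o ℝ) x = x := Iff.rfl

lemma PI_mono {a b a' b' : ℝ} (ha : a' ≤ a) (hb : b ≤ b') : PI a b ≤ PI a' b' := by
  intro f hf x hx
  exact hf x (hx.imp (fun h => h.trans ha) (fun h => hb.trans h))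

/-- compactly supported elements of `PP` -/
def Pc : Subgroup ↥PP where
  carrier := {f | ∃ R, f ∈ PI (-R) R}
  one_mem' := ⟨0, (PI _ _).one_mem⟩
  mul_mem' := by
    rintro f g ⟨R, hf⟩ ⟨S, hg⟩
    refine ⟨max R S, (PI _ _).mul_mem (PI_mono ?_ ?_ hf) (PI_mono ?_ ?_ hg)⟩
    · exact neg_le_neg (le_max_left _ _)
    · exact le_max_left _ _
    · exact neg_le_neg (le_max_right _ _)
    · exact le_max_right _ _
  inv_mem' := by
    rintro f ⟨R, hf⟩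
    exact ⟨R, (PI _ _).inv_mem hf⟩

lemma PI_le_Pc (a b : ℝ) : PI a b ≤ Pc := by
  intro f hf
  refine ⟨max |a| |b|, PI_mono ?_ ?_ hf⟩
  · have := neg_abs_le a
    have := le_max_left |a| |b|
    linarith
  · exact (le_abs_self b).trans (le_max_right _ _)

lemma conj_PI {a b : ℝ} {f : ↥PP} (hf : f ∈ PI a b) (g : ↥PP) :
    g * f * g⁻¹ ∈ PI ((g : ℝ ≃o ℝ) a) ((g : ℝ ≃o ℝ) b) := by
  intro x hx
  have h1 : (f : ℝ ≃o ℝ) (((g⁻¹ : ↥PP) : ℝ ≃o ℝ) x) = ((g⁻¹ : ↥PP) : ℝ ≃o ℝ) x := by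
    apply hf
    rw [Subgroup.coe_inv]
    rcases hx with hx | hx
    · left
      rw [← (g : ℝ ≃o ℝ).le_iff_le, apply_inv_self']; exact hx
    · right
      rw [← (g : ℝ ≃o ℝ).le_iff_le, apply_inv_self']; exact hx
  rw [Subgroup.coe_mul, Subgroup.coe_mul, RelIso.mul_apply, RelIso.mul_apply, h1,
    Subgroup.coe_inv, apply_inv_self']

instance Pc_normal : Pc.Normal := by
  constructor
  rintro f ⟨R, hf⟩ g
  exact PI_le_Pc _ _ (conj_PI hf g)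

/-- Any element of `PP` agrees on a bounded interval with a compactly supported one. -/
lemma exists_Pc_eq (f : ↥PP) (R : ℝ) :
    ∃ h : ↥PP, h ∈ Pc ∧ ∀ x, -R ≤ x → x ≤ R → (h : ℝ ≃o ℝ) x = (f : ℝ ≃o ℝ) x := by
  obtain ⟨N, hN⟩ : ∃ N : ℕ, |R| + |(f : ℝ ≃o ℝ) R| + |(f : ℝ ≃o ℝ) (-R)| < N := exists_nat_gt _
  -- points
  have hR := abs_nonneg R
  have h1 := abs_nonneg ((f : ℝ ≃o ℝ) R)
  have h2 := abs_nonneg ((f : ℝ ≃o ℝ) (-R))
  obtain ⟨M, hM⟩ : ∃ M : ℕ, |(f : ℝ ≃o ℝ) (N:ℝ)| + |(f : ℝ ≃o ℝ) (-(N:ℝ))| + N + 1 < M :=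
    exists_nat_gt _
  have h3 := abs_nonneg ((f : ℝ ≃o ℝ) (N:ℝ))
  have h4 := abs_nonneg ((f : ℝ ≃o ℝ) (-(N:ℝ)))
  have h5 := le_abs_self ((f : ℝ ≃o ℝ) (N:ℝ))
  have h6 := neg_abs_le ((f : ℝ ≃o ℝ) (-(N:ℝ)))
  have hNA : -(N:ℝ) ∈ AA := AA.neg_mem (nat_AA N)
  have hMA : -(M:ℝ) ∈ AA := AA.neg_mem (nat_AA M)
  have hN0 : (0:ℝ) ≤ N := N.cast_nonneg
  obtain ⟨F, hF, h7, h8⟩ := join (PP.one_mem) f.2 hMA hNA (by linarith)
    (show (1 : ℝ ≃o ℝ) (-(M:ℝ)) < _ by change -(M:ℝ) < _; linarith)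
  obtain ⟨K, hK, h9, h10⟩ := join hF PP.one_mem (nat_AA N) (nat_AA M) (by linarith)
    (show F (N:ℝ) < (1 : ℝ ≃o ℝ) (M:ℝ) by
      rw [h8 _ (by linarith)]; change _ < (M:ℝ); linarith)
  refine ⟨⟨K, hK⟩, ⟨M, ?_⟩, ?_⟩
  · rintro x (hx | hx)
    · change K x = x
      rw [h9 x (by linarith), h7 x hx]; rfl
    · change K x = x
      rw [h10 x hx]; rfl
  · intro x hx hx'
    change K x = _
    have := le_abs_self R
    rw [h9 x (by linarith), h8 x (by linarith)]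

/-- Compactly supported elements are central modulo commutators. -/
lemma central (f : ↥PP) {k : ↥PP} (hk : k ∈ Pc) : f * k * f⁻¹ * k⁻¹ ∈ ⁅Pc, Pc⁆ := by
  obtain ⟨R, hR⟩ := hk
  obtain ⟨h, hh, hfh⟩ := exists_Pc_eq f |R|
  have key : f * k * f⁻¹ = h * k * h⁻¹ := by
    have : f * k = (h * k * h⁻¹) * f := by
      apply Subtype.ext
      apply RelIso.ext
      intro x
      simp only [Subgroup.coe_mul, RelIso.mul_apply, Subgroup.coe_inv]
      by_cases hx : -|R| ≤ x ∧ x ≤ |R|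
      · have h1 : (h⁻¹ : ℝ ≃o ℝ) ((f : ℝ ≃o ℝ) x) = x := inv_apply_eq (hfh x hx.1 hx.2)
        rw [h1]
        have h3 : (k : ℝ ≃o ℝ) |R| = |R| := hR _ (Or.inr (le_abs_self R))
        have h4 : (k : ℝ ≃o ℝ) (-|R|) = -|R| := hR _ (Or.inl (by
          have := le_abs_self R; linarith))
        have h2 : -|R| ≤ (k : ℝ ≃o ℝ) x ∧ (k : ℝ ≃o ℝ) x ≤ |R| := by
          constructor
          · rw [← h4]; exact (k : ℝ ≃o ℝ).monotone hx.1
          · rw [← h3]; exact (k : ℝ ≃o ℝ).monotone hx.2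
        rw [hfh _ h2.1 h2.2]
      · have hRR : (k : ℝ ≃o ℝ) x = x := by
          apply hR
          by_contra hcon
          push Not at hcon
          apply hx
          have := le_abs_self R
          constructor <;> linarith
        rw [hRR]
        -- h⁻¹ (f x) is outside
        have h5 : (k : ℝ ≃o ℝ) ((h⁻¹ : ℝ ≃o ℝ) ((f : ℝ ≃o ℝ) x)) =
            (h⁻¹ : ℝ ≃o ℝ) ((f : ℝ ≃o ℝ) x) := by
          apply hR
          have hRle := le_abs_self R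
          rcases not_and_or.1 hx with hx | hx
          · left
            have h6 : (h : ℝ ≃o ℝ) (-|R|) = (f : ℝ ≃o ℝ) (-|R|) :=
              hfh _ le_rfl (by have := abs_nonneg R; linarith)
            rw [← (h : ℝ ≃o ℝ).le_iff_le, apply_inv_self']
            calc (f : ℝ ≃o ℝ) x ≤ (f : ℝ ≃o ℝ) (-|R|) := (f : ℝ ≃o ℝ).monotone (not_le.1 hx).le
              _ = (h : ℝ ≃o ℝ) (-|R|) := h6.symm
              _ ≤ (h : ℝ ≃o ℝ) (-R) := (h : ℝ ≃o ℝ).monotone (by linarith)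
          · right
            have h6 : (h : ℝ ≃o ℝ) (|R|) = (f : ℝ ≃o ℝ) (|R|) :=
              hfh _ (by have := abs_nonneg R; linarith) le_rfl
            rw [← (h : ℝ ≃o ℝ).le_iff_le, apply_inv_self']
            calc (h : ℝ ≃o ℝ) R ≤ (h : ℝ ≃o ℝ) |R| := (h : ℝ ≃o ℝ).monotone hRle
              _ = (f : ℝ ≃o ℝ) (|R|) := h6
              _ ≤ (f : ℝ ≃o ℝ) x := (f : ℝ ≃o ℝ).monotone (not_le.1 hx).le
        rw [h5, apply_inv_self']
    rw [this, mul_inv_cancel_right]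
  rw [key]
  have := Subgroup.commutator_mem_commutator hh (show k ∈ Pc from ⟨R, hR⟩)
  rwa [commutatorElement_def] at this

end Pool.Agent.V8H70.TS
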