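import Pool.Agent.V8H70.TS.Dyn2
import Pool.Agent.V8H70.TS.Core

/-!
# Lifted form of the main theorem
-/

set_option autoImplicit false

open Set Filter Topology

namespace Pool.Agent.V8H70.TS

/-- reflection of an order isomorphism of the line -/
noncomputable def reflect (f : ℝ ≃o ℝ) : ℝ ≃o ℝ where
  toFun x := -f (-x)
  invFun x := -f.symm (-x)
  left_inv x := by simp
  right_inv x := by simp
  map_rel_iff' := by
    intro a b
    simp

lemma reflect_apply (f : ℝ ≃o ℝ) (x : ℝ) : reflect f x = -f (-x) := rfl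

lemma reflect_differentiable {f : ℝ ≃o ℝ} (hf : Differentiable ℝ f) :
    Differentiable ℝ (reflect f) := by
  have : (reflect f : ℝ → ℝ) = fun x => -f (-x) := rfl
  rw [this]
  exact (hf.comp differentiable_neg).neg

lemma reflect_deriv {f : ℝ ≃o ℝ} (hf : Differentiable ℝ f) (x : ℝ) :
    deriv (reflect f) x = deriv f (-x) := by
  have h1 : HasDerivAt (fun x => -f (-x)) (-(deriv f (-x) * -1)) x :=
    ((hf (-x)).hasDerivAt.comp x (hasDerivAt_neg x)).neg
  have h2 := h1.deriv
  have : (reflect f : ℝ → ℝ) = fun x => -f (-x) := rfl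
  rw [this, h2]; ring

theorem main_dyn {L : ↥GG → (ℝ ≃o ℝ)} (hL : PRep L) (hd : ∀ g, Differentiable ℝ (L g))
    (hc : ∀ g, Continuous (deriv (L g))) (hpos : ∀ g x, 0 < deriv (L g) x) (g : ↥GG) :
    ∃ k : ℤ, ∀ x, L g x = x + k := by
  by_contra hcon
  have hnofix : ∀ p, ¬ ∀ g, g ∈ stab hL p := fun p hp => hcon (S3 hL hp g)
  have hdisj : ∀ x ∈ AA, ∀ y ∈ AA, (∀ n : ℤ, y ≠ x + n) → ∀ p, p ∈ FF L (HX x) →
      p ∉ FF L (HX y) := by
    intro x hx y hy hxy p h1 h2
    have htop : stab hL p = ⊤ := by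
      refine gen hx hy hxy h1 h2 ?_
      obtain ⟨k, hk⟩ := hL.tau
      exact ⟨k, hk p⟩
    exact hnofix p fun g => by rw [htop]; exact Subgroup.mem_top g
  obtain ⟨p0, hp0⟩ := S2 hL 0
  have hst : ∀ g ∈ HX 0, g ∈ stab hL p0 := fun g hg => hp0 g hg
  set M : ↥GG → (ℝ ≃o ℝ) := MM L p0 with hM
  set A : ℝ → Set ℝ := fun y => FF L (HX y) ∩ Ici p0 with hA
  have hAne : ∀ y, (A y).Nonempty := by
    intro y
    obtain ⟨x, hx, h1, -⟩ := per_meets (S2 hL y) (fun x hx n => FF_per hL hx n) p0
    exact ⟨x, hx, h1⟩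
  have hAbdd : ∀ y, BddBelow (A y) := fun y => ⟨p0, fun x hx => hx.2⟩
  set P : ℝ → ℝ := fun y => sInf (A y) with hP
  have hPmem : ∀ y, P y ∈ A y := fun y =>
    ((FF_closed _).inter isClosed_Ici).csInf_mem (hAne y) (hAbdd y)
  have heq : ∀ g ∈ HX 0, ∀ y, M g (P y) = P ((g : ℝ ≃o ℝ) y) := by
    intro g hg y
    simp only [hP]
    rw [(M g).map_csInf' (hAne y) (hAbdd y)]
    congr 1
    obtain ⟨m, hm⟩ := hst g hg
    have hMx : ∀ x, M g x = L g x + ((-m : ℤ) : ℝ) := by
      intro x
      rw [hM, MM_apply, hm]; push_cast; ring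
    have key : ∀ x, M g x ∈ A ((g : ℝ ≃o ℝ) y) ↔ x ∈ A y := by
      intro x
      simp only [hA, mem_inter_iff, mem_Ici]
      refine and_congr ?_ ?_
      · rw [hMx, FF_per_iff hL, FF_HX_conj hL]
      · have h1 : M g p0 = p0 := MM_self p0 g
        constructor
        · intro h
          rw [← h1] at h
          exact (M g).le_iff_le.1 h
        · intro h
          rw [← h1]
          exact (M g).le_iff_le.2 h
    ext t
    constructor
    · rintro ⟨x, hx, rfl⟩
      exact (key x).2 hx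
    · intro ht
      obtain ⟨x, rfl⟩ := (M g).surjective t
      exact ⟨x, (key x).1 ht, rfl⟩
  have hmul : ∀ g ∈ HX 0, ∀ h ∈ HX 0, ∀ x, M (g * h) x = M g (M h x) := fun g hg h hh x =>
    MM_mul hL (hst g hg) (hst h hh) x
  have hMfun : ∀ g, (M g : ℝ → ℝ) = fun x => L g x - (L g p0 - p0) := by
    intro g; funext x; exact MM_apply p0 g x
  have hMd : ∀ g, Differentiable ℝ (M g) := by
    intro g
    rw [hMfun]
    exact (hd g).sub_const _
  have hMderiv : ∀ g, deriv (M g) = deriv (L g) := by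
    intro g
    rw [hMfun]
    funext x
    exact deriv_sub_const _
  have hMc : ∀ g, Continuous (deriv (M g)) := fun g => by rw [hMderiv]; exact hc g
  have hMpos : ∀ g x, 0 < deriv (M g) x := fun g x => by rw [hMderiv]; exact hpos g x
  have hne : P (1/3) ≠ P (1/2) := by
    intro h
    refine hdisj (1/3) third_AA (1/2) half_AA ?_ _ (hPmem (1/3)).1 (by rw [h]; exact (hPmem (1/2)).1)
    intro n hn
    have h1 : (n:ℝ) * 6 = 1 := by linarith
    have h2 : n * 6 = 1 := by exact_mod_cast h1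
    omega
  rcases lt_or_gt_of_ne hne with hlt | hgt
  · refine core M P ?_ (fun g hg y _ _ _ => heq g hg y) hmul hMd hMc hMpos
    intro x hx y hy h0 hxy h1
    obtain ⟨g, hg, e1, e2⟩ := HX0_trans2 third_AA half_AA hx hy (by norm_num) (by norm_num)
      (by norm_num) h0 hxy h1
    rw [← e1, ← e2, ← heq g hg, ← heq g hg]
    exact (M g).strictMono hlt
  · refine core (fun g => reflect (M g)) (fun y => -P y) ?_ ?_ ?_ ?_ ?_ ?_
    · intro x hx y hy h0 hxy h1
      obtain ⟨g, hg, e1, e2⟩ := HX0_trans2 third_AA half_AA hx hy (by norm_num) (by norm_num)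
        (by norm_num) h0 hxy h1
      rw [← e1, ← e2, ← heq g hg, ← heq g hg]
      exact neg_lt_neg ((M g).strictMono hgt)
    · intro g hg y _ _ _
      rw [reflect_apply, neg_neg, heq g hg]
    · intro g hg h hh x
      rw [reflect_apply, reflect_apply, reflect_apply, neg_neg, hmul g hg h hh]
    · exact fun g => reflect_differentiable (hMd g)
    · intro g
      have : deriv (reflect (M g)) = fun x => deriv (M g) (-x) := by
        funext x; exact reflect_deriv (hMd g) x
      rw [this]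
      exact (hMc g).comp continuous_neg
    · intro g x
      rw [reflect_deriv (hMd g)]
      exact hMpos g _

end Pool.Agent.V8H70.TS
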