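import Pool.Agent.V8H70.TS.Perfect

/-!
# The group of periodic piecewise linear homeomorphisms
-/

set_option autoImplicit false

open Set Filter Topology

namespace Pool.Agent.V8H70.TS

/-- the group of periodic elements of `PP` -/
def GG : Subgroup (ℝ ≃o ℝ) where
  carrier := {F | F ∈ PP ∧ ∀ x, F (x + 1) = F x + 1}
  one_mem' := ⟨PP.one_mem, fun _ => rfl⟩
  mul_mem' := by
    rintro F H ⟨hF, hF'⟩ ⟨hH, hH'⟩
    exact ⟨PP.mul_mem hF hH, fun x => by rw [RelIso.mul_apply, RelIso.mul_apply, hH', hF']⟩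
  inv_mem' := by
    rintro F ⟨hF, hF'⟩
    refine ⟨PP.inv_mem hF, fun x => inv_apply_eq ?_⟩
    rw [hF', apply_inv_self']

lemma GG_PP (g : ↥GG) : (g : ℝ ≃o ℝ) ∈ PP := g.2.1
lemma GG_per (g : ↥GG) (x : ℝ) : (g : ℝ ≃o ℝ) (x + 1) = (g : ℝ ≃o ℝ) x + 1 := g.2.2 x

lemma per_int {F : ℝ → ℝ} (h : ∀ x, F (x + 1) = F x + 1) (x : ℝ) (n : ℤ) :
    F (x + n) = F x + n := by
  induction n using Int.induction_on with
  | zero => simp
  | succ n ih => push_cast at ih ⊢; rw [← add_assoc, h, ih]; ring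
  | pred n ih =>
    have := h (x + ((-(n:ℤ) - 1 : ℤ) : ℝ))
    push_cast at this ih ⊢
    rw [show x + (-(n:ℝ) - 1) + 1 = x + -n by ring, ih] at this
    linarith

lemma GG_per_int (g : ↥GG) (x : ℝ) (n : ℤ) : (g : ℝ ≃o ℝ) (x + n) = (g : ℝ ≃o ℝ) x + n :=
  per_int (GG_per g) x n

lemma GG_mul_apply (f g : ↥GG) (x : ℝ) :
    ((f * g : ↥GG) : ℝ ≃o ℝ) x = (f : ℝ ≃o ℝ) ((g : ℝ ≃o ℝ) x) := rfl

lemma GG_inv_apply {g : ↥GG} {x y : ℝ} (h : (g : ℝ ≃o ℝ) x = y) :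
    ((g⁻¹ : ↥GG) : ℝ ≃o ℝ) y = x := by
  rw [Subgroup.coe_inv]; exact inv_apply_eq h

lemma GG_apply_inv (g : ↥GG) (x : ℝ) : (g : ℝ ≃o ℝ) (((g⁻¹ : ↥GG) : ℝ ≃o ℝ) x) = x := by
  rw [Subgroup.coe_inv]; exact apply_inv_self' _ _

lemma GG_ext {f g : ↥GG} (h : ∀ x, (f : ℝ ≃o ℝ) x = (g : ℝ ≃o ℝ) x) : f = g :=
  Subtype.ext (RelIso.ext h)

/-- two periodic maps which agree on a period are equal -/
lemma GG_ext_on {f g : ↥GG} (a : ℝ)
    (h : ∀ x, a ≤ x → x ≤ a + 1 → (f : ℝ ≃o ℝ) x = (g : ℝ ≃o ℝ) x) : f = g := by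
  apply GG_ext
  intro x
  have h1 := h (x + (-⌊x - a⌋ : ℤ)) (by push_cast; linarith [Int.floor_le (x - a)])
    (by push_cast; linarith [Int.lt_floor_add_one (x - a)])
  rw [GG_per_int, GG_per_int] at h1
  linarith

/-! ### Periodization -/

section per

variable (Φ : ℝ ≃o ℝ) (a : ℝ)

/-- the periodic extension of `Φ` on `[a, a+1)` -/
noncomputable def perf (x : ℝ) : ℝ := Φ (x - ⌊x - a⌋) + ⌊x - a⌋

lemma perf_eq {x : ℝ} {n : ℤ} (h1 : a + n ≤ x) (h2 : x < a + n + 1) :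
    perf Φ a x = Φ (x - n) + n := by
  have : ⌊x - a⌋ = n := by
    rw [Int.floor_eq_iff]; constructor <;> linarith
  rw [perf, this]

variable (h : Φ (a + 1) = Φ a + 1)

include h in
lemma perf_eq' {x : ℝ} {n : ℤ} (h1 : a + n ≤ x) (h2 : x ≤ a + n + 1) :
    perf Φ a x = Φ (x - n) + n := by
  rcases h2.lt_or_eq with h2 | h2
  · exact perf_eq Φ a h1 h2
  · have := perf_eq Φ a (x := x) (n := n + 1) (by push_cast; linarith) (by push_cast; linarith)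
    rw [this, h2]
    push_cast
    rw [show a + n + 1 - (n + 1) = a by ring, show a + n + 1 - n = a + 1 by ring, h]; ring

lemma perf_cell (x : ℝ) : ∃ n : ℤ, a + n ≤ x ∧ x < a + n + 1 :=
  ⟨⌊x - a⌋, by linarith [Int.floor_le (x - a)], by linarith [Int.lt_floor_add_one (x - a)]⟩

include h in
lemma perf_strictMono : StrictMono (perf Φ a) := by
  intro x y hxy
  obtain ⟨n, hn, hn'⟩ := perf_cell a x
  obtain ⟨m, hm, hm'⟩ := perf_cell a y
  rw [perf_eq Φ a hn hn', perf_eq Φ a hm hm']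
  have hnm : n ≤ m := by
    have : (n:ℝ) < m + 1 := by linarith
    have : n < m + 1 := by exact_mod_cast this
    omega
  rcases hnm.eq_or_lt with rfl | hnm
  · have := Φ.strictMono (show x - n < y - n by linarith)
    linarith
  · have h1 := Φ.strictMono (show x - n < a + 1 by linarith)
    have h2 := Φ.monotone (show a ≤ y - m by linarith)
    have h3 : (n:ℝ) + 1 ≤ m := by exact_mod_cast hnm
    linarith

include h in
lemma perf_surj : Function.Surjective (perf Φ a) := by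
  intro y
  have h1 := Int.floor_le (y - Φ a)
  have h2 := Int.lt_floor_add_one (y - Φ a)
  set n := ⌊y - Φ a⌋
  have h3 : a ≤ Φ.symm (y - n) := by
    rw [← Φ.le_iff_le, Φ.apply_symm_apply]; linarith
  have h4 : Φ.symm (y - n) < a + 1 := by
    rw [← Φ.lt_iff_lt, Φ.apply_symm_apply, h]; linarith
  refine ⟨Φ.symm (y - n) + n, ?_⟩
  rw [perf_eq Φ a (n := n) (by linarith) (by linarith), add_sub_cancel_right, Φ.apply_symm_apply]
  ring

/-- the periodic extension as an order isomorphism -/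
noncomputable def pern : ℝ ≃o ℝ :=
  StrictMono.orderIsoOfSurjective (perf Φ a) (perf_strictMono Φ a h) (perf_surj Φ a h)

lemma pern_apply (x : ℝ) : pern Φ a h x = perf Φ a x := rfl

lemma pern_mem (hΦ : Φ ∈ PP) (ha : a ∈ AA) : pern Φ a h ∈ GG := by
  refine ⟨fun x => ?_, fun x => ?_⟩
  · obtain ⟨n, hn, hn'⟩ := perf_cell a x
    -- the right model
    have hconj : ∀ m : ℤ, tr m * Φ * tr (-(m:ℝ)) ∈ PP := fun m =>
      PP.mul_mem (PP.mul_mem (tr_mem (int_AA m)) hΦ) (tr_mem (AA.neg_mem (int_AA m)))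
    have hval : ∀ (m : ℤ) (y : ℝ), (tr m * Φ * tr (-(m:ℝ)) : ℝ ≃o ℝ) y = Φ (y - m) + m := by
      intro m y
      simp only [RelIso.mul_apply, tr_apply, sub_eq_add_neg]
    obtain ⟨l, hl, m, hm, h1, h2, h3, h4⟩ := hconj n x
    have hR : RG (pern Φ a h) x l := by
      refine h1.congr hn' fun y hy hy' => ?_
      rw [hval, pern_apply, perf_eq Φ a (by linarith) hy']
    have hA : pern Φ a h x ∈ AA ↔ x ∈ AA := by
      rw [pern_apply, perf_eq Φ a hn hn', ← hval, h4]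
    rcases hn.eq_or_lt with hxn | hxn
    · -- a break point
      obtain ⟨l', hl', m', hm', h1', h2', h3', h4'⟩ := hconj (n - 1) x
      refine ⟨l, hl, m', hm', hR, ?_, fun hx => absurd ?_ hx, hA⟩
      · refine h2'.congr (show x - 1 < x by linarith) fun y hy hy' => ?_
        rw [hval, pern_apply]
        rw [perf_eq' Φ a h (n := n - 1) (by push_cast; linarith) (by push_cast; linarith)]
      · rw [← hxn]; exact AA.add_mem ha (int_AA n)
    · refine ⟨l, hl, m, hm, hR, ?_, h3, hA⟩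
      refine h2.congr hxn fun y hy hy' => ?_
      rw [hval, pern_apply, perf_eq Φ a (n := n) hy'.le (by linarith)]
  · obtain ⟨n, hn, hn'⟩ := perf_cell a x
    rw [pern_apply, pern_apply, perf_eq Φ a hn hn',
      perf_eq Φ a (n := n + 1) (by push_cast; linarith) (by push_cast; linarith)]
    push_cast
    rw [show x + 1 - (n + 1) = x - n by ring]; ring

end per

/-- Existence of periodic extensions. -/
lemma exists_per {Φ : ℝ ≃o ℝ} (hΦ : Φ ∈ PP) {a : ℝ} (ha : a ∈ AA) (h : Φ (a + 1) = Φ a + 1) :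
    ∃ F : ↥GG, ∀ x, a ≤ x → x ≤ a + 1 → (F : ℝ ≃o ℝ) x = Φ x := by
  refine ⟨⟨pern Φ a h, pern_mem Φ a h hΦ ha⟩, fun x hx hx' => ?_⟩
  change pern Φ a h x = _
  rw [pern_apply, perf_eq' Φ a h (n := 0) (by simpa) (by simpa)]; simp

/-! ### Subgroups given by supports -/

/-- elements of `GG` supported in `[a,b] + ℤ` -/
def GI (a b : ℝ) : Subgroup ↥GG where
  carrier := {F | ∀ x, b ≤ x → x ≤ a + 1 → (F : ℝ ≃o ℝ) x = x}
  one_mem' := fun _ _ _ => rfl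
  mul_mem' := by
    intro F H hF hH x h1 h2
    rw [GG_mul_apply, hH x h1 h2, hF x h1 h2]
  inv_mem' := by
    intro F hF x h1 h2
    exact GG_inv_apply (hF x h1 h2)

lemma mem_GI {a b : ℝ} {F : ↥GG} :
    F ∈ GI a b ↔ ∀ x, b ≤ x → x ≤ a + 1 → (F : ℝ ≃o ℝ) x = x := Iff.rfl

lemma GI_mono {a b a' b' : ℝ} (ha : a' ≤ a) (hb : b ≤ b') : GI a b ≤ GI a' b' := by
  intro F hF x h1 h2
  exact hF x (hb.trans h1) (by linarith)

/-- elements of `GG` which are the identity near `x` -/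
def HX (x : ℝ) : Subgroup ↥GG where
  carrier := {F | ∀ᶠ y in 𝓝 x, (F : ℝ ≃o ℝ) y = y}
  one_mem' := Eventually.of_forall fun _ => rfl
  mul_mem' := by
    intro F H hF hH
    filter_upwards [hF, hH] with y h1 h2
    rw [GG_mul_apply, h2, h1]
  inv_mem' := by
    intro F hF
    filter_upwards [hF] with y h1
    exact GG_inv_apply h1

lemma mem_HX {x : ℝ} {F : ↥GG} : F ∈ HX x ↔ ∀ᶠ y in 𝓝 x, (F : ℝ ≃o ℝ) y = y := Iff.rfl

lemma GI_le_HX {a b x : ℝ} (h1 : b - 1 < x) (h2 : x < a) : GI a b ≤ HX x := by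
  intro F hF
  rw [mem_HX]
  filter_upwards [Ioo_mem_nhds h1 h2] with y hy
  have h3 := hF (y + 1) (by linarith [hy.1]) (by linarith [hy.2])
  rw [GG_per] at h3
  linarith

lemma HX_int (x : ℝ) (n : ℤ) : HX (x + n) = HX x := by
  have key : ∀ (y : ℝ) (m : ℤ), HX (y + m) ≤ HX y := by
    intro y m F hF
    rw [mem_HX] at hF ⊢
    have ht : Tendsto (fun z : ℝ => z + m) (𝓝 y) (𝓝 (y + m)) :=
      (continuous_id.add continuous_const).tendsto y
    filter_upwards [ht.eventually hF] with z hz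
    rw [GG_per_int] at hz
    linarith
  refine le_antisymm (key x n) ?_
  have := key (x + n) (-n)
  push_cast at this
  rwa [add_neg_cancel_right] at this

lemma mem_HX_GI {x : ℝ} {F : ↥GG} (hF : F ∈ HX x) : ∃ e > 0, ∀ e' ≤ e, F ∈ GI (x + e') (x + 1 - e') := by
  rw [mem_HX, Metric.eventually_nhds_iff] at hF
  obtain ⟨e, he, h⟩ := hF
  refine ⟨e / 2, by positivity, fun e' he' y h1 h2 => ?_⟩
  have h3 := h (y := y - 1) (by rw [Real.dist_eq, abs_lt]; constructor <;> linarith)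
  have h4 := GG_per F (y - 1)
  rw [sub_add_cancel, h3] at h4
  rw [h4]; ring

/-- Local modification: any element of `PP` agrees locally with an element of small support. -/
lemma exists_GI_eq {Φ : ℝ ≃o ℝ} (hΦ : Φ ∈ PP) {a b c d : ℝ} (ha : a ∈ AA) (hb : b ∈ AA)
    (hc : c ∈ AA) (hd : d ∈ AA) (hac : a < c) (hcd : c ≤ d) (hdb : d < b) (hba : b ≤ a + 1)
    (h1 : a < Φ c) (h2 : Φ d < b) :
    ∃ F : ↥GG, F ∈ GI a b ∧ ∀ x, c ≤ x → x ≤ d → (F : ℝ ≃o ℝ) x = Φ x := by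
  obtain ⟨K, hK, h3, h4⟩ := join PP.one_mem hΦ ha hc hac (show (1 : ℝ ≃o ℝ) a < Φ c from h1)
  obtain ⟨K', hK', h5, h6⟩ := join hK PP.one_mem hd hb hdb
    (show K d < (1 : ℝ ≃o ℝ) b by rw [h4 d hcd]; exact h2)
  have h7 : K' a = a := by rw [h5 a (by linarith), h3 a le_rfl]; rfl
  have h8 : ∀ x ≥ b, K' x = x := fun x hx => by rw [h6 x hx]; rfl
  obtain ⟨F, hF⟩ := exists_per hK' ha (by rw [h8 _ hba, h7])
  refine ⟨F, fun x hx hx' => ?_, fun x hx hx' => ?_⟩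
  · rw [hF x (by linarith) hx', h8 x hx]
  · rw [hF x (by linarith) (by linarith), h5 x hx', h4 x hx]

lemma trans1 {a b x y : ℝ} (ha : a ∈ AA) (hb : b ∈ AA) (hx : x ∈ AA) (hy : y ∈ AA)
    (hba : b ≤ a + 1) (h1 : a < x) (h2 : x < b) (h3 : a < y) (h4 : y < b) :
    ∃ F : ↥GG, F ∈ GI a b ∧ (F : ℝ ≃o ℝ) x = y := by
  obtain ⟨F, hF, hF'⟩ := exists_GI_eq (tr_mem (AA.sub_mem hy hx)) ha hb hx hx h1 le_rfl h2 hba
    (by rw [tr_apply]; linarith) (by rw [tr_apply]; linarith)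
  refine ⟨F, hF, ?_⟩
  rw [hF' x le_rfl le_rfl, tr_apply]; ring

lemma trans2 {a b x y z w : ℝ} (ha : a ∈ AA) (hb : b ∈ AA) (hx : x ∈ AA) (hy : y ∈ AA)
    (hz : z ∈ AA) (hw : w ∈ AA)
    (hba : b ≤ a + 1) (h1 : a < x) (h2 : x < y) (h3 : y < b) (h4 : a < z) (h5 : z < w)
    (h6 : w < b) :
    ∃ F : ↥GG, F ∈ GI a b ∧ (F : ℝ ≃o ℝ) x = z ∧ (F : ℝ ≃o ℝ) y = w := by
  obtain ⟨Φ, hΦ, e1, e2⟩ := interp hx hy hz hw h2 h5
  obtain ⟨F, hF, hF'⟩ := exists_GI_eq hΦ ha hb hx hy h1 h2.le h3 hba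
    (by rw [e1]; linarith) (by rw [e2]; linarith)
  refine ⟨F, hF, ?_, ?_⟩
  · rw [hF' x le_rfl h2.le, e1]
  · rw [hF' y h2.le le_rfl, e2]

lemma transG {x y u v : ℝ} (hx : x ∈ AA) (hy : y ∈ AA) (hu : u ∈ AA) (hv : v ∈ AA)
    (h1 : x < y) (h2 : y < x + 1) (h3 : u < v) (h4 : v < u + 1) :
    ∃ F : ↥GG, (F : ℝ ≃o ℝ) x = u ∧ (F : ℝ ≃o ℝ) y = v := by
  obtain ⟨Φ, hΦ, e1, e2⟩ := interp hx hy hu hv h1 h3
  obtain ⟨Φ', hΦ', e3, e4⟩ := interp hy (AA.add_mem hx AA.one_mem) hv (AA.add_mem hu AA.one_mem)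
    h2 h4
  obtain ⟨K, hK, h5, h6⟩ := exists_glue hΦ hΦ' hy (by rw [e2, e3])
  obtain ⟨F, hF⟩ := exists_per hK hx (by rw [h6 _ h2.le, h5 _ h1.le, e4, e1])
  refine ⟨F, ?_, ?_⟩
  · rw [hF x le_rfl (by linarith), h5 x h1.le, e1]
  · rw [hF y h1.le h2.le, h5 y le_rfl, e2]

/-! ### Commutation -/

lemma commute_of_disjoint {f g : ↥GG} (h : ∀ x, (f : ℝ ≃o ℝ) x = x ∨ (g : ℝ ≃o ℝ) x = x) :
    f * g = g * f := by
  have h1 : Equiv.Perm.Disjoint (f : ℝ ≃o ℝ).toEquiv (g : ℝ ≃o ℝ).toEquiv := h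
  have h2 := h1.commute.eq
  apply GG_ext
  intro x
  exact DFunLike.congr_fun h2 x

lemma GI_commute {a b c d : ℝ} (hbc : b ≤ c) (hda : d ≤ a + 1) {f g : ↥GG}
    (hf : f ∈ GI a b) (hg : g ∈ GI c d) : f * g = g * f := by
  apply commute_of_disjoint
  intro x
  obtain ⟨n, hn, hn'⟩ := perf_cell a x
  rcases le_total b (x - n) with h | h
  · left
    have h1 := hf (x - n) h (by linarith)
    have h2 := GG_per_int f (x - n) n
    rw [sub_add_cancel, h1] at h2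
    rw [h2]; ring
  · right
    have h1 := hg (x - n + 1) (by linarith) (by linarith)
    have h2 := GG_per_int g (x - n + 1) (n - 1)
    push_cast at h2
    rw [show x - n + 1 + (n - 1) = x by ring, h1] at h2
    rw [h2]; ring

lemma conj_GI {a b : ℝ} {f : ↥GG} (hf : f ∈ GI a b) (g : ↥GG) :
    g * f * g⁻¹ ∈ GI ((g : ℝ ≃o ℝ) a) ((g : ℝ ≃o ℝ) b) := by
  intro x h1 h2
  rw [GG_mul_apply, GG_mul_apply, hf _ ?_ ?_, GG_apply_inv]
  · rw [← (g : ℝ ≃o ℝ).le_iff_le, GG_apply_inv]; exact h1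
  · rw [← (g : ℝ ≃o ℝ).le_iff_le, GG_apply_inv, GG_per]; exact h2

lemma conj_HX {x : ℝ} {f : ↥GG} (hf : f ∈ HX x) (g : ↥GG) :
    g * f * g⁻¹ ∈ HX ((g : ℝ ≃o ℝ) x) := by
  rw [mem_HX] at hf ⊢
  have h1 : Tendsto ((g⁻¹ : ↥GG) : ℝ ≃o ℝ) (𝓝 ((g : ℝ ≃o ℝ) x)) (𝓝 x) := by
    have h2 := ((g⁻¹ : ↥GG) : ℝ ≃o ℝ).continuous.tendsto ((g : ℝ ≃o ℝ) x)
    rwa [GG_inv_apply rfl] at h2
  filter_upwards [h1.eventually hf] with y hy
  rw [GG_mul_apply, GG_mul_apply, hy, GG_apply_inv]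

/-! ### Perfectness with control of supports -/

lemma comm_directed {f : ↥PP} (hf : f ∈ (⁅Pc, Pc⁆ : Subgroup ↥PP)) :
    ∃ R : ℝ, ∀ S ≥ R, f ∈ (⁅PI (-S) S, PI (-S) S⁆ : Subgroup ↥PP) := by
  rw [Subgroup.commutator_def] at hf
  induction hf using Subgroup.closure_induction with
  | mem x hx =>
    obtain ⟨g1, ⟨R1, h1⟩, g2, ⟨R2, h2⟩, rfl⟩ := hx
    refine ⟨max R1 R2, fun S hS => Subgroup.commutator_mem_commutator (PI_mono ?_ ?_ h1)
      (PI_mono ?_ ?_ h2)⟩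
    all_goals
      have := le_max_left R1 R2
      have := le_max_right R1 R2
      linarith
  | one => exact ⟨0, fun S _ => Subgroup.one_mem _⟩
  | mul x y _ _ hx hy =>
    obtain ⟨R1, h1⟩ := hx
    obtain ⟨R2, h2⟩ := hy
    refine ⟨max R1 R2, fun S hS => Subgroup.mul_mem _ (h1 S ?_) (h2 S ?_)⟩
    all_goals
      have := le_max_left R1 R2
      have := le_max_right R1 R2
      linarith
  | inv x _ hx =>
    obtain ⟨R1, h1⟩ := hx
    exact ⟨R1, fun S hS => Subgroup.inv_mem _ (h1 S hS)⟩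

lemma comm_conj {G : Type*} [Group G] {H K : Subgroup G} {h : G} (hHK : ∀ x ∈ H, h * x * h⁻¹ ∈ K)
    {f : G} (hf : f ∈ (⁅H, H⁆ : Subgroup G)) : h * f * h⁻¹ ∈ (⁅K, K⁆ : Subgroup G) := by
  have h1 : Subgroup.map (MulAut.conj h).toMonoidHom H ≤ K := by
    rintro _ ⟨x, hx, rfl⟩
    exact hHK x hx
  have h2 : (MulAut.conj h).toMonoidHom f ∈ Subgroup.map (MulAut.conj h).toMonoidHom ⁅H, H⁆ :=
    ⟨f, hf, rfl⟩
  rw [Subgroup.map_commutator] at h2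
  exact Subgroup.commutator_mono h1 h1 h2

lemma PI_le_comm {a b a' b' : ℝ} (ha : a ∈ AA) (hb : b ∈ AA) (ha' : a' ∈ AA) (hb' : b' ∈ AA)
    (h1 : a' < a) (h2 : a < b) (h3 : b < b') :
    PI a b ≤ (⁅PI a' b', PI a' b'⁆ : Subgroup ↥PP) := by
  intro f hf
  obtain ⟨R, hR⟩ := comm_directed (perfect (PI_le_Pc _ _ hf))
  obtain ⟨N, hN⟩ : ∃ N : ℕ, max R (max |a| |b|) < N := exists_nat_gt _
  have hNR : R ≤ N := (le_max_left _ _).trans hN.le
  have hNa : |a| < N := lt_of_le_of_lt ((le_max_left _ _).trans (le_max_right _ _)) hN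
  have hNb : |b| < N := lt_of_le_of_lt ((le_max_right _ _).trans (le_max_right _ _)) hN
  rw [abs_lt] at hNa hNb
  have hfN := hR N hNR
  have hNA : (N:ℝ) ∈ AA := nat_AA N
  -- compression
  obtain ⟨K1, hK1, e1, e2⟩ := join (tr_mem (AA.add_mem ha' hNA)) PP.one_mem (AA.neg_mem hNA) ha
    hNa.1 (show tr (a' + N) (-(N:ℝ)) < a by rw [tr_apply]; linarith)
  obtain ⟨K2, hK2, e3, e4⟩ := join hK1 (tr_mem (AA.sub_mem hb' hNA)) hb hNA hNb.2
    (show K1 b < tr (b' - N) (N:ℝ) by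
      rw [e2 b h2.le, tr_apply]; change b < _; linarith)
  set h : ↥PP := ⟨K2, hK2⟩ with hh
  have e5 : (h : ℝ ≃o ℝ) (-(N:ℝ)) = a' := by
    change K2 _ = _
    rw [e3 _ (by linarith), e1 _ le_rfl, tr_apply]; ring
  have e6 : (h : ℝ ≃o ℝ) (N:ℝ) = b' := by
    change K2 _ = _
    rw [e4 _ le_rfl, tr_apply]; ring
  have e7 : ∀ x, a ≤ x → x ≤ b → (h : ℝ ≃o ℝ) x = x := by
    intro x hx hx'
    change K2 _ = _
    rw [e3 x hx', e2 x hx]; rfl
  have key : h * f * h⁻¹ ∈ (⁅PI a' b', PI a' b'⁆ : Subgroup ↥PP) := by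
    refine comm_conj (H := PI (-(N:ℝ)) N) ?_ hfN
    intro x hx
    have := conj_PI hx h
    rwa [e5, e6] at this
  have heq : h * f * h⁻¹ = f := by
    rw [mul_inv_eq_iff_eq_mul]
    apply PP_ext
    intro x
    rw [PP_mul_apply, PP_mul_apply]
    have hfa : (f : ℝ ≃o ℝ) a = a := hf a (Or.inl le_rfl)
    have hfb : (f : ℝ ≃o ℝ) b = b := hf b (Or.inr le_rfl)
    by_cases hx : a ≤ x ∧ x ≤ b
    · rw [e7 x hx.1 hx.2, e7]
      · rw [← hfa]; exact (f : ℝ ≃o ℝ).monotone hx.1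
      · rw [← hfb]; exact (f : ℝ ≃o ℝ).monotone hx.2
    · rcases not_and_or.1 hx with hx | hx
      · have hx := (not_le.1 hx).le
        rw [hf x (Or.inl hx), hf _ (Or.inl ?_)]
        calc (h : ℝ ≃o ℝ) x ≤ (h : ℝ ≃o ℝ) a := (h : ℝ ≃o ℝ).monotone hx
          _ = a := e7 a le_rfl h2.le
      · have hx := (not_le.1 hx).le
        rw [hf x (Or.inr hx), hf _ (Or.inr ?_)]
        calc b = (h : ℝ ≃o ℝ) b := (e7 b h2.le le_rfl).symm
          _ ≤ (h : ℝ ≃o ℝ) x := (h : ℝ ≃o ℝ).monotone hx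
  rwa [heq] at key

/-- `F` is the periodic extension of `f` -/
def Ext (a b : ℝ) (F : ↥GG) (f : ↥PP) : Prop :=
  F ∈ GI a b ∧ f ∈ PI a b ∧ ∀ x, a ≤ x → x ≤ a + 1 → (F : ℝ ≃o ℝ) x = (f : ℝ ≃o ℝ) x

lemma Ext_exists {a b : ℝ} (ha : a ∈ AA) (hab : a ≤ b) (hba : b ≤ a + 1) {f : ↥PP}
    (hf : f ∈ PI a b) :
    ∃ F, Ext a b F f := by
  obtain ⟨F, hF⟩ := exists_per f.2 ha (by
    rw [hf _ (Or.inr hba), hf a (Or.inl le_rfl)])
  refine ⟨F, fun x hx hx' => ?_, hf, hF⟩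
  rw [hF x (hab.trans hx) hx', hf x (Or.inr hx)]

lemma Ext_mul {a b : ℝ} (hab : b ≤ a + 1) {F G : ↥GG} {f g : ↥PP} (h1 : Ext a b F f)
    (h2 : Ext a b G g) : Ext a b (F * G) (f * g) := by
  obtain ⟨hF, hf, hFf⟩ := h1
  obtain ⟨hG, hg, hGg⟩ := h2
  refine ⟨(GI a b).mul_mem hF hG, (PI a b).mul_mem hf hg, fun x hx hx' => ?_⟩
  rw [GG_mul_apply, PP_mul_apply, hGg x hx hx', hFf]
  · calc a = (g : ℝ ≃o ℝ) a := (hg a (Or.inl le_rfl)).symm
      _ ≤ _ := (g : ℝ ≃o ℝ).monotone hx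
  · calc (g : ℝ ≃o ℝ) x ≤ (g : ℝ ≃o ℝ) (a + 1) := (g : ℝ ≃o ℝ).monotone hx'
      _ = a + 1 := hg _ (Or.inr hab)

lemma Ext_inv {a b : ℝ} (hab : b ≤ a + 1) {F : ↥GG} {f : ↥PP} (h1 : Ext a b F f) :
    Ext a b F⁻¹ f⁻¹ := by
  obtain ⟨hF, hf, hFf⟩ := h1
  refine ⟨(GI a b).inv_mem hF, (PI a b).inv_mem hf, fun x hx hx' => ?_⟩
  apply GG_inv_apply
  rw [hFf]
  · rw [Subgroup.coe_inv]; exact apply_inv_self' _ _
  · rw [← (f : ℝ ≃o ℝ).le_iff_le, Subgroup.coe_inv, apply_inv_self', hf a (Or.inl le_rfl)]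
    exact hx
  · rw [← (f : ℝ ≃o ℝ).le_iff_le, Subgroup.coe_inv, apply_inv_self', hf _ (Or.inr hab)]
    exact hx'

/-- **Perfectness** for the periodic groups, with control of supports. -/
theorem GI_le_comm {a b a' b' : ℝ} (ha : a ∈ AA) (hb : b ∈ AA) (ha' : a' ∈ AA) (hb' : b' ∈ AA)
    (h1 : a' < a) (h2 : a < b) (h3 : b < b') (h4 : b' ≤ a' + 1) :
    GI a b ≤ (⁅GI a' b', GI a' b'⁆ : Subgroup ↥GG) := by
  intro F hF
  -- restrict `F`
  have hFa : (F : ℝ ≃o ℝ) (a' + 1) = a' + 1 := hF _ (by linarith) (by linarith)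
  have hFa' : (F : ℝ ≃o ℝ) a' = a' := by rw [GG_per] at hFa; linarith
  obtain ⟨K, hK, e1, e2⟩ := exists_glue PP.one_mem (GG_PP F) ha' (by rw [hFa']; rfl)
  obtain ⟨K', hK', e3, e4⟩ := exists_glue hK PP.one_mem (AA.add_mem ha' AA.one_mem)
    (by rw [e2 _ (by linarith), hFa]; rfl)
  set f : ↥PP := ⟨K', hK'⟩ with hf
  have hfx : ∀ x, a' ≤ x → x ≤ a' + 1 → (f : ℝ ≃o ℝ) x = (F : ℝ ≃o ℝ) x := by
    intro x hx hx'
    change K' x = _
    rw [e3 x hx', e2 x hx]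
  have hfI : f ∈ PI a b := by
    rintro x (hx | hx)
    · by_cases hax : a' ≤ x
      · rw [hfx x hax (by linarith)]
        have := hF (x + 1) (by linarith) (by linarith)
        rw [GG_per] at this
        linarith
      · push Not at hax
        change K' x = x
        rw [e3 x (by linarith), e1 x hax.le]; rfl
    · by_cases hax : x ≤ a' + 1
      · rw [hfx x (by linarith) hax]
        exact hF x hx (by linarith)
      · push Not at hax
        change K' x = x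
        rw [e4 x hax.le]; rfl
  have hfc := PI_le_comm ha hb ha' hb' h1 h2 h3 hfI
  -- transfer
  have key : ∀ g ∈ (⁅PI a' b', PI a' b'⁆ : Subgroup ↥PP),
      ∃ G ∈ (⁅GI a' b', GI a' b'⁆ : Subgroup ↥GG), Ext a' b' G g := by
    intro g hg
    rw [Subgroup.commutator_def] at hg
    induction hg using Subgroup.closure_induction with
    | mem x hx =>
      obtain ⟨g1, hg1, g2, hg2, rfl⟩ := hx
      obtain ⟨G1, hG1⟩ := Ext_exists ha' (by linarith) h4 hg1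
      obtain ⟨G2, hG2⟩ := Ext_exists ha' (by linarith) h4 hg2
      have h5 := Subgroup.commutator_mem_commutator hG1.1 hG2.1
      rw [commutatorElement_def] at h5
      refine ⟨_, h5, ?_⟩
      rw [commutatorElement_def]
      exact Ext_mul h4 (Ext_mul h4 (Ext_mul h4 hG1 hG2) (Ext_inv h4 hG1)) (Ext_inv h4 hG2)
    | one => exact ⟨1, Subgroup.one_mem _, Subgroup.one_mem _, Subgroup.one_mem _, fun _ _ _ => rfl⟩
    | mul x y _ _ hx hy =>
      obtain ⟨X, hX, hX'⟩ := hx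
      obtain ⟨Y, hY, hY'⟩ := hy
      exact ⟨X * Y, Subgroup.mul_mem _ hX hY, Ext_mul h4 hX' hY'⟩
    | inv x _ hx =>
      obtain ⟨X, hX, hX'⟩ := hx
      exact ⟨X⁻¹, Subgroup.inv_mem _ hX, Ext_inv h4 hX'⟩
  obtain ⟨G, hG, hG'⟩ := key f hfc
  have : F = G := by
    apply GG_ext_on a'
    intro x hx hx'
    rw [hG'.2.2 x hx hx', hfx x hx hx']
  rw [this]; exact hG

end Pool.Agent.V8H70.TS
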