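import Pool.Agent.V8H70.TS.Per

/-!
# Generation, cutting, special elements
-/

set_option autoImplicit false

open Set Filter Topology

namespace Pool.Agent.V8H70.TS

/-- translation by one -/
noncomputable def tau : ↥GG := ⟨tr 1, tr_mem AA.one_mem, fun x => by simp only [tr_apply]⟩

lemma tau_apply (x : ℝ) : (tau : ℝ ≃o ℝ) x = x + 1 := tr_apply _ _

/-- rotation by one half -/
noncomputable def rot : ↥GG :=
  ⟨tr (1/2), tr_mem half_AA, fun x => by simp only [tr_apply]; ring⟩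

lemma rot_apply (x : ℝ) : (rot : ℝ ≃o ℝ) x = x + 1/2 := tr_apply _ _

lemma rot_sq : rot * rot = tau := by
  apply GG_ext
  intro x
  rw [GG_mul_apply, rot_apply, rot_apply, tau_apply]; ring

lemma tau_zpow_apply (m : ℤ) (x : ℝ) : ((tau ^ m : ↥GG) : ℝ ≃o ℝ) x = x + m := by
  induction m using Int.induction_on with
  | zero => simp
  | succ n ih =>
    rw [zpow_add_one, GG_mul_apply, tau_apply, GG_per, ih]; push_cast; ring
  | pred n ih =>
    rw [zpow_sub_one, GG_mul_apply]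
    have h1 : ((tau⁻¹ : ↥GG) : ℝ ≃o ℝ) x = x - 1 := GG_inv_apply (by rw [tau_apply]; ring)
    rw [h1]
    have h2 := GG_per (tau ^ (-(n:ℤ))) (x - 1)
    rw [sub_add_cancel, ih] at h2
    push_cast at h2 ⊢
    linarith

lemma AA_apply (g : ↥GG) {x : ℝ} (hx : x ∈ AA) : (g : ℝ ≃o ℝ) x ∈ AA := PP.map_AA (GG_PP g) hx

lemma gen_aux {S : Subgroup ↥GG} {x y : ℝ} (hx : x ∈ AA) (hy : y ∈ AA) (h1 : x < y)
    (h2 : y < x + 1) (hSx : HX x ≤ S) (hSy : HX y ≤ S) (hS : tau ∈ S) : S = ⊤ := by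
  have hSt : ∀ m : ℤ, tau ^ m ∈ S := fun m => S.zpow_mem hS m
  have hSy1 : HX (y - 1) ≤ S := by
    have := HX_int y (-1)
    push_cast at this
    rw [← sub_eq_add_neg] at this
    rw [this]; exact hSy
  -- Step A
  have stepA : ∀ z ∈ AA, (∀ n : ℤ, z ≠ y + n) → ∃ s ∈ S, (s : ℝ ≃o ℝ) z = x := by
    intro z hz hzy
    obtain ⟨n, hn, hn'⟩ := perf_cell (y - 1) z
    have hn2 : y - 1 + n < z := by
      refine lt_of_le_of_ne hn fun h => hzy (n - 1) ?_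
      push_cast; linarith
    set w := z - n with hw
    have hwA : w ∈ AA := AA.sub_mem hz (int_AA n)
    obtain ⟨a, ha, ha1, ha2⟩ := exists_AA_between (show y - 1 < min w x from
      lt_min (by linarith) (by linarith))
    obtain ⟨b, hb, hb1, hb2⟩ := exists_AA_between (show max w x < y from
      max_lt (by linarith) (by linarith))
    rw [lt_min_iff] at ha2
    rw [max_lt_iff] at hb1
    obtain ⟨F, hF, hF'⟩ := trans1 ha hb hwA hx (by linarith) ha2.1 hb1.1 ha2.2 hb1.2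
    refine ⟨F * tau ^ (-n), S.mul_mem (hSy1 (GI_le_HX (by linarith) ha1 hF)) (hSt _), ?_⟩
    rw [GG_mul_apply, tau_zpow_apply]
    push_cast
    rw [← sub_eq_add_neg, ← hw, hF']
  -- Step B
  have stepB : ∀ z ∈ AA, ∃ s ∈ S, (s : ℝ ≃o ℝ) z = x := by
    intro z hz
    by_cases hzy : ∀ n : ℤ, z ≠ y + n
    · exact stepA z hz hzy
    · push Not at hzy
      obtain ⟨n, hn⟩ := hzy
      obtain ⟨y', hy', hy1, hy2⟩ := exists_AA_between h1
      obtain ⟨a, ha, ha1, ha2⟩ := exists_AA_between hy1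
      obtain ⟨b, hb, hb1, hb2⟩ := exists_AA_between h2
      obtain ⟨F, hF, hF'⟩ := trans1 ha hb hy hy' (by linarith) (by linarith) hb1 ha2 (by linarith)
      have hFz : (F : ℝ ≃o ℝ) z = y' + n := by rw [hn, GG_per_int, hF']
      obtain ⟨s, hs, hs'⟩ := stepA ((F : ℝ ≃o ℝ) z) (AA_apply F hz) (by
        intro m hm
        rw [hFz] at hm
        have h3 : (n:ℝ) - m < 1 := by linarith
        have h4 : (0:ℝ) < n - m := by linarith
        have h5 : n - m < 1 := by exact_mod_cast h3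
        have h6 : 0 < n - m := by exact_mod_cast h4
        omega)
      exact ⟨s * F, S.mul_mem hs (hSx (GI_le_HX (by linarith) ha1 hF)), by
        rw [GG_mul_apply, hs']⟩
  rw [eq_top_iff]
  intro g _
  obtain ⟨s, hs, hs'⟩ := stepB ((g : ℝ ≃o ℝ) x) (AA_apply g hx)
  set g1 := s * g with hg1
  have hg1x : (g1 : ℝ ≃o ℝ) x = x := by rw [hg1, GG_mul_apply, hs']
  obtain ⟨a, ha, ha1, ha2⟩ := exists_AA_between (show y - 1 < x by linarith)
  obtain ⟨b, hb, hb1, hb2⟩ := exists_AA_between h1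
  have hinv : ((g1⁻¹ : ↥GG) : ℝ ≃o ℝ) x = x := GG_inv_apply hg1x
  obtain ⟨c, hc, hc1, hc2⟩ := exists_AA_between (show max a (((g1⁻¹ : ↥GG) : ℝ ≃o ℝ) a) < x from
    max_lt ha2 (by
      calc ((g1⁻¹ : ↥GG) : ℝ ≃o ℝ) a < ((g1⁻¹ : ↥GG) : ℝ ≃o ℝ) x := (OrderIso.strictMono _) ha2
        _ = x := hinv))
  obtain ⟨d, hd, hd1, hd2⟩ := exists_AA_between (show x < min b (((g1⁻¹ : ↥GG) : ℝ ≃o ℝ) b) from
    lt_min hb1 (by
      calc x = ((g1⁻¹ : ↥GG) : ℝ ≃o ℝ) x := hinv.symm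
        _ < ((g1⁻¹ : ↥GG) : ℝ ≃o ℝ) b := (OrderIso.strictMono _) hb1))
  rw [max_lt_iff] at hc1
  rw [lt_min_iff] at hd2
  obtain ⟨h, hh, hh'⟩ := exists_GI_eq (GG_PP g1) ha hb hc hd hc1.1 (by linarith) hd2.1 (by linarith)
    (by
      have := (g1 : ℝ ≃o ℝ).strictMono hc1.2
      rwa [GG_apply_inv] at this)
    (by
      have := (g1 : ℝ ≃o ℝ).strictMono hd2.2
      rwa [GG_apply_inv] at this)
  have hhS : h ∈ S := hSy1 (GI_le_HX (by linarith) ha1 hh)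
  have hrest : h⁻¹ * g1 ∈ S := by
    apply hSx
    rw [mem_HX]
    filter_upwards [Ioo_mem_nhds hc2 hd1] with t ht
    rw [GG_mul_apply]
    exact GG_inv_apply (hh' t ht.1.le ht.2.le)
  have h5 : g = s⁻¹ * (h * (h⁻¹ * g1)) := by rw [hg1]; group
  rw [h5]
  exact S.mul_mem (S.inv_mem hs) (S.mul_mem hhS hrest)

/-- Generation: stabilizers of germs at two points generate together with the translation. -/
theorem gen {S : Subgroup ↥GG} {x y : ℝ} (hx : x ∈ AA) (hy : y ∈ AA) (hxy : ∀ n : ℤ, y ≠ x + n)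
    (hSx : HX x ≤ S) (hSy : HX y ≤ S) (hS : tau ∈ S) : S = ⊤ := by
  obtain ⟨n, hn, hn'⟩ := perf_cell x y
  refine gen_aux hx (y := y + ((-n : ℤ) : ℝ)) (AA.add_mem hy (int_AA _)) ?_ ?_ hSx ?_ hS
  · push_cast
    have := lt_of_le_of_ne hn (fun h => hxy n h.symm)
    linarith
  · push_cast; linarith
  · rw [HX_int]; exact hSy

/-- Cutting an element at a fixed point. -/
lemma cut {w : ↥GG} (hw : w ∈ HX 0) {y : ℝ} (hy : y ∈ AA) (h0 : 0 < y) (h1 : y < 1)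
    (hwy : (w : ℝ ≃o ℝ) y = y) : ∃ w1 ∈ HX 0, ∃ w2 ∈ HX 0, w = w1 * w2 ∧
      (∀ x, 0 ≤ x → x ≤ y → (w1 : ℝ ≃o ℝ) x = x) ∧ (∀ x, y ≤ x → x ≤ 1 → (w2 : ℝ ≃o ℝ) x = x) := by
  have hw0 : (w : ℝ ≃o ℝ) 0 = 0 := by
    rw [mem_HX] at hw
    exact hw.self_of_nhds
  have hw1 : (w : ℝ ≃o ℝ) 1 = 1 := by
    have := GG_per w 0
    rwa [zero_add, hw0, zero_add] at this
  obtain ⟨K1, hK1, e1, e2⟩ := exists_glue PP.one_mem (GG_PP w) hy (by rw [hwy]; rfl)
  obtain ⟨K2, hK2, e3, e4⟩ := exists_glue (GG_PP w) PP.one_mem hy (by rw [hwy]; rfl)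
  have e1' : ∀ x ≤ y, K1 x = x := fun x hx => by rw [e1 x hx]; rfl
  have e4' : ∀ x ≥ y, K2 x = x := fun x hx => by rw [e4 x hx]; rfl
  obtain ⟨w1, hw1'⟩ := exists_per hK1 AA.zero_mem (by
    rw [zero_add, e2 1 h1.le, e1' 0 h0.le, hw1]; ring)
  obtain ⟨w2, hw2'⟩ := exists_per hK2 AA.zero_mem (by
    rw [zero_add, e4' 1 h1.le, e3 0 h0.le, hw0]; ring)
  rw [zero_add] at hw1' hw2'
  have hev : ∀ᶠ t : ℝ in 𝓝 0, (w : ℝ ≃o ℝ) t = t := hw
  have hlt : ∀ᶠ t : ℝ in 𝓝 0, -1 < t ∧ t < y ∧ y - 1 < t := by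
    filter_upwards [Ioo_mem_nhds (show (-1:ℝ) < 0 by norm_num) h0,
      Ioi_mem_nhds (show y - 1 < 0 by linarith)] with t ht ht'
    exact ⟨ht.1, ht.2, ht'⟩
  refine ⟨w1, ?_, w2, ?_, ?_, ?_, ?_⟩
  · rw [mem_HX]
    filter_upwards [hev, hlt] with t ht ⟨ht1, ht2, ht3⟩
    rcases le_total 0 t with h | h
    · rw [hw1' t h (by linarith), e1' t ht2.le]
    · have h3 := hw1' (t + 1) (by linarith) (by linarith)
      rw [e2 (t + 1) (by linarith), GG_per, GG_per, ht] at h3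
      linarith
  · rw [mem_HX]
    filter_upwards [hev, hlt] with t ht ⟨ht1, ht2, ht3⟩
    rcases le_total 0 t with h | h
    · rw [hw2' t h (by linarith), e3 t ht2.le, ht]
    · have h3 := hw2' (t + 1) (by linarith) (by linarith)
      rw [e4' (t + 1) (by linarith), GG_per] at h3
      linarith
  · apply GG_ext_on 0
    intro x hx hx'
    rw [zero_add] at hx'
    rw [GG_mul_apply]
    rcases le_total x y with h | h
    · rw [hw2' x hx hx', e3 x h, hw1' _ ?_ ?_, e1' _ ?_]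
      · calc (w : ℝ ≃o ℝ) x ≤ (w : ℝ ≃o ℝ) y := (w : ℝ ≃o ℝ).monotone h
          _ = y := hwy
      · calc 0 = (w : ℝ ≃o ℝ) 0 := hw0.symm
          _ ≤ _ := (w : ℝ ≃o ℝ).monotone hx
      · calc (w : ℝ ≃o ℝ) x ≤ (w : ℝ ≃o ℝ) 1 := (w : ℝ ≃o ℝ).monotone hx'
          _ = 1 := hw1
    · rw [hw2' x hx hx', e4' x h, hw1' x hx hx', e2 x h]
  · intro x hx hx'
    rw [hw1' x hx (by linarith), e1' x hx']
  · intro x hx hx'
    rw [hw2' x (by linarith) hx', e4' x hx]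

lemma sixth_AA : (1/6:ℝ) ∈ AA := ⟨1, 1, by norm_num⟩
lemma fivesixth_AA : (5/6:ℝ) ∈ AA := ⟨5, 1, by norm_num⟩
lemma twothird_AA : (2/3:ℝ) ∈ AA := ⟨4, 1, by norm_num⟩

lemma exists_gL : ∃ g ∈ HX 0, ∀ x, 1/3 ≤ x → x ≤ 1/2 → (g : ℝ ≃o ℝ) x = 2 * x - 1/3 := by
  obtain ⟨F, hF, hF'⟩ := exists_GI_eq (aff_mem Lam_two (AA.neg_mem third_AA)) sixth_AA fivesixth_AA
    third_AA half_AA (by norm_num) (by norm_num) (by norm_num) (by norm_num)
    (by rw [aff_apply]; norm_num) (by rw [aff_apply]; norm_num)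
  refine ⟨F, GI_le_HX (by norm_num) (by norm_num) hF, fun x hx hx' => ?_⟩
  rw [hF' x hx hx', aff_apply]; ring

lemma exists_gR : ∃ g ∈ HX 0, ∀ x, 1/2 ≤ x → x ≤ 2/3 → (g : ℝ ≃o ℝ) x = 2 * x - 2/3 := by
  obtain ⟨F, hF, hF'⟩ := exists_GI_eq (aff_mem Lam_two (AA.neg_mem twothird_AA)) sixth_AA
    fivesixth_AA half_AA twothird_AA (by norm_num) (by norm_num) (by norm_num) (by norm_num)
    (by rw [aff_apply]; norm_num) (by rw [aff_apply]; norm_num)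
  refine ⟨F, GI_le_HX (by norm_num) (by norm_num) hF, fun x hx hx' => ?_⟩
  rw [hF' x hx hx', aff_apply]; ring

end Pool.Agent.V8H70.TS
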