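import Pool.Agent.V8H70.TS.Interp

/-!
# Perfectness of the group of compactly supported piecewise linear homeomorphisms
-/

set_option autoImplicit false

open Set Filter Topology

namespace Pool.Agent.V8H70.TS

/-- the quotient by the commutators of compactly supported elements -/
abbrev QQ : Type := ↥PP ⧸ (⁅Pc, Pc⁆ : Subgroup ↥PP)

/-- the quotient map -/
def q : ↥PP →* QQ := QuotientGroup.mk' _

lemma q_eq_one {f : ↥PP} : q f = 1 ↔ f ∈ (⁅Pc, Pc⁆ : Subgroup ↥PP) := QuotientGroup.eq_one_iff f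

lemma q_central (f : ↥PP) {k : ↥PP} (hk : k ∈ Pc) : q f * q k = q k * q f := by
  have := q_eq_one.2 (central f hk)
  rw [map_mul, map_mul, map_mul, map_inv, map_inv] at this
  rw [mul_inv_eq_one, mul_inv_eq_iff_eq_mul] at this
  exact this

lemma q_conj (f : ↥PP) {k : ↥PP} (hk : k ∈ Pc) : q (f * k * f⁻¹) = q k := by
  rw [map_mul, map_mul, map_inv, q_central f hk, mul_inv_cancel_right]

/-- smooth natural numbers -/
inductive Sm : ℕ → Prop
  | one : Sm 1
  | two {K : ℕ} : Sm K → Sm (2 * K)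
  | three {K : ℕ} : Sm K → Sm (3 * K)

lemma Sm_pos {K : ℕ} (h : Sm K) : 1 ≤ K := by
  induction h with
  | one => exact le_rfl
  | two _ ih => omega
  | three _ ih => omega

lemma Sm_Lam {K : ℕ} (h : Sm K) : (K : ℝ) ∈ Lam := by
  induction h with
  | one => simpa using Lam_one
  | two _ ih => push_cast; exact Lam_mul Lam_two ih
  | three _ ih => push_cast; exact Lam_mul Lam_three ih

lemma Sm_two : Sm 2 := Sm.two Sm.one
lemma Sm_three : Sm 3 := Sm.three Sm.one

lemma Sm_pow (a b : ℕ) : Sm (2 ^ a * 3 ^ b) := by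
  induction a with
  | zero =>
    induction b with
    | zero => exact Sm.one
    | succ b ih => have := Sm.three ih; convert this using 1; ring
  | succ a ih => have := Sm.two ih; convert this using 1; ring

lemma eventually_Sm {l : ℝ} (hl : l ∈ Lam) : ∀ᶠ k : ℕ in atTop, ∃ K : ℕ, Sm K ∧ 6 ^ k * l = K := by
  obtain ⟨a, b, rfl⟩ := hl
  filter_upwards [eventually_ge_atTop (a.natAbs + b.natAbs)] with k hk
  refine ⟨2 ^ ((k:ℤ) + a).toNat * 3 ^ ((k:ℤ) + b).toNat, Sm_pow _ _, ?_⟩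
  have h1 : (((k:ℤ) + a).toNat : ℤ) = k + a := by omega
  have h2 : (((k:ℤ) + b).toNat : ℤ) = k + b := by omega
  push_cast
  rw [← zpow_natCast (2:ℝ), ← zpow_natCast (3:ℝ), h1, h2, zpow_add₀ two_ne_zero,
    zpow_add₀ three_ne_zero, zpow_natCast, zpow_natCast, show (6:ℝ) = 2 * 3 by norm_num, mul_pow]
  ring

/-- stretching maps with integer data -/
noncomputable def UU (c : ℤ) (K : ℕ) (hK : Sm K) : ↥PP :=
  ⟨U c K (Lam_pos (Sm_Lam hK)), U_mem (int_AA c) (Sm_Lam hK)⟩

lemma UU_le {c : ℤ} {K : ℕ} (hK : Sm K) {x : ℝ} (hx : x ≤ c) :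
    (UU c K hK : ℝ ≃o ℝ) x = x := U_le _ hx
lemma UU_mid {c : ℤ} {K : ℕ} (hK : Sm K) {x : ℝ} (hx : (c:ℝ) ≤ x) (hx' : x ≤ c + 1) :
    (UU c K hK : ℝ ≃o ℝ) x = c + K * (x - c) := U_mid _ hx hx'
lemma UU_ge {c : ℤ} {K : ℕ} (hK : Sm K) {x : ℝ} (hx : (c:ℝ) + 1 ≤ x) :
    (UU c K hK : ℝ ≃o ℝ) x = x + (K - 1) := U_ge _ hx

/-- translation by an integer -/
noncomputable def tz (c : ℤ) : ↥PP := ⟨tr c, tr_mem (int_AA c)⟩

lemma tz_apply (c : ℤ) (x : ℝ) : (tz c : ℝ ≃o ℝ) x = x + c := tr_apply _ _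

lemma PP_ext {f g : ↥PP} (h : ∀ x, (f : ℝ ≃o ℝ) x = (g : ℝ ≃o ℝ) x) : f = g :=
  Subtype.ext (RelIso.ext h)

lemma PP_mul_apply (f g : ↥PP) (x : ℝ) :
    ((f * g : ↥PP) : ℝ ≃o ℝ) x = (f : ℝ ≃o ℝ) ((g : ℝ ≃o ℝ) x) := rfl

lemma conj_UU (k c : ℤ) {K : ℕ} (hK : Sm K) : tz k * UU c K hK * (tz k)⁻¹ = UU (c + k) K hK := by
  rw [mul_inv_eq_iff_eq_mul]
  apply PP_ext
  intro x
  rw [PP_mul_apply, PP_mul_apply, tz_apply, tz_apply]
  rcases le_total x c with hx | hx
  · rw [UU_le hK hx, UU_le hK (by push_cast; linarith)]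
  rcases le_total x (c + 1) with hx' | hx'
  · rw [UU_mid hK hx hx', UU_mid hK (by push_cast; linarith) (by push_cast; linarith)]
    push_cast; ring
  · rw [UU_ge hK hx', UU_ge hK (by push_cast; linarith)]; ring

lemma rel_E : UU 0 2 Sm_two * UU 1 2 Sm_two = UU 2 2 Sm_two * UU 0 2 Sm_two := by
  apply PP_ext
  intro x
  rw [PP_mul_apply, PP_mul_apply]
  rcases le_total x 0 with h0 | h0
  · rw [UU_le _ (x := x) (c := 1) (by push_cast; linarith), UU_le _ (x := x) (c := 0) (by simpa),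
      UU_le _ (by push_cast; linarith)]
  rcases le_total x 1 with h1 | h1
  · rw [UU_le _ (x := x) (c := 1) (by push_cast; linarith),
      UU_mid _ (x := x) (c := 0) (by simpa) (by push_cast; linarith),
      UU_le _ (by push_cast; linarith)]
  rcases le_total x 2 with h2 | h2
  · rw [UU_mid _ (x := x) (c := 1) (by push_cast; linarith) (by push_cast; linarith),
      UU_ge _ (c := 0) (x := x) (by push_cast; linarith),
      UU_ge _ (by push_cast; linarith), UU_mid _ (by push_cast; linarith) (by push_cast; linarith)]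
    push_cast; ring
  · rw [UU_ge _ (x := x) (c := 1) (by push_cast; linarith),
      UU_ge _ (c := 0) (x := x) (by push_cast; linarith),
      UU_ge _ (by push_cast; linarith), UU_ge _ (by push_cast; linarith)]

lemma rel_T : UU 3 3 Sm_three * UU 0 3 Sm_three * UU 0 2 Sm_two =
    UU 4 2 Sm_two * UU 2 2 Sm_two * UU 0 2 Sm_two * UU 0 3 Sm_three := by
  apply PP_ext
  intro x
  simp only [PP_mul_apply]
  rcases le_total x 0 with h0 | h0
  · rw [UU_le Sm_two (x := x) (c := 0) (by simpa), UU_le Sm_three (x := x) (c := 0) (by simpa),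
      UU_le Sm_two (x := x) (c := 0) (by simpa), UU_le Sm_three (x := x) (c := 3) (by push_cast; linarith),
      UU_le Sm_two (x := x) (c := 2) (by push_cast; linarith),
      UU_le Sm_two (x := x) (c := 4) (by push_cast; linarith)]
  rcases le_total x 1 with h1 | h1
  · rw [UU_mid Sm_two (x := x) (c := 0) (by simpa) (by push_cast; linarith),
      UU_mid Sm_three (x := x) (c := 0) (by simpa) (by push_cast; linarith)]
    rcases le_total x (1/3) with h2 | h2
    · rw [UU_mid Sm_three (c := 0) (by push_cast; linarith) (by push_cast; linarith),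
        UU_le Sm_three (by push_cast; linarith),
        UU_mid Sm_two (c := 0) (by push_cast; linarith) (by push_cast; linarith),
        UU_le Sm_two (c := 2) (by push_cast; linarith),
        UU_le Sm_two (c := 4) (by push_cast; linarith)]
      push_cast; ring
    rcases le_total x (2/3) with h3 | h3
    · rw [UU_ge Sm_two (c := 0) (by push_cast; linarith),
        UU_mid Sm_two (c := 2) (by push_cast; linarith) (by push_cast; linarith),
        UU_le Sm_two (by push_cast; linarith)]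
      rcases le_total x (1/2) with h4 | h4
      · rw [UU_mid Sm_three (c := 0) (by push_cast; linarith) (by push_cast; linarith),
          UU_le Sm_three (by push_cast; linarith)]
        push_cast; ring
      · rw [UU_ge Sm_three (c := 0) (by push_cast; linarith),
          UU_mid Sm_three (by push_cast; linarith) (by push_cast; linarith)]
        push_cast; ring
    · rw [UU_ge Sm_two (c := 0) (by push_cast; linarith),
        UU_ge Sm_two (c := 2) (by push_cast; linarith),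
        UU_mid Sm_two (by push_cast; linarith) (by push_cast; linarith),
        UU_ge Sm_three (c := 0) (by push_cast; linarith),
        UU_mid Sm_three (by push_cast; linarith) (by push_cast; linarith)]
      push_cast; ring
  · rw [UU_ge Sm_two (x := x) (c := 0) (by push_cast; linarith),
      UU_ge Sm_three (c := 0) (x := x) (by push_cast; linarith),
      UU_ge Sm_three (c := 0) (by push_cast; linarith), UU_ge Sm_three (by push_cast; linarith),
      UU_ge Sm_two (c := 0) (by push_cast; linarith), UU_ge Sm_two (c := 2) (by push_cast; linarith),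
      UU_ge Sm_two (c := 4) (by push_cast; linarith)]
    push_cast; ring

lemma rel_two (c : ℤ) {K : ℕ} (hK : Sm K) :
    UU c (2 * K) (Sm.two hK) = UU (c + K) K hK * UU c K hK * UU c 2 Sm_two := by
  have hK1 : (1:ℝ) ≤ K := by exact_mod_cast Sm_pos hK
  apply PP_ext
  intro x
  simp only [PP_mul_apply]
  rcases le_total x c with h0 | h0
  · rw [UU_le _ h0, UU_le _ h0, UU_le _ h0, UU_le _ (by push_cast; linarith)]
  rcases le_total x (c + 1) with h1 | h1
  · rw [UU_mid _ h0 h1, UU_mid _ h0 h1]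
    rcases le_total x (c + 1/2) with h2 | h2
    · rw [UU_mid hK (c := c) (by push_cast; linarith) (by push_cast; linarith),
        UU_le _ (by push_cast; nlinarith)]
      push_cast; ring
    · rw [UU_ge hK (c := c) (by push_cast; linarith),
        UU_mid _ (by push_cast; linarith) (by push_cast; linarith)]
      push_cast; ring
  · rw [UU_ge _ h1, UU_ge _ h1, UU_ge hK (c := c) (by push_cast; linarith),
      UU_ge _ (by push_cast; linarith)]
    push_cast; ring

lemma rel_three (c : ℤ) {K : ℕ} (hK : Sm K) :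
    UU c (3 * K) (Sm.three hK) =
      UU (c + 2 * K) K hK * UU (c + K) K hK * UU c K hK * UU c 3 Sm_three := by
  have hK1 : (1:ℝ) ≤ K := by exact_mod_cast Sm_pos hK
  apply PP_ext
  intro x
  simp only [PP_mul_apply]
  rcases le_total x c with h0 | h0
  · rw [UU_le _ h0, UU_le _ h0, UU_le _ h0, UU_le hK (c := c + K) (by push_cast; linarith),
      UU_le hK (c := c + 2 * K) (by push_cast; linarith)]
  rcases le_total x (c + 1) with h1 | h1
  · rw [UU_mid _ h0 h1, UU_mid _ h0 h1]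
    rcases le_total x (c + 1/3) with h2 | h2
    · rw [UU_mid hK (c := c) (by push_cast; linarith) (by push_cast; linarith),
        UU_le hK (c := c + K) (by push_cast; nlinarith),
        UU_le hK (c := c + 2 * K) (by push_cast; nlinarith)]
      push_cast; ring
    rcases le_total x (c + 2/3) with h3 | h3
    · rw [UU_ge hK (c := c) (by push_cast; linarith),
        UU_mid hK (c := c + K) (by push_cast; linarith) (by push_cast; linarith),
        UU_le hK (c := c + 2 * K) (by push_cast; nlinarith)]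
      push_cast; ring
    · rw [UU_ge hK (c := c) (by push_cast; linarith),
        UU_ge hK (c := c + K) (by push_cast; linarith),
        UU_mid hK (c := c + 2 * K) (by push_cast; linarith) (by push_cast; linarith)]
      push_cast; ring
  · rw [UU_ge _ h1, UU_ge _ h1, UU_ge hK (c := c) (by push_cast; linarith),
      UU_ge hK (c := c + K) (by push_cast; linarith),
      UU_ge hK (c := c + 2 * K) (by push_cast; linarith)]
    push_cast; ring

lemma UU_diff_Pc (c : ℤ) : UU c 2 Sm_two * (UU (c + 1) 2 Sm_two)⁻¹ ∈ Pc := by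
  apply PI_le_Pc (c:ℝ) ((c:ℝ) + 3)
  intro x hx
  obtain ⟨y, rfl⟩ := (UU (c + 1) 2 Sm_two : ℝ ≃o ℝ).surjective x
  rw [PP_mul_apply, Subgroup.coe_inv, inv_apply_self']
  rcases hx with hx | hx
  · have hy : y ≤ c := by
      by_contra hcon
      push Not at hcon
      have h1 : (UU (c + 1) 2 Sm_two : ℝ ≃o ℝ) (c:ℝ) < (UU (c + 1) 2 Sm_two : ℝ ≃o ℝ) y :=
        (UU (c + 1) 2 Sm_two : ℝ ≃o ℝ).strictMono hcon
      rw [UU_le _ (x := (c:ℝ)) (by push_cast; linarith)] at h1
      linarith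
    rw [UU_le _ hy, UU_le _ (by push_cast; linarith)]
  · have hy : (c:ℝ) + 2 ≤ y := by
      by_contra hcon
      push Not at hcon
      have h1 : (UU (c + 1) 2 Sm_two : ℝ ≃o ℝ) y < (UU (c + 1) 2 Sm_two : ℝ ≃o ℝ) ((c:ℝ) + 2) :=
        (UU (c + 1) 2 Sm_two : ℝ ≃o ℝ).strictMono hcon
      rw [UU_ge _ (x := (c:ℝ) + 2) (by push_cast; linarith)] at h1
      push_cast at h1
      linarith
    rw [UU_ge _ (c := c) (by linarith), UU_ge _ (by push_cast; linarith)]

lemma UU_diff3_Pc (c : ℤ) :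
    UU c 3 Sm_three * (UU (c + 1) 2 Sm_two * UU c 2 Sm_two)⁻¹ ∈ Pc := by
  apply PI_le_Pc (c:ℝ) ((c:ℝ) + 3)
  intro x hx
  obtain ⟨y, rfl⟩ := ((UU (c + 1) 2 Sm_two * UU c 2 Sm_two : ↥PP) : ℝ ≃o ℝ).surjective x
  have h0 : ((UU (c + 1) 2 Sm_two * UU c 2 Sm_two : ↥PP) : ℝ ≃o ℝ) (c:ℝ) = c := by
    rw [PP_mul_apply, UU_le _ le_rfl, UU_le _ (by push_cast; linarith)]
  have h3 : ((UU (c + 1) 2 Sm_two * UU c 2 Sm_two : ↥PP) : ℝ ≃o ℝ) ((c:ℝ) + 1) = c + 3 := by
    rw [PP_mul_apply, UU_ge _ le_rfl, UU_ge _ (by push_cast; linarith)]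
    push_cast; ring
  rw [PP_mul_apply, Subgroup.coe_inv, inv_apply_self']
  rcases hx with hx | hx
  · have hy : y ≤ c := by
      rw [← ((UU (c + 1) 2 Sm_two * UU c 2 Sm_two : ↥PP) : ℝ ≃o ℝ).le_iff_le, h0]; exact hx
    rw [PP_mul_apply, UU_le _ hy, UU_le _ hy, UU_le _ (by push_cast; linarith)]
  · have hy : (c:ℝ) + 1 ≤ y := by
      rw [← ((UU (c + 1) 2 Sm_two * UU c 2 Sm_two : ↥PP) : ℝ ≃o ℝ).le_iff_le, h3]; exact hx
    rw [PP_mul_apply, UU_ge _ hy, UU_ge _ hy, UU_ge _ (by push_cast; linarith)]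
    push_cast; ring

/-- the class of a doubling map -/
noncomputable def ee : QQ := q (UU 1 2 Sm_two)

lemma q_E (c : ℤ) : q (UU c 2 Sm_two) = ee := by
  have h1 : q (UU 2 2 Sm_two) = q (UU 1 2 Sm_two) := by
    have h2 : UU 2 2 Sm_two = UU 0 2 Sm_two * UU 1 2 Sm_two * (UU 0 2 Sm_two)⁻¹ := by
      rw [rel_E, mul_inv_cancel_right]
    have hc := UU_diff_Pc 0
    set a := UU 0 2 Sm_two * (UU (0 + 1) 2 Sm_two)⁻¹ with ha
    have h3 : UU 0 2 Sm_two = a * UU 1 2 Sm_two := by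
      rw [ha]; simp
    have h4 := q_central (UU 1 2 Sm_two) hc
    rw [h2, h3]
    simp only [map_mul, map_inv, mul_inv_rev]
    rw [← h4]
    group
  have h5 : ∀ k : ℤ, q (UU (2 + k) 2 Sm_two) = q (UU (1 + k) 2 Sm_two) := by
    intro k
    rw [← conj_UU, ← conj_UU, map_mul, map_mul, map_mul, map_mul, h1]
  have h6 : ∀ k : ℤ, q (UU (k + 1) 2 Sm_two) = q (UU k 2 Sm_two) := by
    intro k
    have := h5 (k - 1)
    rw [show 2 + (k - 1) = k + 1 by ring, show 1 + (k - 1) = k by ring] at this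
    exact this
  unfold ee
  induction c using Int.induction_on with
  | zero => exact (h6 0).symm
  | succ n ih => rw [h6, ih]
  | pred n ih =>
    have := h6 (-(n:ℤ) - 1)
    rw [sub_add_cancel] at this
    rw [← this, ih]

lemma q_T (c : ℤ) : q (UU c 3 Sm_three) = ee ^ 2 := by
  set z : ℤ → ↥PP := fun c => UU c 3 Sm_three * (UU (c + 1) 2 Sm_two * UU c 2 Sm_two)⁻¹ with hz
  have hzc : ∀ c, z c ∈ Pc := UU_diff3_Pc
  have h1 : ∀ c, q (UU c 3 Sm_three) = q (z c) * ee ^ 2 := by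
    intro c
    rw [hz]
    simp only [map_mul, map_inv, q_E]
    rw [pow_two, inv_mul_cancel_right]
  have h2 : ∀ c, q (z c) = q (z 0) := by
    intro c
    have : z c = tz c * z 0 * (tz c)⁻¹ := by
      have e1 := conj_UU c 0 Sm_three
      have e2 := conj_UU c (0 + 1) Sm_two
      have e3 := conj_UU c 0 Sm_two
      rw [zero_add] at e1 e3
      rw [show (0:ℤ) + 1 + c = c + 1 by ring] at e2
      simp only [hz]
      rw [← e1, ← e2, ← e3]
      group
    rw [this, q_conj _ (hzc 0)]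
  have h3 := congrArg q rel_T
  simp only [map_mul, q_E, h1, h2] at h3
  have h4 : q (z 0) * ee = ee * q (z 0) := by
    have := q_central (UU 1 2 Sm_two) (hzc 0)
    exact this.symm
  have h5 : q (z 0) = 1 := by
    set w := q (z 0)
    have hc : Commute w ee := h4
    have h6 : w * ee ^ 2 * (w * ee ^ 2) * ee = w * (w * ee ^ 5) := by
      have := (hc.pow_right 2).eq
      calc w * ee ^ 2 * (w * ee ^ 2) * ee = w * (ee ^ 2 * w) * ee ^ 2 * ee := by group
        _ = w * (w * ee ^ 2) * ee ^ 2 * ee := by rw [this]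
        _ = w * (w * ee ^ 5) := by group
    have h7 : ee * ee * ee * (w * ee ^ 2) = w * ee ^ 5 := by
      have := (hc.pow_right 3).eq
      calc ee * ee * ee * (w * ee ^ 2) = (ee ^ 3 * w) * ee ^ 2 := by
            rw [show ee ^ 3 = ee * ee * ee by rw [pow_succ, pow_two]]; group
        _ = (w * ee ^ 3) * ee ^ 2 := by rw [this]
        _ = w * ee ^ 5 := by group
    rw [h6, h7] at h3
    exact mul_eq_right.1 h3
  rw [h1, h2, h5, one_mul]

lemma q_UU {K : ℕ} (hK : Sm K) : ∀ c : ℤ, q (UU c K hK) = ee ^ (K - 1) := by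
  induction hK with
  | one =>
    intro c
    have : UU c 1 Sm.one = 1 := by
      apply PP_ext
      intro x
      change (UU c 1 Sm.one : ℝ ≃o ℝ) x = x
      rcases le_total x c with hx | hx
      · rw [UU_le _ hx]
      rcases le_total x (c + 1) with hx' | hx'
      · rw [UU_mid _ hx hx']; push_cast; ring
      · rw [UU_ge _ hx']; push_cast; ring
    rw [this, map_one]; simp
  | @two K hK ih =>
    intro c
    have := Sm_pos hK
    rw [rel_two c hK, map_mul, map_mul, ih, ih, q_E, ← pow_add, ← pow_succ]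
    congr 1; omega
  | @three K hK ih =>
    intro c
    have := Sm_pos hK
    rw [rel_three c hK, map_mul, map_mul, map_mul, ih, ih, ih, q_T, ← pow_add, ← pow_add, ← pow_add]
    congr 1; omega

/-- integer expanding maps -/
def IsExp (f : ℝ → ℝ) (n : ℕ) : Prop :=
  (∀ x ≤ 0, f x = x) ∧
  (∀ j : ℕ, j < n → ∃ K : ℕ, Sm K ∧ ∀ x, (j:ℝ) ≤ x → x ≤ j + 1 → f x = f j + K * (x - j)) ∧
  ∀ x ≥ (n:ℝ), f x = x - n + f n

lemma IsExp_q (n : ℕ) : ∀ (f : ↥PP), IsExp (f : ℝ ≃o ℝ) n →
    ∃ m : ℕ, (f : ℝ ≃o ℝ) n = n + m ∧ q f = ee ^ m := by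
  induction n with
  | zero =>
    intro f hf
    have hf1 : f = 1 := by
      apply PP_ext
      intro x
      change (f : ℝ ≃o ℝ) x = x
      rcases le_total x 0 with hx | hx
      · exact hf.1 x hx
      · have h0 := hf.2.2 x (by simpa using hx)
        have h1 := hf.1 0 le_rfl
        rw [h0]; push_cast; rw [h1]; ring
    refine ⟨0, ?_, by rw [hf1]; simp⟩
    rw [hf1]; simp
  | succ n ih =>
    intro f hf
    obtain ⟨K, hK, hKf⟩ := hf.2.1 n (Nat.lt_succ_self n)
    have hfn : (f : ℝ ≃o ℝ) n ∈ AA := PP.map_AA f.2 (nat_AA n)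
    obtain ⟨g, hg, hg1, hg2⟩ := exists_glue f.2 (tr_mem (AA.sub_mem hfn (nat_AA n)))
      (nat_AA n) (by rw [tr_apply]; ring)
    have hgE : IsExp ((⟨g, hg⟩ : ↥PP) : ℝ ≃o ℝ) n := by
      refine ⟨fun x hx => ?_, fun j hj => ?_, fun x hx => ?_⟩
      · change g x = x
        rw [hg1 x (hx.trans n.cast_nonneg), hf.1 x hx]
      · obtain ⟨K', hK', hK'f⟩ := hf.2.1 j (hj.trans (Nat.lt_succ_self n))
        have hjn : (j:ℝ) + 1 ≤ n := by exact_mod_cast hj
        refine ⟨K', hK', fun x hx hx' => ?_⟩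
        change g x = g j + _
        rw [hg1 x (by linarith), hg1 j (by linarith), hK'f x hx hx']
      · change g x = x - n + g n
        rw [hg2 x hx, hg1 n le_rfl, tr_apply]; ring
    obtain ⟨m, hm, hqm⟩ := ih ⟨g, hg⟩ hgE
    have hfm : (f : ℝ ≃o ℝ) n = n + m := by rw [← hm]; exact (hg1 n le_rfl).symm
    have hKpos := Sm_pos hK
    have heq : f = UU ((n:ℤ) + m) K hK * ⟨g, hg⟩ := by
      apply PP_ext
      intro x
      rw [PP_mul_apply]
      change _ = (UU ((n:ℤ) + m) K hK : ℝ ≃o ℝ) (g x)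
      rcases le_total x n with hx | hx
      · rw [hg1 x hx, UU_le]
        push_cast
        rw [← hfm]
        exact (f : ℝ ≃o ℝ).monotone hx
      · rw [hg2 x hx, tr_apply, hfm]
        rcases le_total x (n + 1) with hx' | hx'
        · rw [UU_mid _ (by push_cast; linarith) (by push_cast; linarith), hKf x hx hx', hfm]
          push_cast; ring
        · rw [UU_ge _ (by push_cast; linarith), hf.2.2 x (by push_cast; linarith)]
          push_cast
          rw [hKf (n + 1) (by linarith) le_rfl, hfm]; ring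
    refine ⟨m + (K - 1), ?_, ?_⟩
    · push_cast [Nat.cast_sub hKpos]
      rw [hKf (n + 1) (by linarith) le_rfl, hfm]; ring
    · rw [heq, map_mul, q_UU, hqm, ← pow_add, add_comm]

/-! ### The grid -/

/-- `F` is affine on all the cells of the `6^-k` grid which meet `S` -/
def GridOn (F : ℝ → ℝ) (k : ℕ) (S : Set ℝ) : Prop :=
  ∀ j : ℤ, (Icc ((j:ℝ) / 6 ^ k) ((j + 1) / 6 ^ k) ∩ S).Nonempty →
    ∃ l ∈ Lam, ∀ x, (j:ℝ) / 6 ^ k ≤ x → x ≤ (j + 1) / 6 ^ k →
      F x = F (j / 6 ^ k) + l * (x - j / 6 ^ k)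

lemma grid {F : ℝ ≃o ℝ} (hF : F ∈ PP) (a b : ℝ) : ∀ᶠ k : ℕ in atTop, GridOn F k (Icc a b) := by
  refine IsCompact.induction_on (p := fun S => ∀ᶠ k : ℕ in atTop, GridOn F k S) isCompact_Icc
    ?_ ?_ ?_ ?_
  · refine Eventually.of_forall fun k j hj => ?_
    simp at hj
  · intro s t hst ht
    filter_upwards [ht] with k hk j hj
    exact hk j (hj.mono (inter_subset_inter_right _ hst))
  · intro s t hs ht
    filter_upwards [hs, ht] with k hk hk' j hj
    rw [inter_union_distrib_left, union_nonempty] at hj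
    exact hj.elim (hk j) (hk' j)
  · intro x _
    obtain ⟨l, hl, m, hm, h1, h2, h3, -⟩ := hF x
    obtain ⟨e, he, h1⟩ := RG_iff.1 h1
    obtain ⟨e', he', h2⟩ := LG_iff.1 h2
    set d := min e e' with hd
    have hdpos : 0 < d := lt_min he he'
    have hde : d ≤ e := min_le_left _ _
    have hde' : d ≤ e' := min_le_right _ _
    refine ⟨Ioo (x - d/2) (x + d/2), mem_nhdsWithin_of_mem_nhds
      (Ioo_mem_nhds (by linarith) (by linarith)), ?_⟩
    have hlim : Tendsto (fun k : ℕ => ((1:ℝ)/6) ^ k) atTop (𝓝 0) :=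
      tendsto_pow_atTop_nhds_zero_of_lt_one (by norm_num) (by norm_num)
    have hev := hlim.eventually (gt_mem_nhds (show (0:ℝ) < d / 2 by linarith))
    have hA : ∀ᶠ k : ℕ in atTop, x ∈ AA → ∃ i : ℤ, x = i / 6 ^ k := by
      by_cases hx : x ∈ AA
      · obtain ⟨m, k, hk⟩ := hx
        filter_upwards [eventually_ge_atTop k] with k' hk' _
        refine ⟨m * 6 ^ (k' - k), ?_⟩
        rw [eq_div_iff (by positivity)]
        push_cast
        rw [← hk, mul_assoc, ← pow_add]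
        congr 2; omega
      · exact Eventually.of_forall fun k h => absurd h hx
    filter_upwards [hev, hA] with k hk hA j hj
    obtain ⟨y, ⟨hy1, hy2⟩, hy3, hy4⟩ := hj
    have h6 : (0:ℝ) < 6 ^ k := by positivity
    have hcell : ((j:ℝ) + 1) / 6 ^ k = j / 6 ^ k + (1/6) ^ k := by
      rw [add_div, one_div_pow]
    rw [hcell] at hy2 ⊢
    set p := (j:ℝ) / 6 ^ k with hp
    set r := ((1:ℝ)/6) ^ k with hr
    have hrpos : 0 < r := by positivity
    by_cases hx : x ∈ AA
    · obtain ⟨i, hi⟩ := hA hx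
      rcases lt_or_ge j i with hji | hji
      · have : p + r ≤ x := by
          rw [← hcell, hi]
          have : (j:ℝ) + 1 ≤ i := by exact_mod_cast hji
          gcongr
        refine ⟨m, hm, fun z hz hz' => ?_⟩
        rw [h2 z (by linarith) (by linarith), h2 p (by linarith) (by linarith)]; ring
      · have : x ≤ p := by
          rw [hi, hp]
          have : (i:ℝ) ≤ j := by exact_mod_cast hji
          gcongr
        refine ⟨l, hl, fun z hz hz' => ?_⟩
        rw [h1 z (by linarith) (by linarith), h1 p (by linarith) (by linarith)]; ring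
    · have hlm := h3 hx
      have key : ∀ z, x - d < z → z < x + d → F z = F x + l * (z - x) := by
        intro z hz hz'
        rcases le_total x z with h | h
        · exact h1 z h (by linarith)
        · rw [hlm]; exact h2 z h (by linarith)
      refine ⟨l, hl, fun z hz hz' => ?_⟩
      rw [key z (by linarith) (by linarith), key p (by linarith) (by linarith)]; ring

/-- expanding `[0,n]` by `6^l` -/
lemma exists_Theta (n l : ℕ) : ∃ T : ↥PP, (∀ x : ℝ, x ≤ 0 → (T : ℝ ≃o ℝ) x = x) ∧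
    (∀ x : ℝ, 0 ≤ x → x ≤ n → (T : ℝ ≃o ℝ) x = 6 ^ l * x) ∧
    (∀ x ≥ (n:ℝ), (T : ℝ ≃o ℝ) x = x - n + 6 ^ l * n) := by
  have h6 : (6:ℝ) ^ l ∈ Lam := Lam_pow Lam_six l
  obtain ⟨g, hg, hg1, hg2⟩ := exists_glue PP.one_mem (aff_mem h6 AA.zero_mem) AA.zero_mem
    (by rw [aff_apply]; simp)
  have hc : (6:ℝ) ^ l * n - n ∈ AA := AA.sub_mem (AA.mul_mem (Lam_AA h6) (nat_AA n)) (nat_AA n)
  obtain ⟨T, hT, hT1, hT2⟩ := exists_glue hg (tr_mem hc) (nat_AA n)
    (by rw [hg2 _ n.cast_nonneg, aff_apply, tr_apply]; ring)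
  refine ⟨⟨T, hT⟩, fun x hx => ?_, fun x hx hx' => ?_, fun x hx => ?_⟩
  · change T x = x
    rw [hT1 x (hx.trans n.cast_nonneg), hg1 x hx]; rfl
  · change T x = _
    rw [hT1 x hx', hg2 x hx, aff_apply, add_zero]
  · change T x = _
    rw [hT2 x hx, tr_apply]; ring

/-- **Perfectness**: every compactly supported element is a product of commutators. -/
theorem perfect {f : ↥PP} (hf : f ∈ Pc) : f ∈ (⁅Pc, Pc⁆ : Subgroup ↥PP) := by
  rw [← q_eq_one]
  obtain ⟨R, hR⟩ := hf
  obtain ⟨M, hM⟩ : ∃ M : ℕ, R < M := exists_nat_gt R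
  have hfM : f ∈ PI (-(M:ℝ)) M := PI_mono (by linarith) hM.le hR
  -- translate
  have h1 := conj_PI hfM (tz M)
  rw [tz_apply, tz_apply] at h1
  set f1 := tz M * f * (tz M)⁻¹ with hf1
  have hq1 : q f1 = q f := q_conj _ ⟨R, hR⟩
  have h1' : f1 ∈ PI 0 (2 * M) := by
    refine PI_mono ?_ ?_ h1
    · push_cast; linarith
    · push_cast; linarith
  obtain ⟨k, hk⟩ := (grid f1.2 0 (2 * M)).exists
  have h6 : (6:ℝ) ^ k ∈ Lam := Lam_pow Lam_six k
  have h6p : (0:ℝ) < 6 ^ k := Lam_pos h6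
  set s : ↥PP := ⟨aff (6 ^ k) 0 h6p, aff_mem h6 AA.zero_mem⟩ with hs
  have hsx : ∀ x, (s : ℝ ≃o ℝ) x = 6 ^ k * x := fun x => by
    change aff (6 ^ k) 0 h6p x = _
    rw [aff_apply, add_zero]
  have h2 := conj_PI h1' s
  rw [hsx, hsx] at h2
  set f2 := s * f1 * s⁻¹ with hf2
  have hq2 : q f2 = q f := by rw [← hq1]; exact q_conj _ (PI_le_Pc _ _ h1')
  have hf2x : ∀ x, (f2 : ℝ ≃o ℝ) x = 6 ^ k * (f1 : ℝ ≃o ℝ) (x / 6 ^ k) := by
    intro x
    rw [hf2, PP_mul_apply, PP_mul_apply, hsx]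
    congr 2
    rw [Subgroup.coe_inv]
    apply inv_apply_eq
    rw [hsx]; field_simp
  obtain ⟨n, hn⟩ : ∃ n : ℕ, (n:ℝ) = 6 ^ k * (2 * M) := ⟨6 ^ k * (2 * M), by push_cast; ring⟩
  rw [← hn, mul_zero] at h2
  -- slopes
  have hsl : ∀ j : ℕ, j < n → ∃ l ∈ Lam, ∀ x, (j:ℝ) ≤ x → x ≤ j + 1 →
      (f2 : ℝ ≃o ℝ) x = (f2 : ℝ ≃o ℝ) j + l * (x - j) := by
    intro j hj
    have hjn : (j:ℝ) + 1 ≤ n := by exact_mod_cast hj
    obtain ⟨l, hl, hlx⟩ := hk j ⟨(j:ℝ) / 6 ^ k, by
      refine ⟨⟨by push_cast; exact le_rfl, by push_cast; gcongr; linarith⟩, by positivity, ?_⟩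
      rw [div_le_iff₀ h6p]; linarith⟩
    refine ⟨l, hl, fun x hx hx' => ?_⟩
    push_cast at hlx
    rw [hf2x, hf2x, hlx (x / 6 ^ k) (by gcongr) (by gcongr)]
    field_simp
  clear_value f2
  choose! l hl hlx using hsl
  have hev : ∀ᶠ r : ℕ in atTop, ∀ j ∈ Finset.range n, ∃ K : ℕ, Sm K ∧ 6 ^ r * l j = K := by
    rw [eventually_all_finset]
    intro j hj
    exact eventually_Sm (hl j (Finset.mem_range.1 hj))
  obtain ⟨r, hr⟩ := hev.exists
  obtain ⟨T, hT1, hT2, hT3⟩ := exists_Theta n r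
  have hSm6 : Sm (6 ^ r) := by
    have := Sm_pow r r
    rwa [← mul_pow] at this
  have hTE : IsExp (T : ℝ ≃o ℝ) n := by
    refine ⟨hT1, fun j hj => ⟨6 ^ r, hSm6, fun x hx hx' => ?_⟩, fun x hx => ?_⟩
    · have hjn : (j:ℝ) + 1 ≤ n := by exact_mod_cast hj
      have hj0 : (0:ℝ) ≤ j := j.cast_nonneg
      rw [hT2 x (by linarith) (by linarith), hT2 j (by linarith) (by linarith)]
      push_cast; ring
    · rw [hT3 x hx, hT2 n n.cast_nonneg le_rfl]
  have hf20 : ∀ x ≤ 0, (f2 : ℝ ≃o ℝ) x = x := fun x hx => h2 x (Or.inl hx)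
  have hf2n : ∀ x ≥ (n:ℝ), (f2 : ℝ ≃o ℝ) x = x := fun x hx => h2 x (Or.inr hx)
  have hf2m : ∀ x : ℝ, 0 ≤ x → x ≤ n → 0 ≤ (f2 : ℝ ≃o ℝ) x ∧ (f2 : ℝ ≃o ℝ) x ≤ n := by
    intro x hx hx'
    constructor
    · calc (0:ℝ) = (f2 : ℝ ≃o ℝ) 0 := (hf20 0 le_rfl).symm
        _ ≤ _ := (f2 : ℝ ≃o ℝ).monotone hx
    · calc (f2 : ℝ ≃o ℝ) x ≤ (f2 : ℝ ≃o ℝ) n := (f2 : ℝ ≃o ℝ).monotone hx'
        _ = n := hf2n n le_rfl
  have hTE' : IsExp ((T * f2 : ↥PP) : ℝ ≃o ℝ) n := by
    refine ⟨fun x hx => ?_, fun j hj => ?_, fun x hx => ?_⟩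
    · rw [PP_mul_apply, hf20 x hx, hT1 x hx]
    · have hjn : (j:ℝ) + 1 ≤ n := by exact_mod_cast hj
      have hj0 : (0:ℝ) ≤ j := j.cast_nonneg
      obtain ⟨K, hK, hKr⟩ := hr j (Finset.mem_range.2 hj)
      refine ⟨K, hK, fun x hx hx' => ?_⟩
      have e1 := hf2m x (by linarith) (by linarith)
      have e2 := hf2m j (by linarith) (by linarith)
      rw [PP_mul_apply, PP_mul_apply, hT2 _ e1.1 e1.2, hT2 _ e2.1 e2.2, hlx j hj x hx hx', ← hKr]
      ring
    · rw [PP_mul_apply, PP_mul_apply, hf2n x hx, hf2n n le_rfl, hT3 x hx,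
        hT2 n n.cast_nonneg le_rfl]
  obtain ⟨m1, hm1, hq3⟩ := IsExp_q n T hTE
  obtain ⟨m2, hm2, hq4⟩ := IsExp_q n (T * f2) hTE'
  have hm : m1 = m2 := by
    rw [PP_mul_apply, hf2n n le_rfl, hm1] at hm2
    have : (m1:ℝ) = m2 := by linarith
    exact_mod_cast this
  rw [map_mul, hq3, ← hm] at hq4
  rw [← hq2]
  exact mul_eq_left.1 hq4

end Pool.Agent.V8H70.TS
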